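import Mathlib

/-!
# The exponent as a function of the radical

If `h ≤ exp (exp (C / ε (1 + log (1 / ε)) ^ 3)) r ^ ε` for all `0 < ε ≤ 1`, then
`h ≤ exp (C' log r (log log log r) ^ 3 / log log r)` for all large `r`: take
`ε = 16 C (log log log r) ^ 3 / log log r`.
-/

namespace Pool.Agent.Lib.AbcZQ

open Filter

/-- `K (log L) ^ 3 ≤ L` for all large `L` -/
theorem log_cube_le (K : ℝ) (hK : 0 < K) : ∃ L0 : ℝ, ∀ L : ℝ, L0 ≤ L →
    K * Real.log L ^ 3 ≤ L := by
  have h := (Real.isLittleO_pow_log_id_atTop (n := 3)).bound (inv_pos.2 hK)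
  obtain ⟨L0, hL0⟩ := eventually_atTop.1 (h.and (eventually_ge_atTop (0 : ℝ)))
  refine ⟨L0, fun L hL => ?_⟩
  obtain ⟨h1, h2⟩ := hL0 L hL
  rw [id, Real.norm_eq_abs, Real.norm_eq_abs, abs_of_nonneg h2] at h1
  have h3 : Real.log L ^ 3 ≤ K⁻¹ * L := (le_abs_self _).trans h1
  calc K * Real.log L ^ 3 ≤ K * (K⁻¹ * L) := mul_le_mul_of_nonneg_left h3 hK.le
    _ = L := by rw [← mul_assoc, mul_inv_cancel₀ hK.ne', one_mul]

/-- `K (log L) ^ 3 ≤ L ^ e` for all large `L` -/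
theorem log_cube_le_rpow (K e : ℝ) (hK : 0 < K) (he : 0 < e) : ∃ L0 : ℝ, ∀ L : ℝ, L0 ≤ L →
    K * Real.log L ^ 3 ≤ L ^ e := by
  have h := (isLittleO_log_rpow_rpow_atTop (s := e) (3 : ℝ) he).bound (inv_pos.2 hK)
  obtain ⟨L0, hL0⟩ := eventually_atTop.1 (h.and (eventually_ge_atTop (1 : ℝ)))
  refine ⟨L0, fun L hL => ?_⟩
  obtain ⟨h1, h2⟩ := hL0 L hL
  have h4 : (0 : ℝ) ≤ L ^ e := Real.rpow_nonneg (by linarith) _
  rw [Real.norm_eq_abs, Real.norm_eq_abs, abs_of_nonneg h4] at h1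
  have h5 : Real.log L ^ (3 : ℝ) = Real.log L ^ 3 := by
    rw [← Real.rpow_natCast]
    norm_num
  rw [h5] at h1
  have h3 : Real.log L ^ 3 ≤ K⁻¹ * L ^ e := (le_abs_self _).trans h1
  calc K * Real.log L ^ 3 ≤ K * (K⁻¹ * L ^ e) := mul_le_mul_of_nonneg_left h3 hK.le
    _ = L ^ e := by rw [← mul_assoc, mul_inv_cancel₀ hK.ne', one_mul]

/-- `log log r` is large if `r` is large -/
theorem loglog_large (L0 r : ℝ) (hr : Real.exp (Real.exp L0) ≤ r) :
    1 < r ∧ 0 < Real.log r ∧ L0 ≤ Real.log (Real.log r) := by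
  have h1 : 1 < Real.exp (Real.exp L0) := Real.one_lt_exp_iff.2 (Real.exp_pos _)
  have h2 : 1 < r := lt_of_lt_of_le h1 hr
  have h3 : Real.exp L0 ≤ Real.log r := by
    rw [← Real.log_exp (Real.exp L0)]
    exact Real.log_le_log (Real.exp_pos _) hr
  have h4 : 0 < Real.log r := Real.log_pos h2
  refine ⟨h2, h4, ?_⟩
  rw [← Real.log_exp L0]
  exact Real.log_le_log (Real.exp_pos _) h3

/-- the choice of `ε` -/
theorem asy (C : ℝ) (hC : 1 ≤ C) : ∃ C' r0 : ℝ, 0 < C' ∧ ∀ r h : ℝ, r0 ≤ r →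
    (∀ ε : ℝ, 0 < ε → ε ≤ 1 → h ≤ Real.exp (Real.exp (C / ε * (1 + Real.log (1 / ε)) ^ 3)) *
      r ^ ε) →
    h ≤ Real.exp (C' * Real.log r * Real.log (Real.log (Real.log r)) ^ 3 /
      Real.log (Real.log r)) := by
  have hC0 : 0 < C := by linarith
  obtain ⟨L1, hL1⟩ := log_cube_le (16 * C) (by linarith)
  refine ⟨32 * C, Real.exp (Real.exp (max L1 (Real.exp 1))), by linarith, ?_⟩
  intro r h hr H
  obtain ⟨hr1, hR, hL⟩ := loglog_large _ r hr
  set R : ℝ := Real.log r with hRdef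
  set L : ℝ := Real.log R with hLdef
  have hLL1 : L1 ≤ L := (le_max_left _ _).trans hL
  have hLe : Real.exp 1 ≤ L := (le_max_right _ _).trans hL
  have hL0 : 0 < L := lt_of_lt_of_le (Real.exp_pos 1) hLe
  set l : ℝ := Real.log L with hldef
  have hl1 : 1 ≤ l := by
    rw [hldef, ← Real.log_exp 1]
    exact Real.log_le_log (Real.exp_pos 1) hLe
  have hl0 : 0 < l := by linarith
  have hl3 : 1 ≤ l ^ 3 := one_le_pow₀ hl1
  have hK : 1 ≤ 16 * C * l ^ 3 := by nlinarith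
  have hKL : 16 * C * l ^ 3 ≤ L := hL1 L hLL1
  have hε0 : 0 < 16 * C * l ^ 3 / L := by positivity
  have hε1 : 16 * C * l ^ 3 / L ≤ 1 := by
    rw [div_le_one hL0]
    exact hKL
  have key := H _ hε0 hε1
  set ε : ℝ := 16 * C * l ^ 3 / L with hεdef
  have hinv : 1 / ε = L / (16 * C * l ^ 3) := by
    rw [hεdef, one_div_div]
  have hinv1 : 1 / ε ≤ L := by
    rw [hinv]
    exact div_le_self hL0.le hK
  have hinv2 : 1 ≤ 1 / ε := by
    rw [le_div_iff₀ hε0, one_mul]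
    exact hε1
  have hlog0 : 0 ≤ Real.log (1 / ε) := Real.log_nonneg hinv2
  have hlog1 : Real.log (1 / ε) ≤ l := Real.log_le_log (by linarith) hinv1
  have hcube : (1 + Real.log (1 / ε)) ^ 3 ≤ (2 * l) ^ 3 :=
    pow_le_pow_left₀ (by linarith) (by linarith) 3
  have hexp : C / ε * (1 + Real.log (1 / ε)) ^ 3 ≤ L / 2 := by
    calc C / ε * (1 + Real.log (1 / ε)) ^ 3 ≤ C / ε * (2 * l) ^ 3 :=
          mul_le_mul_of_nonneg_left hcube (by positivity)
      _ = L / 2 := by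
          rw [hεdef]
          field_simp
          ring
  have hRL : R = Real.exp L := by rw [hLdef, Real.exp_log hR]
  have hmain : Real.exp (C / ε * (1 + Real.log (1 / ε)) ^ 3) ≤ ε * R := by
    refine (Real.exp_le_exp.2 hexp).trans ?_
    have h1 : 1 + L / 2 ≤ Real.exp (L / 2) := by linarith [Real.add_one_le_exp (L / 2)]
    have h2 : Real.exp L = Real.exp (L / 2) * Real.exp (L / 2) := by
      rw [← Real.exp_add]
      congr 1
      ring
    have h3 : L ≤ 16 * C * l ^ 3 * Real.exp (L / 2) := by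
      have h4 : 16 ≤ 16 * C * l ^ 3 := by nlinarith
      calc L ≤ 16 * (1 + L / 2) := by linarith
        _ ≤ 16 * C * l ^ 3 * Real.exp (L / 2) := by
            apply mul_le_mul h4 h1 (by linarith) (by linarith)
    rw [hRL, h2, hεdef]
    have h5 : 16 * C * l ^ 3 / L * (Real.exp (L / 2) * Real.exp (L / 2)) =
        (16 * C * l ^ 3 * Real.exp (L / 2) / L) * Real.exp (L / 2) := by ring
    rw [h5]
    have h6 : 1 ≤ 16 * C * l ^ 3 * Real.exp (L / 2) / L := by
      rw [le_div_iff₀ hL0, one_mul]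
      exact h3
    nlinarith [Real.exp_pos (L / 2)]
  have hrε : r ^ ε = Real.exp (ε * R) := by
    rw [Real.rpow_def_of_pos (by linarith), mul_comm]
  calc h ≤ Real.exp (Real.exp (C / ε * (1 + Real.log (1 / ε)) ^ 3)) * r ^ ε := key
    _ ≤ Real.exp (ε * R) * Real.exp (ε * R) := by
        rw [hrε]
        exact mul_le_mul_of_nonneg_right (Real.exp_le_exp.2 hmain) (Real.exp_pos _).le
    _ = Real.exp (32 * C * R * l ^ 3 / L) := by
        rw [← Real.exp_add]
        congr 1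
        rw [hεdef]
        ring

/-- the corollary with the exponent `1 - e` -/
theorem asy2 (C' e : ℝ) (hC : 0 < C') (he : 0 < e) : ∃ r0 : ℝ, ∀ r : ℝ, r0 ≤ r →
    C' * Real.log r * Real.log (Real.log (Real.log r)) ^ 3 / Real.log (Real.log r) ≤
      Real.log r / Real.log (Real.log r) ^ (1 - e) := by
  obtain ⟨L1, hL1⟩ := log_cube_le_rpow C' e hC he
  refine ⟨Real.exp (Real.exp (max L1 1)), ?_⟩
  intro r hr
  obtain ⟨hr1, hR, hL⟩ := loglog_large _ r hr
  set R : ℝ := Real.log r with hRdef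
  set L : ℝ := Real.log R with hLdef
  have hLL1 : L1 ≤ L := (le_max_left _ _).trans hL
  have hL0 : 0 < L := lt_of_lt_of_le one_pos ((le_max_right _ _).trans hL)
  have h1 := hL1 L hLL1
  have h2 : L ^ (1 - e) = L / L ^ e := by
    rw [Real.rpow_sub hL0, Real.rpow_one]
  have h3 : 0 < L ^ e := Real.rpow_pos_of_pos hL0 e
  rw [h2, div_div_eq_mul_div, div_le_div_iff_of_pos_right hL0]
  calc C' * R * Real.log L ^ 3 = R * (C' * Real.log L ^ 3) := by ring
    _ ≤ R * L ^ e := mul_le_mul_of_nonneg_left h1 hR.le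

end Pool.Agent.Lib.AbcZQ
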