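import Mathlib

/-!
# Functions of small degree on multisets which vanish on a window

`J` is a set of letters with phases `φ : J → ℕ`, the phase of a multiset `B` of letters is
`(c + ∑ φ) % N`.  A function of degree less than `m` on the multisets of letters, which vanishes on
all multisets of size `m - 1 + s` whose phase is less than `om`, vanishes on all multisets of this
size, if there are letters at the scales `om, 2 om, 4 om, …, 2 ^ s om ≥ 2 N`.  The proof is an
induction on the degree and on the scale.
-/

namespace Pool.Agent.Lib.AbcZQ

variable {J R : Type*} [AddCommGroup R]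

/-- Functions of degree less than `m` on multisets of letters. -/
def DegM : ℕ → (Multiset J → R) → Prop
  | 0, f => ∀ B, f B = 0
  | m + 1, f => ∀ a b : J, DegM m (fun B => f (a ::ₘ B) - f (b ::ₘ B))

theorem DegM.cons {m : ℕ} (x : J) : ∀ {f : Multiset J → R}, DegM m f →
    DegM m (fun B => f (x ::ₘ B)) := by
  induction m with
  | zero =>
    intro f hf B
    exact hf _
  | succ m ih =>
    intro f hf a b
    have := ih (hf a b)
    convert this using 1
    funext B
    rw [Multiset.cons_swap a x, Multiset.cons_swap b x]

/-- A function of degree less than `m` which vanishes on the multisets of size `n ≥ m` that contain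
a given letter vanishes on all multisets of this size. -/
theorem DegM.vanish {m : ℕ} (a : J) : ∀ {f : Multiset J → R} {n : ℕ}, DegM m f → m ≤ n →
    (∀ B, Multiset.card B = n → a ∈ B → f B = 0) → ∀ B, Multiset.card B = n → f B = 0 := by
  induction m with
  | zero =>
    intro f n hf _ _ B _
    exact hf B
  | succ m ih =>
    intro f n hf hn h B hB
    classical
    obtain ⟨x, B', rfl⟩ : ∃ x B', B = x ::ₘ B' := by
      have h0 : B ≠ 0 := by
        rintro rfl
        simp at hB
        omega
      obtain ⟨x, hx⟩ := Multiset.exists_mem_of_ne_zero h0
      exact ⟨x, _, (Multiset.cons_erase hx).symm⟩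
    rw [Multiset.card_cons] at hB
    have h1 : ∀ B'', Multiset.card B'' = n - 1 → f (x ::ₘ B'') - f (a ::ₘ B'') = 0 := by
      refine ih (n := n - 1) (hf x a) (by omega) ?_
      intro B'' hc ha
      rw [h _ (by rw [Multiset.card_cons]; omega) (Multiset.mem_cons_of_mem ha),
        h _ (by rw [Multiset.card_cons]; omega) (Multiset.mem_cons_self a B''), sub_self]
    have h2 := h1 B' (by omega)
    rw [h (a ::ₘ B') (by rw [Multiset.card_cons]; omega) (Multiset.mem_cons_self a B'),
      sub_zero] at h2
    exact h2

/-- The phase of a multiset. -/
def phs (N : ℕ) (φ : J → ℕ) (c : ℕ) (B : Multiset J) : ℕ := (c + (B.map φ).sum) % N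

theorem phs_cons (N : ℕ) (φ : J → ℕ) (c : ℕ) (a : J) (B : Multiset J) :
    phs N φ c (a ::ₘ B) = phs N φ (c + φ a) B := by
  unfold phs
  rw [Multiset.map_cons, Multiset.sum_cons, add_assoc]

/-- The letters needed at one scale `om`: a sequence of letters whose phases grow by steps of length
at most `om / (2 D)` and in total by at least `om`. -/
structure Chain (N D om : ℕ) (φ : J → ℕ) where
  /-- the letters -/
  a : ℕ → J
  /-- the steps -/
  inc : ℕ → ℕ
  /-- the number of steps -/
  l : ℕ
  step : ∀ j, j < l → φ (a (j + 1)) % N = (φ (a j) + inc j) % N
  small : ∀ j, j < l → 2 * D * inc j ≤ om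
  total : om ≤ ∑ j ∈ Finset.range l, inc j

/-- **The multi-scale lemma.** -/
theorem multi {N D om I : ℕ} (hN : 0 < N) (hD : 0 < D) (φ : J → ℕ)
    (ch : ∀ i, i < I → Chain N D (2 ^ i * om) φ) (hI : 2 * N ≤ 2 ^ I * om) :
    ∀ (m : ℕ), m ≤ D + 1 → ∀ (k i : ℕ), i + k = I → ∀ (f : Multiset J → R), DegM m f →
      ∀ (c w n : ℕ), n + 1 = m + k → (D + m) * (2 ^ i * om) ≤ 2 * D * w + 2 ^ i * om →
      (∀ B, Multiset.card B = n → phs N φ c B < w → f B = 0) →
      ∀ B, Multiset.card B = n → f B = 0 := by
  intro m
  induction m with
  | zero =>
    intro _ k i _ f hf c w n _ _ _ B _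
    exact hf B
  | succ m ihm =>
    intro hm k
    induction k with
    | zero =>
      intro i hi f hf c w n hn hw h B hB
      obtain rfl : i = I := by omega
      refine h B hB (lt_of_lt_of_le (Nat.mod_lt _ hN) ?_)
      have h1 : 2 * D * N ≤ 2 * D * w := by
        have h2 : (D + (m + 1)) * (2 ^ i * om) = (D + m) * (2 ^ i * om) + 2 ^ i * om := by ring
        have h3 : D * (2 * N) ≤ (D + m) * (2 ^ i * om) :=
          Nat.mul_le_mul (Nat.le_add_right D m) hI
        have h4 : D * (2 * N) = 2 * D * N := by ring
        omega
      exact Nat.le_of_mul_le_mul_left h1 (by omega)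
    | succ k ihk =>
      intro i hi f hf c w n hn hw h
      have C := ch i (by omega)
      set W := 2 ^ i * om with hW
      -- the window is not too small
      have hDw : D * W ≤ 2 * D * w := by
        have h2 : (D + (m + 1)) * W = D * W + m * W + W := by ring
        have h3 : 0 ≤ m * W := Nat.zero_le _
        omega
      have hWw : W ≤ 2 * w := by
        have h2 : D * W ≤ D * (2 * w) := by
          have : D * (2 * w) = 2 * D * w := by ring
          omega
        exact Nat.le_of_mul_le_mul_left h2 hD
      have hinc : ∀ j, j < C.l → C.inc j ≤ w := by
        intro j hj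
        have h1 := C.small j hj
        have h2 : 2 * C.inc j ≤ 2 * D * C.inc j := by
          have : 2 * C.inc j ≤ 2 * C.inc j * D := Nat.le_mul_of_pos_right _ hD
          have e : 2 * C.inc j * D = 2 * D * C.inc j := by ring
          omega
        omega
      -- exchange of neighbouring letters
      have hex : ∀ j, j < C.l → ∀ B, Multiset.card B + 1 = n →
          f (C.a (j + 1) ::ₘ B) = f (C.a j ::ₘ B) := by
        intro j hj B hB
        rcases Nat.eq_zero_or_pos m with hm0 | hm0
        · subst hm0
          have := hf (C.a (j + 1)) (C.a j) B
          exact sub_eq_zero.mp this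
        · refine sub_eq_zero.mp (ihm (by omega) (k + 1) i hi
            (fun B => f (C.a (j + 1) ::ₘ B) - f (C.a j ::ₘ B)) (hf _ _)
            (c + φ (C.a j)) (w - C.inc j) (n - 1) (by omega) ?_ ?_ B (by omega))
          · have h1 := C.small j hj
            have h2 := hinc j hj
            have h3 : 2 * D * (w - C.inc j) = 2 * D * w - 2 * D * C.inc j := Nat.mul_sub _ _ _
            have h4 : (D + (m + 1)) * W = (D + m) * W + W := by ring
            have h5 : 2 * D * C.inc j ≤ 2 * D * w := Nat.mul_le_mul_left _ h2
            rw [← hW] at *
            omega
          · intro B' hB' hp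
            have h1 : phs N φ c (C.a j ::ₘ B') < w := by
              rw [phs_cons]
              omega
            have h2 : phs N φ c (C.a (j + 1) ::ₘ B') < w := by
              have e1 : phs N φ c (C.a (j + 1) ::ₘ B') =
                  (phs N φ (c + φ (C.a j)) B' + C.inc j) % N := by
                rw [phs_cons]
                unfold phs
                rw [Nat.mod_add_mod]
                have e2 : φ (C.a (j + 1)) ≡ φ (C.a j) + C.inc j [MOD N] := C.step j hj
                have e3 := (e2.add_left c).add_right (B'.map φ).sum
                have e4 : c + (φ (C.a j) + C.inc j) + (B'.map φ).sum =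
                  c + φ (C.a j) + (B'.map φ).sum + C.inc j := by ring
                rw [e4] at e3
                exact e3
              rw [e1]
              exact lt_of_le_of_lt (Nat.mod_le _ _) (by omega)
            rw [h _ (by rw [Multiset.card_cons]; omega) h1,
              h _ (by rw [Multiset.card_cons]; omega) h2, sub_self]
      have hex' : ∀ j, j ≤ C.l → ∀ B, Multiset.card B + 1 = n →
          f (C.a j ::ₘ B) = f (C.a 0 ::ₘ B) := by
        intro j
        induction j with
        | zero => intro _ B _; rfl
        | succ j ihj =>
          intro hj B hB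
          rw [hex j (by omega) B hB, ihj (by omega) B hB]
      -- partial sums of the steps
      set T : ℕ → ℕ := fun j => ∑ t ∈ Finset.range j, C.inc t with hT
      have hTs : ∀ j, T (j + 1) = T j + C.inc j := fun j => Finset.sum_range_succ _ _
      have hT0 : T 0 = 0 := rfl
      have hTmono : ∀ j j', j ≤ j' → T j ≤ T j' := fun j j' hjj =>
        Finset.sum_le_sum_of_subset (Finset.range_mono hjj)
      have hphase : ∀ j, j ≤ C.l → φ (C.a j) ≡ φ (C.a 0) + T j [MOD N] := by
        intro j
        induction j with
        | zero => intro _; rw [hT0, add_zero]
        | succ j ihj =>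
          intro hj
          have e1 : φ (C.a (j + 1)) ≡ φ (C.a j) + C.inc j [MOD N] := C.step j (by omega)
          have e2 := (ihj (by omega)).add_right (C.inc j)
          rw [hTs, ← add_assoc]
          exact e1.trans e2
      -- the enlarged window
      have hbig : ∀ B, Multiset.card B = n - 1 → f (C.a 0 ::ₘ B) = 0 := by
        refine ihk (i + 1) (by omega) (fun B => f (C.a 0 ::ₘ B)) (hf.cons _)
          (c + φ (C.a 0) + T C.l) (w + T C.l) (n - 1) (by omega) ?_ ?_
        · have h1 : W ≤ T C.l := C.total
          have e1 : 2 ^ (i + 1) * om = 2 * W := by rw [hW]; ring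
          rw [e1]
          have h2 : (D + (m + 1)) * (2 * W) = 2 * D * W + 2 * (m + 1) * W := by ring
          have h3 : 2 * D * (w + T C.l) = 2 * D * w + 2 * D * T C.l := by ring
          have h4 : 2 * D * W ≤ 2 * D * T C.l := Nat.mul_le_mul_left _ h1
          have h5 : (D + (m + 1)) * W = D * W + (m + 1) * W := by ring
          have h6 : (m + 1) * W ≤ (D + 1) * W := Nat.mul_le_mul_right _ hm
          have h7 : (D + 1) * W = D * W + W := by ring
          have h8 : 2 * (m + 1) * W = (m + 1) * W + (m + 1) * W := by ring
          omega
        · intro B hB hp
          -- find the letter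
          set u := phs N φ (c + φ (C.a 0) + T C.l) B with hu
          have huN : u < N := Nat.mod_lt _ hN
          have key : ∀ j, j ≤ C.l → T C.l - T j ≤ u →
              phs N φ c (C.a j ::ₘ B) = u - (T C.l - T j) := by
            intro j hj hle
            have e1 : phs N φ c (C.a j ::ₘ B) ≡ u - (T C.l - T j) [MOD N] := by
              have hm1 := hTmono j C.l hj
              have e2 : phs N φ c (C.a j ::ₘ B) + (T C.l - T j) ≡ u [MOD N] := by
                rw [phs_cons, hu]
                unfold phs
                have e3 : (c + φ (C.a j) + (B.map φ).sum) % N + (T C.l - T j) ≡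
                    c + φ (C.a j) + (B.map φ).sum + (T C.l - T j) [MOD N] :=
                  (Nat.mod_modEq _ _).add_right _
                refine e3.trans ?_
                refine Nat.ModEq.trans ?_ (Nat.mod_modEq _ _).symm
                have e4 := (((hphase j hj).add_left c).add_right (B.map φ).sum).add_right
                  (T C.l - T j)
                refine e4.trans ?_
                have e5 : c + (φ (C.a 0) + T j) + (B.map φ).sum + (T C.l - T j) =
                    c + φ (C.a 0) + T C.l + (B.map φ).sum := by omega
                rw [e5]
              have e6 : u = u - (T C.l - T j) + (T C.l - T j) := by omega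
              rw [e6] at e2
              exact Nat.ModEq.add_right_cancel' _ e2
            have h1 : phs N φ c (C.a j ::ₘ B) < N := Nat.mod_lt _ hN
            exact Nat.ModEq.eq_of_lt_of_lt e1 h1 (by omega)
          have hfind : ∃ j, j ≤ C.l ∧ T C.l - T j ≤ u ∧ u - (T C.l - T j) < w := by
            by_cases huw : u < w
            · exact ⟨C.l, le_rfl, by omega, by omega⟩
            · push Not at huw
              -- the largest `j` with `u - (T l - T j) < w`
              classical
              have hex2 : ∃ j, j ≤ C.l ∧ u < w + (T C.l - T j) := by
                refine ⟨0, Nat.zero_le _, ?_⟩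
                rw [hT0]
                omega
              set j0 := Nat.findGreatest (fun j => u < w + (T C.l - T j)) C.l with hj0
              have hj1 : u < w + (T C.l - T j0) := by
                obtain ⟨j, hj, hj'⟩ := hex2
                exact Nat.findGreatest_spec (P := fun j => u < w + (T C.l - T j)) hj hj'
              have hj2 : j0 ≤ C.l := Nat.findGreatest_le _
              have hj3 : j0 < C.l := by
                rcases Nat.lt_or_ge j0 C.l with h1 | h1
                · exact h1
                · exfalso
                  have : j0 = C.l := le_antisymm hj2 h1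
                  rw [this] at hj1
                  omega
              have hj4 : ¬ u < w + (T C.l - T (j0 + 1)) :=
                Nat.findGreatest_is_greatest (P := fun j => u < w + (T C.l - T j))
                  (Nat.lt_succ_self _) hj3
              have h5 := hinc j0 hj3
              have h6 := hTs j0
              have h7 := hTmono (j0 + 1) C.l hj3
              exact ⟨j0, hj2, by omega, by omega⟩
          obtain ⟨j, hj, hj1, hj2⟩ := hfind
          rw [← hex' j hj B (by omega)]
          refine h _ (by rw [Multiset.card_cons]; omega) ?_
          rw [key j hj hj1]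
          exact hj2
      classical
      refine hf.vanish (C.a 0) (by omega) ?_
      intro B hB ha
      have h1 := hbig (B.erase (C.a 0)) (by
        rw [Multiset.card_erase_of_mem ha, hB]
        rfl)
      rwa [Multiset.cons_erase ha] at h1

end Pool.Agent.Lib.AbcZQ
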