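import Pool.Agent.Lib.AbcZ.Unisolve
import Pool.Agent.Lib.AbcZQ.Multi

/-!
# Unisolvence of a slab set with letters at several scales
-/

namespace Pool.Agent.Lib.AbcZQ

open Finset Pool.Agent.Lib.AbcZ Pool.Agent.Lib.AbcZ.Uni

variable {κ : Type*} [Fintype κ] [DecidableEq κ]

/-- The property of the letters needed for the reduction modulo `M`: a function of degree at most
`D < m` which vanishes modulo `M` on the words of length `D + s` with phase in `[0, om)` vanishes
modulo `M` on all words of this length. -/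
def WalkP (M N m om s : ℕ) (γ : Option κ → ℕ) : Prop :=
  ∀ D : ℕ, D < m → ∀ (c : ℕ) (g : (κ → ℕ) → ℤ), Dg (D + 1) g →
    (∀ x : Fin (D + s) → Option κ, (c + ∑ i, M * γ (x i)) % N < om →
      (M : ℤ) ∣ g (∑ i, stp (x i))) →
    ∀ x : Fin (D + s) → Option κ, (M : ℤ) ∣ g (∑ i, stp (x i))

theorem degM_of_dg {R : Type*} [AddCommGroup R] (q : ℤ →+ R) {m : ℕ} :
    ∀ {g : (κ → ℕ) → ℤ}, Dg m g →
      DegM m (fun B : Multiset (Option κ) => q (g ((B.map stp).sum))) := by
  induction m with
  | zero =>
    intro g hg B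
    have hg' : g = 0 := hg
    subst hg'
    simp
  | succ m ih =>
    intro g hg a b
    have h1 := ih (hg.letters a b)
    convert h1 using 1
    funext B
    simp only [Multiset.map_cons, Multiset.sum_cons, map_sub]

/-- letters at the scales `om`, `2 om`, …, `2 ^ s om` -/
theorem walkP_of_chains {M N D om om' s : ℕ} (hN : 0 < N) (hD : 0 < D) (γ : Option κ → ℕ)
    (ch : ∀ i, i < s → Chain N D (2 ^ i * om) (fun x => M * γ x)) (hI : 2 * N ≤ 2 ^ s * om)
    (hom : om ≤ om') : WalkP M N (D + 1) om' s γ := by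
  intro D' hD' c g hg h x
  let F : Multiset (Option κ) → ZMod M := fun B =>
    (Int.castAddHom (ZMod M)) (g ((B.map stp).sum))
  have hF : ∀ B, F B = ((g ((B.map stp).sum) : ℤ) : ZMod M) := fun B => rfl
  have hFD : DegM (D' + 1) F := degM_of_dg _ hg
  have hword : ∀ {n : ℕ} (x : Fin n → Option κ),
      ((univ.val.map x).map stp).sum = ∑ i, stp (x i) := by
    intro n x
    rw [Multiset.map_map]
    rfl
  have hphase : ∀ {n : ℕ} (x : Fin n → Option κ),
      phs N (fun x => M * γ x) c (univ.val.map x) = (c + ∑ i, M * γ (x i)) % N := by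
    intro n x
    unfold phs
    rw [Multiset.map_map]
    rfl
  have hm := multi hN hD (fun x => M * γ x) ch hI (D' + 1) (by omega) s 0 (by omega) F hFD c om'
    (D' + s) (by ring) ?_ ?_ (univ.val.map x) (by simp)
  · rw [hF, hword] at hm
    exact (ZMod.intCast_zmod_eq_zero_iff_dvd _ _).mp hm
  · have h1 : (D + (D' + 1)) * (2 ^ 0 * om) = (D + D') * om + om := by ring
    have h2 : (D + D') * om ≤ 2 * D * om := Nat.mul_le_mul_right _ (by omega)
    have h3 : 2 * D * om ≤ 2 * D * om' := Nat.mul_le_mul_left _ hom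
    have h4 : 2 ^ 0 * om = om := by ring
    omega
  · intro B hB hp
    obtain ⟨y, rfl⟩ : ∃ y : Fin (D' + s) → Option κ, univ.val.map y = B := by
      induction B using Quotient.inductionOn with
      | h l =>
        have hl : l.length = D' + s := by simpa using hB
        refine ⟨fun i => l.get (i.cast hl.symm), ?_⟩
        have e : univ.val.map (fun i : Fin (D' + s) => l.get (i.cast hl.symm)) =
            ((List.ofFn (fun i : Fin (D' + s) => l.get (i.cast hl.symm)) : List (Option κ)) :
              Multiset (Option κ)) := by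
          rw [List.ofFn_eq_map]
          rfl
        rw [e]
        congr 1
        apply List.ext_get
        · simp [hl]
        · intro i h1 h2
          simp
    rw [hF, hword]
    rw [hphase] at hp
    exact (ZMod.intCast_zmod_eq_zero_iff_dvd _ _).mpr (h y hp)

/-- the reduction modulo the prime `M` -/
theorem mod_stepW {M N n m om L c s : ℕ} (hM : M.Prime) (γ : Option κ → ℕ)
    (hw : WalkP M N m om s γ) (hm : n < m * M) (hL : n + s * M ≤ L)
    (ρ : (κ → ℕ) → ℤ)
    (h : ∀ A : κ → ℕ, ∑ x, A x ≤ L → (c + wtL γ L A) % N < om →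
      (M : ℤ) ∣ ∑ α ∈ degs κ n, ρ α * bin A α) :
    ∀ α ∈ degs κ n, (M : ℤ) ∣ ρ α := by
  have hMpos : 0 < M := hM.pos
  have key : ∀ k : ℕ, ∀ b : κ → ℕ, (∀ x, b x < M) → ∑ x, b x = k →
      ∀ α ∈ degs κ n, (∀ x, α x % M = b x) → (M : ℤ) ∣ ρ α := by
    intro k
    induction k using Nat.strong_induction_on with
    | _ k ih =>
      intro b hb hk α₀ hα₀ hα₀b
      have hsumdeg : ∀ α ∈ degs κ n, (∀ x, α x % M = b x) →
          M * ∑ x, α x / M + ∑ x, b x ≤ n := by
        intro α hα hαb
        have h1 : ∑ x, α x = M * ∑ x, α x / M + ∑ x, b x := by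
          rw [mul_sum, ← sum_add_distrib]
          refine sum_congr rfl fun x _ => ?_
          rw [← hαb x]
          exact (Nat.div_add_mod (α x) M).symm
        rw [← h1]
        exact mem_degs.mp hα
      set T := (degs κ n).filter fun α => ∀ x, α x % M = b x with hT
      set D := (n - ∑ x, b x) / M with hD
      have hbn : ∑ x, b x ≤ n := by
        have := hsumdeg α₀ hα₀ hα₀b
        omega
      have hDM : M * D ≤ n - ∑ x, b x := Nat.mul_div_le _ _
      have hDm : D + 1 ≤ m := by
        have h1 : M * D < M * m := by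
          rw [mul_comm M m]
          omega
        exact Nat.lt_of_mul_lt_mul_left h1
      have hTdeg : ∀ α ∈ T, ∑ x, α x / M ≤ D := by
        intro α hα
        obtain ⟨h1, h2⟩ := mem_filter.mp hα
        have h3 := hsumdeg α h1 h2
        rw [hD, Nat.le_div_iff_mul_le hMpos, mul_comm]
        omega
      set g : (κ → ℕ) → ℤ := fun B => ∑ α ∈ T, ρ α * (bin B (fun x => α x / M) : ℤ) with hg
      have hgD : Dg (D + 1) g := by
        refine Dg.sum T _ fun α hα => (Dg.binom (D + 1) _ ?_).smul (ρ α)
        have := hTdeg α hα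
        omega
      have hval : ∀ B : κ → ℕ, ∑ x, (M * B x + b x) ≤ L →
          (c + wtL γ L (fun x => M * B x + b x)) % N < om → (M : ℤ) ∣ g B := by
        intro B hB1 hB2
        have h1 := h _ hB1 hB2
        have h2 : (M : ℤ) ∣ ∑ α ∈ degs κ n, ρ α * bin (fun x => M * B x + b x) α - g B := by
          rw [hg, hT]
          simp only [sum_filter]
          rw [← sum_sub_distrib]
          refine dvd_sum fun α hα => ?_
          have h3 := lucas_bin hM B b α hb
          split_ifs with hc
          · have h4 : (fun x => α x % M) = b := funext hc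
            rw [h4, bin_self] at h3
            have h5 : ρ α * (bin (fun x => M * B x + b x) α : ℤ) -
                ρ α * (bin B (fun x => α x / M) : ℤ) = ρ α * ((bin (fun x => M * B x + b x) α : ℤ) -
                  ((1 : ℕ) : ℤ) * bin B (fun x => α x / M)) := by
              push_cast
              ring
            rw [h5]
            exact Dvd.dvd.mul_left h3 _
          · rw [sub_zero]
            by_cases hle : (fun x => α x % M) ≤ b
            · refine dvd_mul_of_dvd_left ?_ _
              refine ih (∑ x, α x % M) ?_ (fun x => α x % M) (fun x => Nat.mod_lt _ hMpos) rfl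
                α hα fun x => rfl
              rw [← hk]
              exact sum_lt_of_le_ne hle fun he => hc fun x => congrFun he x
            · rw [bin_eq_zero hle] at h3
              have h5 : (M : ℤ) ∣ (bin (fun x => M * B x + b x) α : ℤ) := by simpa using h3
              exact Dvd.dvd.mul_left h5 _
        exact (dvd_sub_right h1).mp h2
      have hLb : M * (D + s) + ∑ x, b x ≤ L := by
        rw [mul_add, mul_comm M s]
        omega
      have hwalk := hw D (by omega)
        (c + (∑ k, γ (some k) * b k + γ none * (L - (M * (D + s) + ∑ k, b k)))) g hgD (by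
          intro x hx
          refine hval _ ?_ ?_
          · obtain ⟨_, h2⟩ := wt_word γ x
            rw [sum_add_distrib, ← mul_sum]
            have := Nat.mul_le_mul_left M h2
            omega
          · rw [wtL_word γ x M L b hLb, ← add_assoc]
            exact hx)
      refine dvd_of_values T (fun α x => α x / M) ?_ ρ D hTdeg ?_ α₀
        (mem_filter.mpr ⟨hα₀, hα₀b⟩)
      · intro α hα β hβ he
        funext x
        have h1 := (mem_filter.mp hα).2 x
        have h2 := (mem_filter.mp hβ).2 x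
        have h3 : α x / M = β x / M := congrFun he x
        rw [← Nat.div_add_mod (α x) M, ← Nat.div_add_mod (β x) M, h1, h2, h3]
      · intro B hB
        obtain ⟨x, hx⟩ := exists_letters (D + s) B (by omega)
        have := hwalk x
        rw [hx] at this
        exact this
  intro α hα
  exact key _ (fun x => α x % M) (fun x => Nat.mod_lt _ hMpos) rfl α hα fun x => rfl

/-- **Unisolvence**, integral coefficients. -/
theorem unisolvW_int {M N n m om L c s : ℕ} (hM : M.Prime) (γ : Option κ → ℕ)
    (hw : WalkP M N m om s γ) (hm : n < m * M) (hL : n + s * M ≤ L)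
    (ρ : (κ → ℕ) → ℤ)
    (h : ∀ A : κ → ℕ, ∑ x, A x ≤ L → (c + wtL γ L A) % N < om →
      ∑ α ∈ degs κ n, ρ α * bin A α = 0) :
    ∀ α ∈ degs κ n, ρ α = 0 := by
  have key : ∀ j : ℕ, ∀ ρ : (κ → ℕ) → ℤ,
      (∀ A : κ → ℕ, ∑ x, A x ≤ L → (c + wtL γ L A) % N < om →
        ∑ α ∈ degs κ n, ρ α * bin A α = 0) →
      ∀ α ∈ degs κ n, (M : ℤ) ^ j ∣ ρ α := by
    intro j
    induction j with
    | zero =>
      intro ρ _ α _
      rw [pow_zero]
      exact one_dvd _
    | succ j ih =>
      intro ρ hρ α hα
      have h1 := mod_stepW hM γ hw hm hL ρ (fun A hA hA' => by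
        rw [hρ A hA hA']
        exact dvd_zero _)
      have h2 := ih (fun β => ρ β / M) (fun A hA hA' => by
        have h3 := hρ A hA hA'
        have h4 : ∑ β ∈ degs κ n, ρ β * (bin A β : ℤ) =
            M * ∑ β ∈ degs κ n, ρ β / M * (bin A β : ℤ) := by
          rw [mul_sum]
          refine sum_congr rfl fun β hβ => ?_
          rw [← mul_assoc, Int.mul_ediv_cancel' (h1 β hβ)]
        rw [h4] at h3
        rcases mul_eq_zero.mp h3 with h5 | h5
        · exact absurd h5 (by exact_mod_cast hM.ne_zero)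
        · exact h5) α hα
      rw [pow_succ', ← Int.mul_ediv_cancel' (h1 α hα)]
      exact mul_dvd_mul_left _ h2
  intro α hα
  by_contra hne
  have h1 := key ((ρ α).natAbs) ρ h α hα
  have h2 : M ^ (ρ α).natAbs ∣ (ρ α).natAbs := by
    have := Int.natAbs_dvd_natAbs.mpr h1
    rwa [Int.natAbs_pow, Int.natAbs_natCast] at this
  have h3 := Nat.le_of_dvd (Int.natAbs_pos.mpr hne) h2
  have h4 := Nat.lt_pow_self (n := (ρ α).natAbs) hM.one_lt
  omega

/-- **Unisolvence**, rational coefficients. -/
theorem unisolvW {M N n m om L c s : ℕ} (hM : M.Prime) (γ : Option κ → ℕ)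
    (hw : WalkP M N m om s γ) (hm : n < m * M) (hL : n + s * M ≤ L)
    (ρ : (κ → ℕ) → ℚ)
    (h : ∀ A : κ → ℕ, ∑ x, A x ≤ L → (c + wtL γ L A) % N < om →
      ∑ α ∈ degs κ n, ρ α * (bin A α : ℚ) = 0) :
    ∀ α ∈ degs κ n, ρ α = 0 := by
  set d : ℕ := ∏ α ∈ degs κ n, (ρ α).den with hd
  have hd0 : (d : ℚ) ≠ 0 := by
    rw [hd]
    push_cast
    exact prod_ne_zero_iff.mpr fun α _ => by exact_mod_cast (ρ α).den_nz
  have hint : ∀ α ∈ degs κ n, ∃ r : ℤ, (r : ℚ) = d * ρ α := by
    intro α hα
    obtain ⟨e, he⟩ := dvd_prod_of_mem (fun α => (ρ α).den) hα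
    refine ⟨e * (ρ α).num, ?_⟩
    rw [← hd] at he
    rw [he]
    push_cast
    have := Rat.mul_den_eq_num (ρ α)
    rw [← this]
    ring
  choose! r hr using hint
  have h1 := unisolvW_int hM γ hw hm hL r (fun A hA hA' => by
    have h2 := h A hA hA'
    have h3 : ((∑ α ∈ degs κ n, r α * (bin A α : ℤ) : ℤ) : ℚ) =
        d * ∑ α ∈ degs κ n, ρ α * (bin A α : ℚ) := by
      push_cast
      rw [mul_sum]
      refine sum_congr rfl fun α hα => ?_
      rw [hr α hα, mul_assoc]
    rw [h2, mul_zero] at h3
    exact_mod_cast h3)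
  intro α hα
  have h2 := hr α hα
  rw [h1 α hα, Int.cast_zero] at h2
  rcases mul_eq_zero.mp h2.symm with h3 | h3
  · exact absurd h3 hd0
  · exact h3


theorem ix_succ_eq' (n : ℕ) : ix κ (n + 1) = degs κ n := ix_succ_eq n

/-- **Unisolvence modulo a prime.** -/
theorem unisolveM (M n m N om L c s : ℕ) (hM : M.Prime) (g : Option κ → ℕ)
    (hw : WalkP M N m om s g) (hnm : n ≤ m * M) (hL : n + s * M ≤ L) (ρ : (κ → ℕ) → ℤ)
    (hz : ∀ A : κ → ℕ, tdeg A ≤ L → (c + wt g L A) % N < om →
      (M : ℤ) ∣ ∑ α ∈ ix κ n, ρ α * bin A α) :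
    ∀ α ∈ ix κ n, (M : ℤ) ∣ ρ α := by
  cases n with
  | zero =>
    intro α hα
    exact absurd (mem_ix.mp hα) (Nat.not_lt_zero _)
  | succ n =>
    rw [ix_succ_eq] at *
    exact mod_stepW hM g hw (by omega) (by omega) ρ hz

/-- **Unisolvence of the slab set.** -/
theorem unisolveMQ (M n m N om L c s : ℕ) (hM : M.Prime) (g : Option κ → ℕ)
    (hw : WalkP M N m om s g) (hnm : n ≤ m * M) (hL : n + s * M ≤ L) (ρ : (κ → ℕ) → ℚ)
    (hz : ∀ A : κ → ℕ, tdeg A ≤ L → (c + wt g L A) % N < om →
      ∑ α ∈ ix κ n, ρ α * bin A α = 0) :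
    ∀ α ∈ ix κ n, ρ α = 0 := by
  cases n with
  | zero =>
    intro α hα
    exact absurd (mem_ix.mp hα) (Nat.not_lt_zero _)
  | succ n =>
    rw [ix_succ_eq] at *
    exact unisolvW hM g hw (by omega) (by omega) ρ hz

end Pool.Agent.Lib.AbcZQ
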