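import Mathlib
import Pool.Agent.Lib.AbcZ.Indep
import Pool.Agent.Lib.AbcZQ.UniM

/-!
# Linear independence of the rows, multi-scale version

As `AbcZ/Indep.lean`, with the property `WalkP` in place of a single walk.
-/

namespace Pool.Agent.Lib.AbcZQ

open Finset Pool.Agent.Lib.AbcZ

variable {K : Type*} [Fintype K] [DecidableEq K]

/-- a function in `Bq K n` vanishing on the window is zero -/
theorem zero_of_windowW (M n m N om L c s : ℕ) (hM : M.Prime) (g : Option K → ℕ)
    (hw : WalkP M N m om s g) (hnm : n ≤ m * M) (hL : n + s * M ≤ L) (f : (K → ℕ) → ℚ)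
    (hf : f ∈ Bq K n)
    (hz : ∀ A : K → ℕ, tdeg A ≤ L → (c + wt g L A) % N < om → f A = 0) :
    ∀ A, f A = 0 := by
  obtain ⟨ρ, hρ⟩ := mem_Bq_iff.mp hf
  have h := unisolveMQ M n m N om L c s hM g hw hnm hL ρ
    (fun A hA hw => by rw [← hρ A]; exact hz A hA hw)
  intro A
  rw [hρ A]
  exact Finset.sum_eq_zero fun α hα => by rw [h α hα, zero_mul]

/-- **Independence** of the rows. `S = {A : tdeg A ≤ Lam, wt g Lam A % N < W}`. -/
theorem indepW (M n m N W L s : ℕ) (hM : M.Prime) (g : Option K → ℕ)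
    (k1 : K) (hg : g none < g (some k1))
    (hw1 : WalkP M N m (W - (g (some k1) - g none)) s g) (hw2 : WalkP M N m W s g)
    (N1 N2 : ℕ) (hn : N1 + N2 ≤ n)
    (hnm : n ≤ m * M) (hL : n + s * M ≤ L) (hWN : W ≤ N) (a : (K → ℕ) → ℚ) (om : ℚ)
    (hom : om ≠ 1) (ha0 : ∀ A, tdeg A ≤ L + 1 → a A ≠ 0)
    (ha : ∀ A, tdeg A ≤ L → wt g (L + 1) A % N + (g (some k1) - g none) < W →
      a (A + uv (some k1)) = om * a A)
    (R1 R2 : (K → ℕ) → ℚ) (hR1 : R1 ∈ Bq K N1) (hR2 : R2 ∈ Bq K N2)
    (h : ∀ A, tdeg A ≤ L + 1 → wt g (L + 1) A % N < W → R1 A + R2 A * a A = 0) :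
    (∀ A, R1 A = 0) ∧ (∀ A, R2 A = 0) := by
  set G := g (some k1) - g none with hG
  have hP : ∀ A, R1 (A + uv (some k1)) * R2 A - om * (R1 A * R2 (A + uv (some k1))) = 0 := by
    refine zero_of_windowW M n m N (W - G) L (g none) s hM g hw1 hnm hL
      (fun A => R1 (A + uv (some k1)) * R2 A - om * (R1 A * R2 (A + uv (some k1)))) ?_ ?_
    · have m1 := Bq_mul (Bq_shift hR1 k1) hR2
      have m2 := Bq_mul hR1 (Bq_shift hR2 k1)
      have m3 := Submodule.sub_mem _ m1 (Submodule.smul_mem _ om m2)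
      exact Bq_mono hn m3
    · intro A hA hw
      rw [← wt_succ' g L A hA] at hw
      have hw' : wt g (L + 1) A % N + G < W := by omega
      have e1 := h A (by omega) (by omega)
      have e2 := h (A + uv (some k1)) (by rw [tdeg_add_uv]; omega) (by
        rw [wt_add_uv g L A k1 hA hg.le, ← hG, Nat.add_mod]
        have : wt g (L + 1) A % N + G % N < N := by
          have := Nat.mod_le G N
          omega
        rw [Nat.mod_eq_of_lt this]
        have := Nat.mod_le G N
        omega)
      rw [ha A hA hw'] at e2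
      have e1' : R1 A = - (R2 A * a A) := by linarith
      have e2' : R1 (A + uv (some k1)) = - (R2 (A + uv (some k1)) * (om * a A)) := by linarith
      rw [e1', e2']
      ring
  have hz : ∀ A, R1 A * R2 A = 0 := by
    intro A
    obtain ⟨r1, hr1⟩ := Bq_line hR1 k1 A
    obtain ⟨r2, hr2⟩ := Bq_line hR2 k1 A
    have hl := line_zero r1 r2 om hom (fun x => by
      have := hP (A + x • uv (some k1))
      have e : A + x • uv (some k1) + uv (some k1) = A + (x + 1) • uv (some k1) := by
        rw [add_assoc, succ_nsmul]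
      rw [e, hr1, hr2, hr1, hr2] at this
      push_cast at this
      linarith)
    have := congrArg (fun p => Polynomial.eval 0 p) hl
    simp only [Polynomial.eval_mul, Polynomial.eval_zero] at this
    have h1' := hr1 0
    have h2' := hr2 0
    simp only [zero_smul, add_zero, Nat.cast_zero] at h1' h2'
    rw [h1', h2']
    exact this
  have hS : ∀ A, tdeg A ≤ L → (g none + wt g L A) % N < W → R1 A = 0 ∧ R2 A = 0 := by
    intro A hA hw
    rw [← wt_succ' g L A hA] at hw
    have e := h A (by omega) hw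
    rcases mul_eq_zero.mp (hz A) with h0 | h0
    · rw [h0, zero_add] at e
      exact ⟨h0, (mul_eq_zero.mp e).resolve_right (ha0 A (by omega))⟩
    · rw [h0, zero_mul, add_zero] at e
      exact ⟨e, h0⟩
  exact ⟨zero_of_windowW M n m N W L (g none) s hM g hw2 hnm hL R1
      (Bq_mono (by omega) hR1) fun A hA hw => (hS A hA hw).1,
    zero_of_windowW M n m N W L (g none) s hM g hw2 hnm hL R2
      (Bq_mono (by omega) hR2) fun A hA hw => (hS A hA hw).2⟩

end Pool.Agent.Lib.AbcZQ
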