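import Mathlib
import Pool.Agent.Lib.AbcZ.Core
import Pool.Agent.Lib.AbcZQ.IndepQ

/-!
# The core inequality, multi-scale version

As `AbcZ/Core.lean`, with the property `WalkP` in place of a single walk.
-/

namespace Pool.Agent.Lib.AbcZQ

open Finset Pool.Agent.Lib.AbcZ

theorem coreW {K : Type} [Fintype K] [DecidableEq K] (M n m N W L s : ℕ) (hM : M.Prime)
    (g : Option K → ℕ) (k1 : K) (hg : g none < g (some k1))
    (hw1 : WalkP M N m (W - (g (some k1) - g none)) s g) (hw2 : WalkP M N m W s g)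
    (N2 : ℕ) (hn : N + N2 + N2 ≤ n)
    (hnm : n ≤ m * M) (hL : n + s * M ≤ L) (hWN : W ≤ N) (a : (K → ℕ) → ℤ) (om : ℚ)
    (hom : om ≠ 1) (ha0 : ∀ A, a A ≠ 0)
    (ha : ∀ A, tdeg A ≤ L → wt g (L + 1) A % N + (g (some k1) - g none) < W →
      (a (A + uv (some k1)) : ℚ) = om * a A)
    (p : ℕ) (y : Option K → ZMod (p ^ N)) (hy : IsUnit (y none))
    (t : K → ZMod (p ^ N)) (ht : ∀ x, y (some x) = y none * (1 + p * t x)) (V : ZMod (p ^ N))
    (hcong : ∀ A : K → ℕ, tdeg A ≤ L + 1 → wt g (L + 1) A % N < W →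
      (a A : ZMod (p ^ N)) = V * (y none ^ (L + 1 - tdeg A) * ∏ x, y (some x) ^ A x))
    (Ba : ℕ) (hBa : ∀ A : K → ℕ, tdeg A ≤ L + 1 → wt g (L + 1) A % N < W →
      |a A| ≤ (Ba : ℤ)) :
    (p ^ N) ^ (ix K N2).card ≤ ((ix K (N + N2)).card + (ix K N2).card).factorial *
      (2 ^ (L + 1)) ^ (ix K (N + N2)).card * (2 ^ (L + 1) * Ba) ^ (ix K N2).card := by
  classical
  set S : Finset (K → ℕ) := (ix K (L + 2)).filter fun A => wt g (L + 1) A % N < W with hS
  have memS : ∀ A : K → ℕ, A ∈ S ↔ tdeg A ≤ L + 1 ∧ wt g (L + 1) A % N < W := by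
    intro A
    rw [hS, mem_filter, mem_ix]
    constructor
    · exact fun h => ⟨by omega, h.2⟩
    · exact fun h => ⟨by omega, h.2⟩
  have hexp : ∀ α : K → ℕ, tdeg α < N2 → ∃ lam : (K → ℕ) → ℤ, ∀ A : K → ℕ, tdeg A ≤ L + 1 →
      (bin A α : ZMod (p ^ N)) * (V * (y none ^ (L + 1 - tdeg A) * ∏ x, y (some x) ^ A x)) =
        ∑ β ∈ ix K (N + N2), (lam β : ZMod (p ^ N)) * bin A β :=
    fun α hα => expand p N (L + 1) N2 y hy t ht V α hα
  choose! lam hlam using hexp
  have hdet := det_bound (ρ1 := {β // β ∈ ix K (N + N2)}) (ρ2 := {α // α ∈ ix K N2})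
    (S := {A // A ∈ S}) (fun β A => (bin A.1 β.1 : ℤ)) (fun α A => (bin A.1 α.1 : ℤ) * a A.1)
    (fun α β => lam α.1 β.1) (p ^ N) (2 ^ (L + 1)) (2 ^ (L + 1) * Ba)
    (by
      intro α A
      obtain ⟨hA1, hA2⟩ := (memS A.1).mp A.2
      have h3 := hlam α.1 (mem_ix.mp α.2) A.1 hA1
      rw [← hcong A.1 hA1 hA2] at h3
      have h4 : ((((bin A.1 α.1 : ℤ) * a A.1 - ∑ β : {β // β ∈ ix K (N + N2)},
          lam α.1 β.1 * (bin A.1 β.1 : ℤ) : ℤ)) : ZMod (p ^ N)) = 0 := by
        push_cast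
        rw [h3, sub_eq_zero]
        exact (sum_coe_sort (ix K (N + N2))
          (fun β => (lam α.1 β : ZMod (p ^ N)) * (bin A.1 β : ZMod (p ^ N)))).symm
      exact (ZMod.intCast_zmod_eq_zero_iff_dvd _ _).mp h4)
    (by
      intro β A
      obtain ⟨hA1, hA2⟩ := (memS A.1).mp A.2
      rw [abs_of_nonneg (Int.natCast_nonneg _)]
      exact_mod_cast (bin_le A.1 β.1).trans (Nat.pow_le_pow_right (by norm_num) hA1))
    (by
      intro α A
      obtain ⟨hA1, hA2⟩ := (memS A.1).mp A.2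
      rw [abs_mul, abs_of_nonneg (Int.natCast_nonneg _)]
      push_cast
      have h3 : (bin A.1 α.1 : ℤ) ≤ 2 ^ (L + 1) := by
        exact_mod_cast (bin_le A.1 α.1).trans (Nat.pow_le_pow_right (by norm_num) hA1)
      exact mul_le_mul h3 (hBa A.1 hA1 hA2) (abs_nonneg _) (by positivity))
    (by
      intro c d hcd
      set c' : (K → ℕ) → ℚ := fun β => if h : β ∈ ix K (N + N2) then c ⟨β, h⟩ else 0 with hc'
      set d' : (K → ℕ) → ℚ := fun α => if h : α ∈ ix K N2 then d ⟨α, h⟩ else 0 with hd'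
      have hcsum : ∀ A : K → ℕ, ∑ β : {β // β ∈ ix K (N + N2)}, c β * (bin A β.1 : ℚ) =
          ∑ β ∈ ix K (N + N2), c' β * (bin A β : ℚ) := by
        intro A
        rw [← sum_coe_sort (ix K (N + N2)) (fun β => c' β * (bin A β : ℚ))]
        refine sum_congr rfl fun β _ => ?_
        rw [hc']
        simp only [β.2, dif_pos]
      have hdsum : ∀ A : K → ℕ, ∑ α : {α // α ∈ ix K N2}, d α * (bin A α.1 : ℚ) =
          ∑ α ∈ ix K N2, d' α * (bin A α : ℚ) := by
        intro A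
        rw [← sum_coe_sort (ix K N2) (fun α => d' α * (bin A α : ℚ))]
        refine sum_congr rfl fun α _ => ?_
        rw [hd']
        simp only [α.2, dif_pos]
      have hind := indepW M n m N W L s hM g k1 hg hw1 hw2 (N + N2) N2 hn hnm hL hWN
        (fun A => (a A : ℚ)) om hom (fun A _ => by exact_mod_cast ha0 A) ha
        (fun A => ∑ β ∈ ix K (N + N2), c' β * (bin A β : ℚ))
        (fun A => ∑ α ∈ ix K N2, d' α * (bin A α : ℚ))
        (mem_Bq_iff.mpr ⟨c', fun _ => rfl⟩) (mem_Bq_iff.mpr ⟨d', fun _ => rfl⟩) (by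
          intro A hA1 hA2
          have h3 := hcd ⟨A, (memS A).mpr ⟨hA1, hA2⟩⟩
          push_cast at h3
          have h4 : ∑ α : {α // α ∈ ix K N2}, d α * ((bin A α.1 : ℚ) * (a A : ℚ)) =
              (∑ α : {α // α ∈ ix K N2}, d α * (bin A α.1 : ℚ)) * (a A : ℚ) := by
            rw [sum_mul]
            exact sum_congr rfl fun α _ => by ring
          rw [h4, hcsum, hdsum] at h3
          exact h3)
      have hc0 := bin_indep hind.1
      have hd0 := bin_indep hind.2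
      refine ⟨fun β => ?_, fun α => ?_⟩
      · have h3 := hc0 β.1 β.2
        rw [hc'] at h3
        simpa only [β.2, dif_pos] using h3
      · have h3 := hd0 α.1 α.2
        rw [hd'] at h3
        simpa only [α.2, dif_pos] using h3)
  simpa only [Fintype.card_coe] using hdet

end Pool.Agent.Lib.AbcZQ
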