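import Mathlib
import Pool.Agent.Lib.Pabc9.FromE
import Pool.Agent.Lib.AbcZQ.CoreQB

/-!
# Theorem S with explicit parameters, for two natural numbers
-/

namespace Pool.Agent.Lib.AbcZQ

open Finset Pool.Agent.AbcE Pool.Agent.Lib.AbcZ

theorem thmSexpZ (p N Z1 Z2 : ℕ) (s : ℤ) (hp : p.Prime) (h1 : 0 < Z1) (h2 : 0 < Z2)
    (hcop : Nat.Coprime Z1 Z2) (hs : s = 1 ∨ s = -1) (hne : (Z1 : ℤ) ≠ s * Z2)
    (hdvd : ((p ^ N : ℕ) : ℤ) ∣ (Z1 : ℤ) - s * Z2)
    (κ A δ Ls : ℝ) (hκ0 : 0 ≤ κ) (hκ : κ ≤ 1) (hA : 0 ≤ A) (hN5 : 5 ≤ N)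
    (k m sc Q H G R N2 W om0 Lmax : ℕ) (hQ : 0 < Q) (hHp : H < p)
    (hHκ : Real.log H ≤ κ * Real.log p) (hR : 3 ≤ R)
    (hG : Q ^ (Z1 * Z2).primeFactors.card * (p - 1) * R < (G + 1) * H)
    (hlet : ∀ Γ : Finset ℕ, (∀ γ ∈ Γ, γ ≤ G) → R < Γ.card → ∃ M : ℕ, M.Prime ∧
      δ / 4 * N < M ∧ (M : ℝ) ≤ δ * N ∧ ∃ g : Option (Fin (k + 1)) → ℕ, (∀ x, g x ∈ Γ) ∧
        (∀ c ∈ Γ, g none ≤ c ∧ c ≤ g (some 0)) ∧ ∀ om, om0 ≤ om → WalkP M N m om sc g)
    (hm : ((N : ℝ) + 2 * N2) ≤ m * (δ / 4 * N))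
    (hW : om0 + G ≤ W) (hWN : W ≤ N) (hN2 : 0 < N2)
    (hLmax : ((N : ℝ) + 2 * N2) + sc * (δ * N) + 1 ≤ Lmax)
    (hLs : ∑ r ∈ (Z1 * Z2).primeFactors, Real.log (r : ℝ) ≤ Ls)
    (hLsQ : Ls ≤ Q * (1 / 8 * Real.log p))
    (hZ1 : Real.log Z1 ≤ A * (N * Real.log p)) (hZ2 : Real.log Z2 ≤ A * (N * Real.log p))
    (hfin : ((((N : ℝ) + N2) / N2) ^ (k + 1) + 1) *
        (Real.log 2 + (k + 1) * Real.log (N + N2) + Lmax * Real.log 2) +
      (Lmax * (κ * Real.log p) + 2 * W * A * Real.log p + (2 * Lmax / Q + 1) * Ls) <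
      N * Real.log p) : False := by
  have hNpos : 0 < N := by omega
  -- primes
  set S := (Z1 * Z2).primeFactors with hS
  have hS1 : Z1.primeFactors ⊆ S := Nat.primeFactors_mono (Dvd.intro _ rfl) (by positivity)
  have hS2 : Z2.primeFactors ⊆ S := Nat.primeFactors_mono (Dvd.intro_left _ rfl) (by positivity)
  have hSp : ∀ r ∈ S, r.Prime := fun r hr => Nat.prime_of_mem_primeFactors hr
  have hz : ∀ r, Z1.factorization r = 0 ∨ Z2.factorization r = 0 := by
    intro r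
    by_contra hc
    push Not at hc
    have a1 : r ∈ Z1.primeFactors := by
      rw [← Nat.support_factorization, Finsupp.mem_support_iff]; exact hc.1
    have a2 : r ∈ Z2.primeFactors := by
      rw [← Nat.support_factorization, Finsupp.mem_support_iff]; exact hc.2
    exact Finset.disjoint_left.1 (Nat.Coprime.disjoint_primeFactors hcop) a1 a2
  set e : {r // r ∈ S} → ℤ := fun r => (Z1.factorization r : ℤ) - Z2.factorization r with he
  have hpos : ∀ r, (e r).toNat = Z1.factorization r := by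
    intro r
    rcases hz r with h | h <;> simp only [he] <;> omega
  have hneg : ∀ r, (-e r).toNat = Z2.factorization r := by
    intro r
    rcases hz r with h | h <;> simp only [he] <;> omega
  have hposP : posP (fun r : {r // r ∈ S} => (r : ℕ)) e = Z1 := by
    unfold posP
    simp only [hpos]
    exact Pool.Agent.Lib.Pabc9.prod_pow_eq h1.ne' hS1
  have hnegP : negP (fun r : {r // r ∈ S} => (r : ℕ)) e = Z2 := by
    unfold negP
    simp only [hneg]
    exact Pool.Agent.Lib.Pabc9.prod_pow_eq h2.ne' hS2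
  have hpdvd : (p : ℤ) ∣ (Z1 : ℤ) - s * Z2 := by
    refine dvd_trans ?_ hdvd
    exact Int.natCast_dvd_natCast.2 (dvd_pow_self p hNpos.ne')
  have hs2 : s * s = 1 := by rcases hs with h | h <;> rw [h] <;> norm_num
  have hcopM : ∀ r : {r // r ∈ S}, (r : ℕ).Coprime p := by
    rintro ⟨r, hr⟩
    have hrp := hSp r hr
    simp only
    rw [Nat.coprime_primes hrp hp]
    rintro rfl
    have hr12 : r ∣ Z1 * Z2 := Nat.dvd_of_mem_primeFactors hr
    rcases (Nat.Prime.dvd_mul hrp).1 hr12 with h' | h'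
    · have h3 : (r : ℤ) ∣ s * (Z2 : ℤ) := by
        have := dvd_sub (Int.natCast_dvd_natCast.2 h') hpdvd
        simpa using this
      have h4 : (r : ℤ) ∣ (Z2 : ℤ) := by
        have h5 := h3.mul_left s
        rw [← mul_assoc, hs2, one_mul] at h5
        exact h5
      have h2' := Int.natCast_dvd_natCast.1 h4
      exact Nat.not_coprime_of_dvd_of_dvd hrp.one_lt h' h2' hcop
    · have h3 : (r : ℤ) ∣ (Z1 : ℤ) := by
        have := dvd_add hpdvd ((Int.natCast_dvd_natCast.2 h').mul_left s)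
        simpa using this
      have h1' := Int.natCast_dvd_natCast.1 h3
      exact Nat.not_coprime_of_dvd_of_dvd hrp.one_lt h1' h' hcop
  refine thmSexpQ (ι := {r // r ∈ S}) (fun r => (r : ℕ)) (fun r => hSp r r.2)
    Subtype.val_injective e p N hp hcopM s hs (by rw [hposP, hnegP]; exact hne)
    (by rw [hposP, hnegP]; exact hdvd) κ A δ Ls hκ0 hκ hA hN5
    k m sc Q H G R N2 W om0 Lmax hQ hHp hHκ hR (by rw [Fintype.card_coe]; exact hG) hlet hm hW hWN
    hN2 hLmax ?_ hLsQ (by rw [hposP]; exact hZ1) (by rw [hnegP]; exact hZ2) hfin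
  rw [Finset.sum_coe_sort S (fun r : ℕ => Real.log (r : ℝ))]
  exact hLs

end Pool.Agent.Lib.AbcZQ
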