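import Mathlib

/-!
# Theorem S with an arbitrary modulus, and the Ridout form: the statements
-/

namespace Pool.Agent.Lib.AbcZQ

open Finset

/-- **Theorem S**, explicit: modulus a power `p ^ u` of any number `p ≥ 2`. -/
def ThmSqD (C0 : ℕ) : Prop := ∀ (A ν T : ℝ) (Q p u Z1 Z2 : ℕ) (s : ℤ), 1 ≤ A → 0 < ν → ν ≤ 1 / 2 →
  2 ≤ p → 0 < Z1 → 0 < Z2 → Nat.Coprime Z1 Z2 → (s = 1 ∨ s = -1) → (Z1 : ℤ) ≠ s * Z2 →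
  ((p ^ u : ℕ) : ℤ) ∣ (Z1 : ℤ) - s * Z2 → Real.log Z1 ≤ A * (u * Real.log p) →
  Real.log Z2 ≤ A * (u * Real.log p) → ∏ q ∈ (Z1 * Z2).primeFactors, (q : ℝ) ≤ T →
  (p : ℝ) ≤ T → 200 * Real.log T ≤ Q * (ν * Real.log p) →
  C0 / ν * (1 + Real.log (A / ν)) ^ 3 ≤ Real.log (Real.log p) →
  (u : ℝ) ≤ ((C0 * A / ν) ^ C0 * (Q : ℝ) ^ ((Z1 * Z2).primeFactors.card + 1) * (p : ℝ) ^ ν) ^ 2

/-- The Ridout form, explicit. -/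
def RidoutQ (C : ℝ) : Prop := ∀ ε δ : ℝ, 0 < ε → ε ≤ 1 → 0 < δ → δ ≤ 1 →
  ∀ (Z1 Z2 D : ℕ) (s : ℤ), 0 < Z1 → 0 < Z2 → Nat.Coprime Z1 Z2 → (s = 1 ∨ s = -1) →
    (Z1 : ℤ) ≠ s * Z2 → 0 < D → (D : ℤ) ∣ (Z1 : ℤ) - s * Z2 →
    Real.log D ≤ δ * Real.log (max Z1 Z2 : ℕ) +
      Real.exp (Real.exp (C / ε * (1 + Real.log (1 / (ε * δ))) ^ 3)) *
        ((∏ p ∈ (Z1 * Z2 * D).primeFactors, p : ℕ) : ℝ) ^ ε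

end Pool.Agent.Lib.AbcZQ
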