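import Mathlib
import Pool.Agent.Lib.AbcH.MeanF
import Pool.Agent.Lib.AbcO.Struct

/-!
# The quantitative form of Theorem S: the statements
-/

namespace Pool.Agent.Lib.AbcZQ

open Finset Pool.Agent.Lib.Pabc2 Pool.Agent.Lib.AbcH Pool.Agent.Lib.AbcO

/-- **Theorem S**, explicit: modulus a power of one prime. -/
def ThmSq (C0 : ℕ) : Prop := ∀ (A ν T : ℝ) (Q p u Z1 Z2 : ℕ) (s : ℤ), 1 ≤ A → 0 < ν → ν ≤ 1 / 2 →
  p.Prime → 0 < Z1 → 0 < Z2 → Nat.Coprime Z1 Z2 → (s = 1 ∨ s = -1) → (Z1 : ℤ) ≠ s * Z2 →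
  ((p ^ u : ℕ) : ℤ) ∣ (Z1 : ℤ) - s * Z2 → Real.log Z1 ≤ A * (u * Real.log p) →
  Real.log Z2 ≤ A * (u * Real.log p) → ∏ q ∈ (Z1 * Z2).primeFactors, (q : ℝ) ≤ T →
  (p : ℝ) ≤ T → 200 * Real.log T ≤ Q * (ν * Real.log p) →
  C0 / ν * (1 + Real.log (A / ν)) ^ 3 ≤ Real.log (Real.log p) →
  (u : ℝ) ≤ ((C0 * A / ν) ^ C0 * (Q : ℝ) ^ ((Z1 * Z2).primeFactors.card + 1) * (p : ℝ) ^ ν) ^ 2

/-- The light part, explicit: the primes of `S` carry almost all of the member `l`, or the triple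
is short. -/
def LightQ (C1 : ℝ) : Prop := ∀ (δ η : ℝ), 0 < δ → δ ≤ 1 → 0 < η → η ≤ 1 →
  ∀ (r : ℕ) (S : Finset ℕ) (P : ℝ) (t : ℕ × ℕ) (l : Fin 3), 0 < r → 1 ≤ P →
    IsT t → (N t).primeFactors ⊆ r.primeFactors →
    (∀ p ∈ r.primeFactors, p ∉ S → (p : ℝ) ≤ P) → 1000 ≤ ht t →
    δ * ht t < ∑ p ∈ (N t).primeFactors \ S, ((comp t l).factorization p : ℝ) * Real.log p →
    ht t ≤ Real.exp (Real.exp (C1 / η * (1 + Real.log (1 / (δ * η))))) * (r : ℝ) ^ (3 * η) * P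

/-- The bound for all exponents, explicit. -/
def AllEps (C : ℝ) : Prop := ∀ ε : ℝ, 0 < ε → ε ≤ 1 → ∀ a b c : ℕ, AbcTriple a b c →
  Real.log c ≤ Real.exp (Real.exp (C / ε * (1 + Real.log (1 / ε)) ^ 3)) *
    (rad (a * b * c) : ℝ) ^ ε

end Pool.Agent.Lib.AbcZQ
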