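import Mathlib
import Pool.Agent.Lib.AbcH.Main3
import Pool.Agent.Lib.AbcF.NearCount

/-!
# Theorem E3 with an explicit constant
-/

namespace Pool.Agent.Lib.AbcZQ

open Finset Pool.Agent.AbcE Pool.Agent.Lib.AbcH

/-- A constant to the number of primes is a small power of the product. -/
theorem pow_card_q (C η : ℝ) (hC : 1 ≤ C) (hη : 0 < η) (S : Finset ℕ) (hS : ∀ p ∈ S, p.Prime) :
    C ^ S.card ≤ C ^ ⌈C ^ (1 / η)⌉₊ * (∏ p ∈ S, (p : ℝ)) ^ η := by
  classical
  set L : ℕ := ⌈C ^ (1 / η)⌉₊ with hL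
  have h1 : (S.filter (fun p => p < L)).card ≤ L := by
    calc (S.filter (fun p => p < L)).card ≤ (Finset.range L).card := by
          apply Finset.card_le_card
          intro p hp
          exact Finset.mem_range.mpr (Finset.mem_filter.mp hp).2
      _ = L := Finset.card_range L
  have h2 : C ^ (S.filter (fun p => ¬ p < L)).card ≤ (∏ p ∈ S, (p : ℝ)) ^ η := by
    have e1 : C ^ (S.filter (fun p => ¬ p < L)).card =
        ∏ _p ∈ S.filter (fun p => ¬ p < L), C := by
      rw [Finset.prod_const]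
    have e2 : (∏ p ∈ S, (p : ℝ)) ^ η = ∏ p ∈ S, (p : ℝ) ^ η := by
      rw [← Real.finsetProd_rpow]
      intro p _
      positivity
    rw [e1, e2]
    have e3 : ∏ _p ∈ S.filter (fun p => ¬ p < L), C ≤
        ∏ p ∈ S.filter (fun p => ¬ p < L), (p : ℝ) ^ η := by
      apply Finset.prod_le_prod (fun _ _ => by linarith)
      intro p hp
      have hpL : L ≤ p := not_lt.mp (Finset.mem_filter.mp hp).2
      have hp1 : C ^ (1 / η) ≤ p := (Nat.le_ceil _).trans (by exact_mod_cast hpL)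
      have hC0 : 0 ≤ C := by linarith
      calc C = (C ^ (1 / η)) ^ η := by
            rw [← Real.rpow_mul hC0, one_div_mul_cancel hη.ne', Real.rpow_one]
        _ ≤ (p : ℝ) ^ η := Real.rpow_le_rpow (by positivity) hp1 hη.le
    refine e3.trans ?_
    apply Finset.prod_le_prod_of_subset_of_one_le (Finset.filter_subset _ _)
    · intro p _
      positivity
    · intro p hp _
      apply Real.one_le_rpow _ hη.le
      exact_mod_cast (hS p hp).one_lt.le
  have h3 : S.card = (S.filter (fun p => p < L)).card + (S.filter (fun p => ¬ p < L)).card :=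
    (Finset.card_filter_add_card_filter_not _).symm
  rw [h3, pow_add]
  exact mul_le_mul (pow_le_pow_right₀ hC h1) h2 (by positivity) (by positivity)


/-- The size of the constant. -/
theorem const_bound {A η A' Q : ℝ} (hA : 1 ≤ A) (hη : 0 < η) (hη1 : η ≤ 1) (hA'1 : 1 ≤ A')
    (hA'2 : A' ≤ 2 * A) (hQ2 : 2 ≤ Q) (hQ : Q ≤ 120002 * A' ^ 2 / η + 3) :
    10 ^ 9 * A' ^ 3 * Real.exp (60001 * A' ^ 2) * Q ^ ⌈Q ^ (1 / (η / 2))⌉₊ ≤
      Real.exp (Real.exp (57 / η * (1 + Real.log (A / η)))) := by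
  have hA0 : 0 < A := by linarith
  have hA'0 : 0 < A' := by linarith
  have hQ0 : 0 < Q := by linarith
  have hi1 : 1 ≤ 1 / η := by
    rw [le_div_iff₀ hη]
    linarith
  have hA2 : A' ^ 2 ≤ 4 * A ^ 2 := by nlinarith
  have hlA : 0 ≤ Real.log A := Real.log_nonneg hA
  have hlη : 0 ≤ Real.log (1 / η) := Real.log_nonneg hi1
  have hAη : Real.log (A / η) = Real.log A + Real.log (1 / η) := by
    rw [div_eq_mul_one_div, Real.log_mul hA0.ne' (by positivity)]
  set L : ℝ := 1 + Real.log (A / η) with hL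
  have hL1 : 1 ≤ L := by
    rw [hL, hAη]
    linarith
  have h14 : (500000 : ℝ) ≤ Real.exp 14 := by
    have h7 := Real.exp_one_gt_d9
    have h8 : Real.exp 14 = Real.exp 1 ^ 14 := by
      rw [← Real.exp_nat_mul]
      norm_num
    rw [h8]
    have h9 : (2.7 : ℝ) ^ 14 ≤ Real.exp 1 ^ 14 := by
      apply pow_le_pow_left₀ (by norm_num)
      linarith
    refine le_trans ?_ h9
    norm_num
  -- `log Q`
  have hQ' : Q ≤ 500000 * (A ^ 2 * (1 / η)) := by
    have h1 : 120002 * A' ^ 2 / η ≤ 480008 * (A ^ 2 * (1 / η)) := by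
      rw [div_eq_mul_one_div]
      nlinarith [mul_le_mul_of_nonneg_right hA2 (by positivity : (0 : ℝ) ≤ 1 / η)]
    have h2 : 1 ≤ A ^ 2 * (1 / η) := one_le_mul_of_one_le_of_one_le (one_le_pow₀ hA) hi1
    linarith
  have hlQ : Real.log Q ≤ 14 * L := by
    have h1 : Real.log Q ≤ Real.log 500000 + (2 * Real.log A + Real.log (1 / η)) := by
      have h2 : Real.log (500000 * (A ^ 2 * (1 / η))) =
          Real.log 500000 + (2 * Real.log A + Real.log (1 / η)) := by
        rw [Real.log_mul (by norm_num) (by positivity), Real.log_mul (by positivity) (by positivity),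
          Real.log_pow]
        push_cast
        ring
      rw [← h2]
      exact Real.log_le_log hQ0 hQ'
    have h5 : Real.log (500000 : ℝ) ≤ 14 := by
      have := Real.log_le_log (by norm_num) h14
      rwa [Real.log_exp] at this
    rw [hAη] at hL
    linarith
  -- the logarithm of the second factor
  have hlogQ0 : 0 ≤ Real.log Q := Real.log_nonneg (by linarith)
  have hceil : ((⌈Q ^ (1 / (η / 2))⌉₊ : ℕ) : ℝ) ≤ 2 * Q ^ (2 / η) := by
    have h1 := (Nat.ceil_lt_add_one (Real.rpow_nonneg hQ0.le (1 / (η / 2)))).le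
    have h2 : 1 / (η / 2) = 2 / η := by field_simp
    rw [h2] at h1 ⊢
    have h3 : (1 : ℝ) ≤ Q ^ (2 / η) := Real.one_le_rpow (by linarith) (by positivity)
    linarith
  have hX : Q ^ (2 / η) * (Q * Q) ≤ Real.exp (56 / η * L) := by
    have h1 : Q ^ (2 / η) * (Q * Q) = Real.exp ((2 / η + 2) * Real.log Q) := by
      rw [add_mul, Real.exp_add, Real.rpow_def_of_pos hQ0]
      congr 1
      · congr 1
        ring
      · rw [two_mul, Real.exp_add, Real.exp_log hQ0]
    rw [h1]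
    apply Real.exp_le_exp.2
    have h2 : 2 / η + 2 ≤ 4 / η := by
      have h3 : 2 / η = 2 * (1 / η) := by ring
      have h4 : 4 / η = 4 * (1 / η) := by ring
      linarith
    calc (2 / η + 2) * Real.log Q ≤ (4 / η) * (14 * L) := by gcongr
      _ = _ := by ring
  have hl2 : Real.log (Q ^ ⌈Q ^ (1 / (η / 2))⌉₊) ≤ Real.exp (56 / η * L) := by
    rw [Real.log_pow]
    have h1 : Real.log Q ≤ Q := (Real.log_le_sub_one_of_pos hQ0).trans (by linarith)
    have h2 : (0 : ℝ) < Q ^ (2 / η) := Real.rpow_pos_of_pos hQ0 _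
    calc ((⌈Q ^ (1 / (η / 2))⌉₊ : ℕ) : ℝ) * Real.log Q ≤ (2 * Q ^ (2 / η)) * Q := by gcongr
      _ ≤ Q ^ (2 / η) * (Q * Q) := by nlinarith [mul_pos h2 hQ0]
      _ ≤ _ := hX
  -- the logarithm of the first factor
  have hl1 : Real.log (10 ^ 9 * A' ^ 3 * Real.exp (60001 * A' ^ 2)) ≤ Real.exp (56 / η * L) := by
    have h1 : Real.log (10 ^ 9 * A' ^ 3 * Real.exp (60001 * A' ^ 2)) =
        9 * Real.log 10 + 3 * Real.log A' + 60001 * A' ^ 2 := by
      rw [Real.log_mul (by positivity) (by positivity), Real.log_mul (by norm_num) (by positivity),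
        Real.log_pow, Real.log_pow, Real.log_exp]
      push_cast
      ring
    rw [h1]
    have h2 : Real.log A' ≤ A' - 1 := Real.log_le_sub_one_of_pos hA'0
    have h3 : Real.log (10 : ℝ) ≤ 10 - 1 := Real.log_le_sub_one_of_pos (by norm_num)
    have h4 : 9 * Real.log 10 + 3 * Real.log A' + 60001 * A' ^ 2 ≤ 500000 * A ^ 2 := by
      nlinarith
    refine h4.trans ?_
    have h7 : A ^ 2 = Real.exp (2 * Real.log A) := by
      rw [two_mul, Real.exp_add, Real.exp_log hA0, sq]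
    have h8 : 14 + 2 * Real.log A ≤ 56 / η * L := by
      have h9 : 56 / η = 56 * (1 / η) := by ring
      have h10 : 56 * L ≤ 56 / η * L := by
        rw [h9]
        nlinarith
      rw [hAη] at hL
      linarith
    calc (500000 : ℝ) * A ^ 2 ≤ Real.exp 14 * Real.exp (2 * Real.log A) := by rw [← h7]; gcongr
      _ = Real.exp (14 + 2 * Real.log A) := (Real.exp_add _ _).symm
      _ ≤ _ := Real.exp_le_exp.2 h8
  have hpos1 : 0 < 10 ^ 9 * A' ^ 3 * Real.exp (60001 * A' ^ 2) := by positivity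
  have hpos2 : 0 < Q ^ ⌈Q ^ (1 / (η / 2))⌉₊ := by positivity
  rw [← Real.exp_log hpos1, ← Real.exp_log hpos2, ← Real.exp_add]
  apply Real.exp_le_exp.2
  have h1 : Real.exp (56 / η * L) + Real.exp (56 / η * L) ≤ Real.exp (57 / η * L) := by
    have h3 : (2 : ℝ) ≤ Real.exp (1 / η * L) := by
      have h5 := Real.add_one_le_exp (1 / η * L)
      have h6 : 1 ≤ 1 / η * L := one_le_mul_of_one_le_of_one_le hi1 hL1
      linarith
    have h4 : Real.exp (57 / η * L) = Real.exp (1 / η * L) * Real.exp (56 / η * L) := by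
      rw [← Real.exp_add]
      congr 1
      ring
    rw [h4]
    nlinarith [Real.exp_pos (56 / η * L)]
  linarith

/-- **Theorem E3** with an explicit constant. -/
theorem thmE3_q (A η : ℝ) (hA : 1 ≤ A) (hη : 0 < η) (hη1 : η ≤ 1) (Z1 Z2 M : ℕ)
    (h1 : 0 < Z1) (h2 : 0 < Z2) (hcop : Nat.Coprime Z1 Z2) (hM : 0 < M)
    (hdvd : (M : ℤ) ∣ (Z1 : ℤ) - Z2) (h4 : Real.log Z1 + Real.log Z2 ≤ A * Real.log M) :
    Real.log Z1 + Real.log Z2 ≤ Real.exp (Real.exp (57 / η * (1 + Real.log (A / η)))) *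
      (∏ p ∈ M.primeFactors, (p : ℝ)) * (∏ p ∈ (Z1 * Z2 * M).primeFactors, (p : ℝ)) ^ η := by
  set A' : ℕ := ⌈A⌉₊ with hA'def
  have hA' : A ≤ A' := Nat.le_ceil A
  have hA'2 : (A' : ℝ) ≤ 2 * A := by
    have := (Nat.ceil_lt_add_one (by linarith : (0 : ℝ) ≤ A)).le
    linarith
  have hA'1 : (1 : ℝ) ≤ A' := hA.trans hA'
  have hA'n : 1 ≤ A' := by exact_mod_cast hA'1
  set Q0 : ℕ := ⌈120002 * (A' : ℝ) ^ 2 / η⌉₊ with hQ0def
  have hQ0 : 120002 * (A' : ℝ) ^ 2 / η ≤ Q0 := Nat.le_ceil _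
  have hQ0u : (Q0 : ℝ) ≤ 120002 * (A' : ℝ) ^ 2 / η + 1 :=
    (Nat.ceil_lt_add_one (by positivity)).le
  set Q : ℕ := Q0 + 2 with hQ
  have hQ2 : 2 ≤ Q := by omega
  have hQR : 120002 * (A' : ℝ) ^ 2 / η ≤ Q := by
    refine hQ0.trans ?_
    rw [hQ]; push_cast; linarith
  have hQpos : (0 : ℝ) < Q := by
    have : (2 : ℝ) ≤ Q := by exact_mod_cast hQ2
    linarith
  have hQη : 60001 * (A' : ℝ) ^ 2 / Q ≤ η / 2 := by
    rw [div_le_iff₀ hη] at hQR
    rw [div_le_iff₀ hQpos]
    linarith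
  have hQ1 : (1 : ℝ) ≤ (Q : ℝ) := by
    have : (2 : ℝ) ≤ Q := by exact_mod_cast hQ2
    linarith
  set K2 : ℝ := (Q : ℝ) ^ ⌈(Q : ℝ) ^ (1 / (η / 2))⌉₊ with hK2def
  have hK2 : 1 ≤ K2 := one_le_pow₀ hQ1
  have hcard := pow_card_q (Q : ℝ) (η / 2) hQ1 (by positivity)
  set K1 : ℝ := 10 ^ 9 * (A' : ℝ) ^ 3 * Real.exp (60001 * (A' : ℝ) ^ 2) with hK1
  have hK10 : 0 < K1 := by positivity
  have hKK : K1 * K2 ≤ Real.exp (Real.exp (57 / η * (1 + Real.log (A / η)))) :=
    const_bound hA hη hη1 hA'1 hA'2 (Q := Q) (by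
      have : (2 : ℝ) ≤ Q := by exact_mod_cast hQ2
      exact this) (by
      rw [hQ]
      push_cast
      linarith)
  set S := (Z1 * Z2).primeFactors with hS
  set r : ℝ := ∏ p ∈ (Z1 * Z2 * M).primeFactors, (p : ℝ) with hr
  set R : ℝ := ∏ p ∈ M.primeFactors, (p : ℝ) with hR
  have hZ0 : Z1 * Z2 * M ≠ 0 := by positivity
  have hS1 : Z1.primeFactors ⊆ S := Nat.primeFactors_mono (Dvd.intro _ rfl) (by positivity)
  have hS2 : Z2.primeFactors ⊆ S := Nat.primeFactors_mono (Dvd.intro_left _ rfl) (by positivity)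
  have hSp : ∀ q ∈ S, q.Prime := fun q hq => Nat.prime_of_mem_primeFactors hq
  have hSr : S ⊆ (Z1 * Z2 * M).primeFactors := Nat.primeFactors_mono (Dvd.intro _ rfl) hZ0
  have hprodS : ∏ p ∈ S, (p : ℝ) ≤ r := by
    rw [hr, ← Nat.cast_prod, ← Nat.cast_prod]
    exact_mod_cast Finset.prod_le_prod_of_subset_of_one_le' hSr
      (fun q hq _ => (Nat.prime_of_mem_primeFactors hq).one_le)
  have hprodS1 : 1 ≤ ∏ p ∈ S, (p : ℝ) := by
    rw [← Nat.cast_prod]
    exact_mod_cast Nat.succ_le_of_lt (Finset.prod_pos fun q hq => (hSp q hq).pos)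
  have hr1 : 1 ≤ r := hprodS1.trans hprodS
  have hr0 : 0 < r := by linarith
  have hR0 : 0 ≤ R := Finset.prod_nonneg fun p _ => Nat.cast_nonneg p
  -- one of the two exponents vanishes
  have hz : ∀ q, Z1.factorization q = 0 ∨ Z2.factorization q = 0 := by
    intro q
    by_contra hcon
    push Not at hcon
    have a1 : q ∈ Z1.primeFactors := by
      rw [← Nat.support_factorization, Finsupp.mem_support_iff]; exact hcon.1
    have a2 : q ∈ Z2.primeFactors := by
      rw [← Nat.support_factorization, Finsupp.mem_support_iff]; exact hcon.2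
    exact Finset.disjoint_left.1 (Nat.Coprime.disjoint_primeFactors hcop) a1 a2
  set e : {q // q ∈ S} → ℤ := fun q => (Z1.factorization q : ℤ) - Z2.factorization q with he
  have hpos : ∀ q, (e q).toNat = Z1.factorization q := by
    intro q
    rcases hz q with h | h <;> simp only [he] <;> omega
  have hneg : ∀ q, (-e q).toNat = Z2.factorization q := by
    intro q
    rcases hz q with h | h <;> simp only [he] <;> omega
  have habs : ∀ q, |((e q : ℤ) : ℝ)| = (Z1.factorization q : ℝ) + Z2.factorization q := by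
    intro q
    simp only [he]
    rcases hz q with h | h
    · rw [h]
      push_cast
      rw [zero_sub, abs_neg, abs_of_nonneg (Nat.cast_nonneg _), zero_add]
    · rw [h]
      push_cast
      rw [sub_zero, abs_of_nonneg (Nat.cast_nonneg _), add_zero]
  have hsum : ∑ q : {q // q ∈ S}, |((e q : ℤ) : ℝ)| * Real.log (q : ℕ) =
      Real.log Z1 + Real.log Z2 := by
    simp only [habs, add_mul]
    rw [Finset.sum_add_distrib, Pool.Agent.Lib.Pabc9.sum_log_eq h1.ne' hS1 hSp,
      Pool.Agent.Lib.Pabc9.sum_log_eq h2.ne' hS2 hSp]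
  have hcopM : ∀ q : {q // q ∈ S}, (q : ℕ).Coprime M := by
    rintro ⟨q, hq⟩
    have hqp := hSp q hq
    rw [Nat.Prime.coprime_iff_not_dvd hqp]
    intro hqM
    have hqd : (q : ℤ) ∣ (Z1 : ℤ) - Z2 := (Int.natCast_dvd_natCast.2 hqM).trans hdvd
    have hq12 : q ∣ Z1 * Z2 := Nat.dvd_of_mem_primeFactors hq
    rcases (Nat.Prime.dvd_mul hqp).1 hq12 with h' | h'
    · have : (q : ℤ) ∣ (Z2 : ℤ) := by
        have := dvd_sub (Int.natCast_dvd_natCast.2 h') hqd
        simpa using this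
      have h2' := Int.natCast_dvd_natCast.1 this
      exact Nat.not_coprime_of_dvd_of_dvd hqp.one_lt h' h2' hcop
    · have : (q : ℤ) ∣ (Z1 : ℤ) := by
        have := dvd_add hqd (Int.natCast_dvd_natCast.2 h')
        simpa using this
      have h1' := Int.natCast_dvd_natCast.1 this
      exact Nat.not_coprime_of_dvd_of_dvd hqp.one_lt h1' h' hcop
  -- the parameter `X`
  set Λ : ℝ := Real.log r with hΛ
  have hΛ0 : 0 ≤ Λ := Real.log_nonneg hr1
  set X : ℝ := 1 + Λ / Q with hX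
  have hX1 : 1 ≤ X := by
    have : 0 ≤ Λ / Q := by positivity
    linarith
  have hlogS : ∑ q : {q // q ∈ S}, Real.log (q : ℕ) ≤ Q * X := by
    rw [Finset.sum_coe_sort S (fun q : ℕ => Real.log (q : ℕ))]
    have h5 : ∑ q ∈ S, Real.log (q : ℝ) = Real.log (∏ p ∈ S, (p : ℝ)) := by
      rw [Real.log_prod]
      intro q hq
      have := (hSp q hq).pos
      positivity
    have h6 : Real.log (∏ p ∈ S, (p : ℝ)) ≤ Λ := Real.log_le_log (by linarith) hprodS
    rw [h5]
    have h7 : Q * X = Q + Λ := by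
      rw [hX]
      field_simp
    linarith
  have key := theoremE3 (ι := {q // q ∈ S}) (fun q => (q : ℕ)) (fun q => hSp q q.2)
    Subtype.val_injective e M hM hcopM (by
      unfold posP negP
      simp only [hpos, hneg]
      rw [Pool.Agent.Lib.Pabc9.prod_pow_eq h1.ne' hS1, Pool.Agent.Lib.Pabc9.prod_pow_eq h2.ne' hS2]
      exact hdvd) A' Q hA'n hQ2 X hX1 hlogS (by
      rw [hsum]
      refine h4.trans ?_
      have : 0 ≤ Real.log M := Real.log_natCast_nonneg M
      gcongr)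
  rw [hsum] at key
  refine key.trans ?_
  rw [Fintype.card_coe]
  push_cast
  rw [← hR]
  have b1 : X * Real.exp (60000 * (A' : ℝ) ^ 2 * X) ≤
      Real.exp (60001 * (A' : ℝ) ^ 2) * r ^ (η / 2) := by
    have hA2 : (1 : ℝ) ≤ (A' : ℝ) ^ 2 := one_le_pow₀ hA'1
    have c1 : X ≤ Real.exp ((A' : ℝ) ^ 2 * X) := by
      have h5 := Real.add_one_le_exp X
      have h6 : Real.exp X ≤ Real.exp ((A' : ℝ) ^ 2 * X) := by
        apply Real.exp_le_exp.2
        have : 0 ≤ X := by linarith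
        nlinarith
      linarith
    have c2 : r ^ (η / 2) = Real.exp (Λ * (η / 2)) := by
      rw [hΛ, Real.rpow_def_of_pos hr0]
    rw [c2, ← Real.exp_add]
    calc X * Real.exp (60000 * (A' : ℝ) ^ 2 * X)
        ≤ Real.exp ((A' : ℝ) ^ 2 * X) * Real.exp (60000 * (A' : ℝ) ^ 2 * X) := by gcongr
      _ = Real.exp (60001 * (A' : ℝ) ^ 2 * X) := by
          rw [← Real.exp_add]
          congr 1
          ring
      _ ≤ _ := by
          apply Real.exp_le_exp.2
          have h7 : 60001 * (A' : ℝ) ^ 2 * X = 60001 * (A' : ℝ) ^ 2 +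
              Λ * (60001 * (A' : ℝ) ^ 2 / Q) := by
            rw [hX]
            field_simp
          rw [h7]
          gcongr
  have b2 : (Q : ℝ) ^ S.card ≤ K2 * r ^ (η / 2) := by
    refine (hcard S fun p hp => hSp p hp).trans ?_
    have : (∏ p ∈ S, (p : ℝ)) ^ (η / 2) ≤ r ^ (η / 2) :=
      Real.rpow_le_rpow (by linarith) hprodS (by positivity)
    gcongr
  have b3 : r ^ (η / 2) * r ^ (η / 2) = r ^ η := by
    rw [← Real.rpow_add hr0]
    congr 1
    ring
  have hX0 : 0 < X := by linarith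
  have hrη : 0 < r ^ (η / 2) := Real.rpow_pos_of_pos hr0 _
  calc 10 ^ 9 * (A' : ℝ) ^ 3 * X * R * Real.exp (60000 * (A' : ℝ) ^ 2 * X) * (Q : ℝ) ^ S.card
      = 10 ^ 9 * (A' : ℝ) ^ 3 * R * (X * Real.exp (60000 * (A' : ℝ) ^ 2 * X)) *
        (Q : ℝ) ^ S.card := by ring
    _ ≤ 10 ^ 9 * (A' : ℝ) ^ 3 * R * (Real.exp (60001 * (A' : ℝ) ^ 2) * r ^ (η / 2)) *
        (K2 * r ^ (η / 2)) := by gcongr
    _ = K1 * K2 * R * (r ^ (η / 2) * r ^ (η / 2)) := by rw [hK1]; ring
    _ = K1 * K2 * R * r ^ η := by rw [b3]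
    _ ≤ _ := by
        have : 0 < r ^ η := Real.rpow_pos_of_pos hr0 _
        gcongr

end Pool.Agent.Lib.AbcZQ
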