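import Pool.Agent.Lib.AbcZQ.DefsQ
import Pool.Agent.Lib.AbcQ.Member

/-!
# From the explicit Theorem S and the explicit light part to every triple
-/

namespace Pool.Agent.Lib.AbcZQ

open Finset Pool.Agent.Lib.Pabc2 Pool.Agent.Lib.AbcH Pool.Agent.Lib.AbcO Pool.Agent.Lib.AbcQ

/-- products of double exponentials -/
theorem de_mul {B x y c d : ℝ} (hB : 1 ≤ B) (hc : 0 ≤ c) (hd : 0 ≤ d) (hy : 0 ≤ y)
    (hx : x ≤ Real.exp (Real.exp (c * B))) (hyd : y ≤ Real.exp (Real.exp (d * B))) :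
    x * y ≤ Real.exp (Real.exp ((c + d + 1) * B)) := by
  have h1 : x * y ≤ Real.exp (Real.exp (c * B)) * Real.exp (Real.exp (d * B)) :=
    mul_le_mul hx hyd hy (Real.exp_pos _).le
  refine h1.trans ?_
  rw [← Real.exp_add]
  apply Real.exp_le_exp.mpr
  have hcB : 0 ≤ c * B := by positivity
  have hdB : 0 ≤ d * B := by positivity
  have h2 : Real.exp (c * B) ≤ Real.exp (c * B + d * B) := Real.exp_le_exp.mpr (by linarith)
  have h3 : Real.exp (d * B) ≤ Real.exp (c * B + d * B) := Real.exp_le_exp.mpr (by linarith)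
  have h4 : (2 : ℝ) ≤ Real.exp B := by
    have := Real.add_one_le_exp B
    linarith
  have h5 : Real.exp ((c + d + 1) * B) = Real.exp (c * B + d * B) * Real.exp B := by
    rw [← Real.exp_add]
    congr 1
    ring
  rw [h5]
  have h6 : 0 < Real.exp (c * B + d * B) := Real.exp_pos _
  nlinarith

theorem de_mono {B c d : ℝ} (hB : 0 ≤ B) (h : c ≤ d) :
    Real.exp (Real.exp (c * B)) ≤ Real.exp (Real.exp (d * B)) :=
  Real.exp_le_exp.mpr (Real.exp_le_exp.mpr (mul_le_mul_of_nonneg_right h hB))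

/-- `x ≤ c B` is at most the double exponential -/
theorem de_of_le {B x c : ℝ} (h : x ≤ c * B) : x ≤ Real.exp (Real.exp (c * B)) := by
  have h1 := Real.add_one_le_exp (c * B)
  have h2 := Real.add_one_le_exp (Real.exp (c * B))
  linarith

/-- few primes are small -/
theorem pow_card_le (S : Finset ℕ) (hS : ∀ q ∈ S, q.Prime) (Q r η : ℝ) (hQ : 1 ≤ Q) (hη : 0 < η)
    (hr : ∏ q ∈ S, (q : ℝ) ≤ r) : Q ^ S.card ≤ Q ^ ⌈Q ^ (1 / η)⌉₊ * r ^ η := by
  classical
  set X : ℝ := Q ^ (1 / η) with hX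
  have hX1 : 1 ≤ X := Real.one_le_rpow hQ (by positivity)
  set S1 := S.filter (fun q : ℕ => (q : ℝ) ≤ X) with hS1
  set S2 := S.filter (fun q : ℕ => ¬ (q : ℝ) ≤ X) with hS2
  have hcard : S.card = S1.card + S2.card := (Finset.card_filter_add_card_filter_not _).symm
  have h1 : S1.card ≤ ⌈X⌉₊ := by
    have : S1 ⊆ Finset.Icc 1 ⌈X⌉₊ := by
      intro q hq
      rw [hS1, Finset.mem_filter] at hq
      rw [Finset.mem_Icc]
      refine ⟨(hS q hq.1).one_lt.le, ?_⟩
      have : (q : ℝ) ≤ ⌈X⌉₊ := hq.2.trans (Nat.le_ceil X)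
      exact_mod_cast this
    have h2 := Finset.card_le_card this
    rw [Nat.card_Icc] at h2
    omega
  have hQ0 : 0 < Q := by linarith
  have h2 : Q ^ S2.card ≤ (∏ q ∈ S2, (q : ℝ)) ^ η := by
    rw [← Real.finsetProd_rpow _ _ (fun q _ => Nat.cast_nonneg q), ← Finset.prod_const]
    refine Finset.prod_le_prod (fun _ _ => hQ0.le) fun q hq => ?_
    rw [hS2, Finset.mem_filter] at hq
    have h3 : X ≤ q := (not_le.mp hq.2).le
    have h4 : Q = X ^ η := by
      rw [hX, ← Real.rpow_mul hQ0.le, one_div, inv_mul_cancel₀ hη.ne', Real.rpow_one]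
    rw [h4]
    exact Real.rpow_le_rpow (by linarith) h3 hη.le
  have h3 : ∏ q ∈ S2, (q : ℝ) ≤ ∏ q ∈ S, (q : ℝ) := by
    refine Finset.prod_le_prod_of_subset_of_one_le (Finset.filter_subset _ _)
      (fun q _ => Nat.cast_nonneg q) fun q hq _ => ?_
    exact_mod_cast (hS q hq).one_lt.le
  have h4 : (∏ q ∈ S2, (q : ℝ)) ^ η ≤ r ^ η :=
    Real.rpow_le_rpow (Finset.prod_nonneg fun _ _ => Nat.cast_nonneg _) (h3.trans hr) hη.le
  rw [hcard, pow_add]
  exact mul_le_mul (pow_le_pow_right₀ hQ h1) (h2.trans h4) (by positivity) (by positivity)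


theorem exp_nat_ge (n : ℕ) : (2.718 : ℝ) ^ n ≤ Real.exp n := by
  rw [← Real.exp_one_pow]
  have := Real.exp_one_gt_d9
  exact pow_le_pow_left₀ (by norm_num) (by linarith) n

/-- logarithms of the parameters -/
theorem log_par {ε x E a : ℝ} (hε : 0 < ε) (hε1 : ε ≤ 1) (hx : 0 < x) (hE : E ≤ Real.exp a)
    (ha : 1 ≤ a) (hE0 : 0 < E) (h : x ≤ E * (1 / ε) ^ 2) :
    1 + Real.log x ≤ (1 + a) * (1 + Real.log (1 / ε)) := by
  have h1 : 1 ≤ 1 / ε := by rw [le_div_iff₀ hε]; linarith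
  have h0 : 0 ≤ Real.log (1 / ε) := Real.log_nonneg h1
  have h2 : Real.log x ≤ Real.log E + 2 * Real.log (1 / ε) := by
    have := Real.log_le_log hx h
    rw [Real.log_mul hE0.ne' (by positivity), Real.log_pow] at this
    push_cast at this
    exact this
  have h3 : Real.log E ≤ a := by
    rw [← Real.log_exp a]
    exact Real.log_le_log hE0 hE
  nlinarith

/-- the constant factor of the main case -/
theorem x1_le {ε B : ℝ} (C0 k : ℕ) (hC0 : (1 : ℝ) ≤ C0) (hε : 0 < ε) (hk : (0 : ℝ) < k)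
    (hku : (k : ℝ) ≤ 9 * (1 / ε)) (hB1 : 1 ≤ B) (hBie : 1 / ε ≤ B) :
    (C0 * (2 * (k : ℝ)) / (ε / 8)) ^ C0 ≤ Real.exp (Real.exp ((144 * (C0 : ℝ) ^ 2 + 2) * B)) := by
  have hie0 : 0 < 1 / ε := by positivity
  have h5 : 0 < C0 * (2 * (k : ℝ)) / (ε / 8) := by positivity
  have h6 : C0 * (2 * (k : ℝ)) / (ε / 8) ≤ 144 * C0 * (1 / ε) ^ 2 := by
    have h8 : C0 * (2 * (k : ℝ)) / (ε / 8) = 16 * C0 * k * (1 / ε) := by
      field_simp; norm_num
    rw [h8]
    calc 16 * C0 * (k : ℝ) * (1 / ε) ≤ 16 * C0 * (9 * (1 / ε)) * (1 / ε) := by gcongr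
      _ = 144 * C0 * (1 / ε) ^ 2 := by ring
  rw [← Real.exp_log (pow_pos h5 C0)]
  apply Real.exp_le_exp.mpr
  rw [Real.log_pow]
  have h7 : Real.log (C0 * (2 * (k : ℝ)) / (ε / 8)) ≤ 144 * C0 * B ^ 2 := by
    have h8 := Real.log_le_sub_one_of_pos h5
    have h9 : (1 / ε) ^ 2 ≤ B ^ 2 := pow_le_pow_left₀ hie0.le hBie 2
    have h10 : 144 * C0 * (1 / ε) ^ 2 ≤ 144 * C0 * B ^ 2 :=
      mul_le_mul_of_nonneg_left h9 (by positivity)
    linarith
  have h8 : B ≤ Real.exp B := by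
    have := Real.add_one_le_exp B
    linarith
  have h9 : 144 * (C0 : ℝ) ^ 2 ≤ Real.exp (144 * (C0 : ℝ) ^ 2 * B) := by
    have h10 := Real.add_one_le_exp (144 * (C0 : ℝ) ^ 2 * B)
    have h11 : 144 * (C0 : ℝ) ^ 2 ≤ 144 * (C0 : ℝ) ^ 2 * B :=
      le_mul_of_one_le_right (by positivity) hB1
    linarith
  calc (C0 : ℝ) * Real.log (C0 * (2 * (k : ℝ)) / (ε / 8)) ≤ C0 * (144 * C0 * B ^ 2) :=
        mul_le_mul_of_nonneg_left h7 (by positivity)
    _ = 144 * (C0 : ℝ) ^ 2 * (B * B) := by ring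
    _ ≤ Real.exp (144 * (C0 : ℝ) ^ 2 * B) * (Real.exp B * Real.exp B) := by
        gcongr
    _ = Real.exp ((144 * (C0 : ℝ) ^ 2 + 2) * B) := by
        rw [← Real.exp_add, ← Real.exp_add]
        congr 1
        ring

/-- the box factor of the main case -/
theorem x2_le {ε B L : ℝ} (Q : ℕ) (hε : 0 < ε) (hL : L = 1 + Real.log (1 / ε))
    (hL0 : 0 ≤ Real.log (1 / ε)) (hQ1 : (1 : ℝ) ≤ Q) (hQu : (Q : ℝ) ≤ 16001 * (1 / ε) ^ 2)
    (hB1 : 1 ≤ B) (hBL : L ≤ B) (hBLe : 1 / ε * L ≤ B) :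
    (Q : ℝ) * (Q : ℝ) ^ ⌈(Q : ℝ) ^ (1 / (ε / 8))⌉₊ ≤ Real.exp (Real.exp (92 * B)) := by
  have hQ0 : (0 : ℝ) < Q := by linarith
  have he10 : (16001 : ℝ) ≤ Real.exp 10 := by
    have := exp_nat_ge 10
    norm_num at this
    linarith
  have h5' : Real.log Q ≤ 10 * L := by
    have h6 : Real.log Q ≤ Real.log 16001 + 2 * Real.log (1 / ε) := by
      have := Real.log_le_log hQ0 hQu
      rw [Real.log_mul (by norm_num) (by positivity), Real.log_pow] at this
      push_cast at this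
      exact this
    have h7 : Real.log 16001 ≤ 10 := by
      rw [← Real.log_exp 10]
      exact Real.log_le_log (by norm_num) he10
    rw [hL]
    linarith
  have hlQ0 : 0 ≤ Real.log Q := Real.log_nonneg hQ1
  have h6 : (Q : ℝ) ^ (1 / (ε / 8)) ≤ Real.exp (80 * B) := by
    rw [Real.rpow_def_of_pos hQ0]
    apply Real.exp_le_exp.mpr
    have h7 : 1 / (ε / 8) = 8 * (1 / ε) := by field_simp
    rw [h7]
    calc Real.log Q * (8 * (1 / ε)) ≤ 10 * L * (8 * (1 / ε)) :=
          mul_le_mul_of_nonneg_right h5' (by positivity)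
      _ = 80 * (1 / ε * L) := by ring
      _ ≤ 80 * B := by linarith
  have h7 : ((⌈(Q : ℝ) ^ (1 / (ε / 8))⌉₊ : ℕ) : ℝ) + 1 ≤ Real.exp (82 * B) := by
    have h8 : ((⌈(Q : ℝ) ^ (1 / (ε / 8))⌉₊ : ℕ) : ℝ) < (Q : ℝ) ^ (1 / (ε / 8)) + 1 :=
      Nat.ceil_lt_add_one (by positivity)
    have h9 : Real.exp (82 * B) = Real.exp (80 * B) * Real.exp (2 * B) := by
      rw [← Real.exp_add]
      congr 1
      ring
    have h10 : (3 : ℝ) ≤ Real.exp (2 * B) := by
      have := Real.add_one_le_exp (2 * B)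
      linarith
    have h11 : (1 : ℝ) ≤ Real.exp (80 * B) := Real.one_le_exp (by positivity)
    have h12 : Real.exp (80 * B) * 3 ≤ Real.exp (80 * B) * Real.exp (2 * B) :=
      mul_le_mul_of_nonneg_left h10 (by positivity)
    rw [h9]
    linarith
  have hX20 : 0 < (Q : ℝ) * (Q : ℝ) ^ ⌈(Q : ℝ) ^ (1 / (ε / 8))⌉₊ := by positivity
  rw [← Real.exp_log hX20]
  apply Real.exp_le_exp.mpr
  have h8 : Real.log ((Q : ℝ) * (Q : ℝ) ^ ⌈(Q : ℝ) ^ (1 / (ε / 8))⌉₊) =
      Real.log Q * (((⌈(Q : ℝ) ^ (1 / (ε / 8))⌉₊ : ℕ) : ℝ) + 1) := by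
    rw [Real.log_mul hQ0.ne' (by positivity), Real.log_pow]
    ring
  rw [h8]
  have h9 : 10 * L ≤ Real.exp (10 * B) := by
    have := Real.add_one_le_exp (10 * B)
    linarith
  calc Real.log Q * (((⌈(Q : ℝ) ^ (1 / (ε / 8))⌉₊ : ℕ) : ℝ) + 1)
      ≤ Real.exp (10 * B) * Real.exp (82 * B) :=
        mul_le_mul (h5'.trans h9) h7 (by positivity) (by positivity)
    _ = Real.exp (92 * B) := by
        rw [← Real.exp_add]
        congr 1
        ring

/-- **All triples**, composed of primes of `r`, explicit. -/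
theorem pairQ (C0 : ℕ) (C1 : ℝ) (h0 : 1 ≤ C0) (h1 : 1 ≤ C1) (hS : ThmSq C0) (hL : LightQ C1)
    (ε : ℝ) (hε : 0 < ε) (hε1 : ε ≤ 1) (r : ℕ) (t : ℕ × ℕ) (hr : 0 < r) (hT : IsT t)
    (hsub : (N t).primeFactors ⊆ r.primeFactors) :
    ht t ≤ Real.exp (Real.exp ((288 * (C0 : ℝ) ^ 2 + 1728 * C0 + 60 * C1 + 300) / ε *
      (1 + Real.log (1 / ε)) ^ 3)) * (r : ℝ) ^ ε := by
  classical
  have hC0 : (1 : ℝ) ≤ C0 := by exact_mod_cast h0
  set L : ℝ := 1 + Real.log (1 / ε) with hL'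
  have hie : 1 ≤ 1 / ε := by rw [le_div_iff₀ hε]; linarith
  have hie0 : 0 < 1 / ε := by positivity
  have hL1 : 1 ≤ L := by
    have := Real.log_nonneg hie
    linarith
  have hL3 : L ≤ L ^ 3 := by
    have : L ^ 1 ≤ L ^ 3 := pow_le_pow_right₀ hL1 (by norm_num)
    simpa using this
  have hL31 : 1 ≤ L ^ 3 := hL1.trans hL3
  set B : ℝ := 1 / ε * L ^ 3 with hB
  have hBie : 1 / ε ≤ B := le_mul_of_one_le_right hie0.le hL31
  have hBL3 : L ^ 3 ≤ B := le_mul_of_one_le_left (by positivity) hie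
  have hB1 : 1 ≤ B := hie.trans hBie
  have hB0 : 0 ≤ B := by linarith
  have hBL : L ≤ B := hL3.trans hBL3
  have hBLe : 1 / ε * L ≤ B := by
    rw [hB]
    exact mul_le_mul_of_nonneg_left hL3 hie0.le
  set Cc : ℝ := 288 * (C0 : ℝ) ^ 2 + 1728 * C0 + 60 * C1 + 300 with hCc
  have hC02 : (1 : ℝ) ≤ (C0 : ℝ) ^ 2 := one_le_pow₀ hC0
  have hgoal : Cc / ε * L ^ 3 = Cc * B := by
    rw [hB]
    ring
  rw [hgoal]
  -- the parameters
  set η : ℝ := ε / 8 with hη
  have hη0 : 0 < η := by positivity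
  have hη1 : η ≤ 1 / 8 := by linarith
  set k : ℕ := ⌈1 / η⌉₊ with hk
  have hkl : 8 / ε ≤ k := by
    have h2 : 1 / η ≤ k := Nat.le_ceil _
    have h3 : 1 / η = 8 / ε := by rw [hη]; field_simp
    linarith
  have hku : (k : ℝ) ≤ 9 / ε := by
    have h2 : (k : ℝ) < 1 / η + 1 := Nat.ceil_lt_add_one (by positivity)
    have h3 : 1 / η = 8 / ε := by rw [hη]; field_simp
    have h4 : (9 : ℝ) / ε = 8 / ε + 1 / ε := by ring
    linarith
  have hk8 : (8 : ℝ) ≤ k := by
    have : (8 : ℝ) ≤ 8 / ε := by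
      rw [le_div_iff₀ hε]
      linarith
    linarith
  have hkη : 1 ≤ η * k := by
    have h2 : 1 / η ≤ k := Nat.le_ceil _
    rw [div_le_iff₀ hη0] at h2
    linarith
  set θ : ℝ := 1 / ((k : ℝ) + 1) with hθ
  have hθ0 : 0 < θ := by positivity
  have hθη : θ ≤ η := by
    rw [hθ, div_le_iff₀ (by positivity), mul_add]
    linarith
  have hh := ht_pos hT
  have hr1 : (1 : ℝ) ≤ r := by exact_mod_cast hr
  have hr0 : (0 : ℝ) < r := by linarith
  have q2 : (1 : ℝ) ≤ (r : ℝ) ^ ε := Real.one_le_rpow hr1 hε.le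
  have hpow : ∀ x : ℝ, x ≤ 8 * η → (r : ℝ) ^ x ≤ (r : ℝ) ^ ε := fun x hx =>
    Real.rpow_le_rpow_of_exponent_le hr1 (by rw [hη] at hx; linarith)
  -- numbers
  have hk0 : (0 : ℝ) < k := by linarith
  have he4 : (32 : ℝ) ≤ Real.exp 4 := by
    have := exp_nat_ge 4
    norm_num at this
    linarith
  have he5 : (144 : ℝ) ≤ Real.exp 5 := by
    have := exp_nat_ge 5
    norm_num at this
    linarith
  have he6 : (288 : ℝ) ≤ Real.exp 6 := by
    have := exp_nat_ge 6
    norm_num at this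
    linarith
  have he7 : (1000 : ℝ) ≤ Real.exp 7 := by
    have := exp_nat_ge 7
    norm_num at this
    linarith
  have he2 : (7 : ℝ) ≤ Real.exp 2 := by
    have := exp_nat_ge 2
    norm_num at this
    linarith
  -- a bound with a smaller constant is enough
  have hfin : ∀ (c x : ℝ), c ≤ Cc → x ≤ 8 * η →
      ht t ≤ Real.exp (Real.exp (c * B)) * (r : ℝ) ^ x →
      ht t ≤ Real.exp (Real.exp (Cc * B)) * (r : ℝ) ^ ε := by
    intro c x hc hx h
    exact h.trans (mul_le_mul (de_mono hB0 hc) (hpow x hx) (by positivity) (by positivity))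
  by_cases hb1 : 1000 ≤ ht t
  swap
  · push Not at hb1
    refine hfin 2 0 (by linarith) (by linarith) ?_
    rw [Real.rpow_zero, mul_one]
    have h2 : Real.exp 2 ≤ Real.exp (2 * B) := Real.exp_le_exp.mpr (by linarith)
    have h3 : Real.exp 7 ≤ Real.exp (Real.exp (2 * B)) := Real.exp_le_exp.mpr (by linarith)
    linarith
  set P : ℝ := (r : ℝ) ^ θ with hP
  have hP1 : 1 ≤ P := Real.one_le_rpow hr1 hθ0.le
  set S : Finset ℕ := r.primeFactors.filter (fun p : ℕ => P < p) with hS'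
  have hScard : S.card ≤ k := card_large r k hr
  have hSP : ∀ p ∈ r.primeFactors, p ∉ S → (p : ℝ) ≤ P := by
    intro p hp hpS
    by_contra hc
    push Not at hc
    exact hpS (Finset.mem_filter.2 ⟨hp, hc⟩)
  by_cases hout : 1 / 4 * ht t <
      ∑ p ∈ (N t).primeFactors \ S, ((comp t 2).factorization p : ℝ) * Real.log p
  · -- the light part
    have h4 := hL (1 / 4) η (by norm_num) (by norm_num) hη0 (by linarith) r S P t 2 hr hP1 hT hsub
      hSP hb1 hout
    have h5 : C1 / η * (1 + Real.log (1 / (1 / 4 * η))) ≤ 40 * C1 * B := by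
      have h6 : 1 + Real.log (1 / (1 / 4 * η)) ≤ (1 + 4) * L := by
        refine log_par hε hε1 (by positivity) he4 (by norm_num) (by norm_num) ?_
        have : 1 / (1 / 4 * η) = 32 * (1 / ε) := by rw [hη]; field_simp; norm_num
        rw [this]
        exact mul_le_mul_of_nonneg_left (le_self_pow₀ hie two_ne_zero) (by norm_num)
      have h7 : C1 / η = 8 * C1 * (1 / ε) := by rw [hη]; field_simp
      rw [h7]
      calc 8 * C1 * (1 / ε) * (1 + Real.log (1 / (1 / 4 * η)))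
          ≤ 8 * C1 * (1 / ε) * ((1 + 4) * L) := mul_le_mul_of_nonneg_left h6 (by positivity)
        _ = 40 * C1 * (1 / ε * L) := by ring
        _ ≤ 40 * C1 * B := mul_le_mul_of_nonneg_left hBLe (by positivity)
    refine hfin (40 * C1) (3 * η + θ) (by linarith) (by linarith) (h4.trans ?_)
    rw [hP, mul_assoc, ← Real.rpow_add hr0]
    exact mul_le_mul_of_nonneg_right (Real.exp_le_exp.mpr (Real.exp_le_exp.mpr h5))
      (by positivity)
  push Not at hout
  have hlogc : Real.log (comp t 2 : ℝ) = ht t := by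
    have : comp t 2 = t.1 + t.2 := rfl
    rw [this]
    unfold ht
    push_cast
    rfl
  have hin : 1 / 2 * ht t <
      ∑ p ∈ (N t).primeFactors ∩ S, ((comp t 2).factorization p : ℝ) * Real.log p := by
    have h4 := log_member hT 2
    rw [← Finset.sum_inter_add_sum_sdiff (N t).primeFactors S, hlogc] at h4
    linarith
  -- one prime carries a fixed proportion
  obtain ⟨p, hpS, hpm⟩ : ∃ p ∈ (N t).primeFactors ∩ S,
      ht t / (2 * k) < ((comp t 2).factorization p : ℝ) * Real.log p := by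
    by_contra hc
    push Not at hc
    have h4 := Finset.sum_le_sum hc
    rw [Finset.sum_const, nsmul_eq_mul] at h4
    have h5 : (((N t).primeFactors ∩ S).card : ℝ) ≤ k := by
      exact_mod_cast (Finset.card_le_card Finset.inter_subset_right).trans hScard
    have h6 : (((N t).primeFactors ∩ S).card : ℝ) * (ht t / (2 * k)) ≤ k * (ht t / (2 * k)) :=
      mul_le_mul_of_nonneg_right h5 (by positivity)
    have h7 : (k : ℝ) * (ht t / (2 * k)) = 1 / 2 * ht t := by
      field_simp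
    linarith
  have hpN := (Finset.mem_inter.1 hpS).1
  have hpr : p.Prime := Nat.prime_of_mem_primeFactors hpN
  have hPp : P < (p : ℝ) := (Finset.mem_filter.1 (Finset.mem_inter.1 hpS).2).2
  have hPr : p ∣ r := Nat.dvd_of_mem_primeFactors (hsub hpN)
  have hPle : (p : ℝ) ≤ r := by exact_mod_cast Nat.le_of_dvd hr hPr
  have hp2 : (2 : ℝ) ≤ (p : ℝ) := by exact_mod_cast hpr.two_le
  have hp1 : (1 : ℝ) ≤ (p : ℝ) := by linarith
  have hp0 : (0 : ℝ) < (p : ℝ) := by linarith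
  have hlp0 : 0 < Real.log p := Real.log_pos (by linarith)
  set u : ℕ := (comp t 2).factorization p with hu
  have hmass : ht t ≤ 2 * k * ((u : ℝ) * Real.log p) := by
    have h4 := hpm.le
    rw [div_le_iff₀ (by positivity)] at h4
    linarith
  have hlogA : 1 + Real.log (2 * k / η) ≤ 6 * L := by
    have h2 : 1 + Real.log (2 * k / η) ≤ (1 + 5) * L := by
      refine log_par hε hε1 (by positivity) he5 (by norm_num) (by norm_num) ?_
      have h3 : 2 * (k : ℝ) / η = 16 * k * (1 / ε) := by rw [hη]; field_simp; norm_num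
      rw [h3]
      have h4 : (9 : ℝ) / ε = 9 * (1 / ε) := by ring
      rw [h4] at hku
      calc 16 * (k : ℝ) * (1 / ε) ≤ 16 * (9 * (1 / ε)) * (1 / ε) := by gcongr
        _ = 144 * (1 / ε) ^ 2 := by ring
    linarith
  by_cases hc1 : C0 / η * (1 + Real.log (2 * k / η)) ^ 3 ≤ Real.log (Real.log p)
  swap
  · -- a small prime
    push Not at hc1
    have h2 : C0 / η * (1 + Real.log (2 * k / η)) ^ 3 ≤ 1728 * C0 * B := by
      have h3 : (C0 : ℝ) / η = 8 * C0 * (1 / ε) := by rw [hη]; field_simp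
      have h4 : 0 ≤ 1 + Real.log (2 * k / η) := by
        have : 0 ≤ Real.log (2 * k / η) := by
          apply Real.log_nonneg
          rw [le_div_iff₀ hη0]
          linarith
        linarith
      rw [h3]
      calc 8 * C0 * (1 / ε) * (1 + Real.log (2 * k / η)) ^ 3
          ≤ 8 * C0 * (1 / ε) * (6 * L) ^ 3 :=
            mul_le_mul_of_nonneg_left (pow_le_pow_left₀ h4 hlogA 3) (by positivity)
        _ = 1728 * C0 * (1 / ε * L ^ 3) := by ring
    have h3 : (p : ℝ) ≤ Real.exp (Real.exp (1728 * C0 * B)) := by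
      rw [← Real.exp_log hp0, ← Real.exp_log hlp0]
      exact Real.exp_le_exp.mpr (Real.exp_le_exp.mpr (by linarith))
    have h4 := hL (1 / (4 * k)) η (by positivity) (by
        rw [div_le_iff₀ (by positivity)]
        linarith) hη0 (by linarith) r (r.primeFactors.erase p) p t 2 hr hp1 hT hsub (by
        intro q hq hqS
        have : q = p := by
          by_contra hne
          exact hqS (Finset.mem_erase.2 ⟨hne, hq⟩)
        rw [this]) hb1 (by
        have h5 : ((comp t 2).factorization p : ℝ) * Real.log p ≤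
            ∑ q ∈ (N t).primeFactors \ r.primeFactors.erase p,
              ((comp t 2).factorization q : ℝ) * Real.log q := by
          refine Finset.single_le_sum (f := fun q : ℕ =>
            ((comp t 2).factorization q : ℝ) * Real.log q) (fun q _ => ?_) ?_
          · exact mul_nonneg (Nat.cast_nonneg _) (Real.log_natCast_nonneg _)
          · rw [Finset.mem_sdiff]
            exact ⟨hpN, fun h => (Finset.mem_erase.1 h).1 rfl⟩
        have h6 : 1 / (4 * (k : ℝ)) * ht t = ht t / (2 * k) / 2 := by field_simp; ring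
        have h7 : 0 < ht t / (2 * k) := by positivity
        rw [h6]
        linarith)
    have h5 : C1 / η * (1 + Real.log (1 / (1 / (4 * k) * η))) ≤ 56 * C1 * B := by
      have h6 : 1 + Real.log (1 / (1 / (4 * k) * η)) ≤ (1 + 6) * L := by
        refine log_par hε hε1 (by positivity) he6 (by norm_num) (by norm_num) ?_
        have h8 : 1 / (1 / (4 * (k : ℝ)) * η) = 32 * k * (1 / ε) := by
          rw [hη]; field_simp; norm_num
        rw [h8]
        have h9 : (9 : ℝ) / ε = 9 * (1 / ε) := by ring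
        rw [h9] at hku
        calc 32 * (k : ℝ) * (1 / ε) ≤ 32 * (9 * (1 / ε)) * (1 / ε) := by gcongr
          _ = 288 * (1 / ε) ^ 2 := by ring
      have h7 : C1 / η = 8 * C1 * (1 / ε) := by rw [hη]; field_simp
      rw [h7]
      calc 8 * C1 * (1 / ε) * (1 + Real.log (1 / (1 / (4 * k) * η)))
          ≤ 8 * C1 * (1 / ε) * ((1 + 6) * L) := mul_le_mul_of_nonneg_left h6 (by positivity)
        _ = 56 * C1 * (1 / ε * L) := by ring
        _ ≤ 56 * C1 * B := mul_le_mul_of_nonneg_left hBLe (by positivity)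
    have h6 : Real.exp (Real.exp (C1 / η * (1 + Real.log (1 / (1 / (4 * k) * η))))) ≤
        Real.exp (Real.exp (56 * C1 * B)) := Real.exp_le_exp.mpr (Real.exp_le_exp.mpr h5)
    have h7 := de_mul (c := 56 * C1) (d := 1728 * C0) hB1 (by positivity) (by positivity) hp0.le
      h6 h3
    refine hfin (56 * C1 + 1728 * C0 + 1) (3 * η) (by linarith) (by linarith) (h4.trans ?_)
    calc Real.exp (Real.exp (C1 / η * (1 + Real.log (1 / (1 / (4 * k) * η))))) * (r : ℝ) ^ (3 * η)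
          * (p : ℝ) = (Real.exp (Real.exp (C1 / η * (1 + Real.log (1 / (1 / (4 * k) * η))))) *
            (p : ℝ)) * (r : ℝ) ^ (3 * η) := by ring
      _ ≤ _ := mul_le_mul_of_nonneg_right h7 (by positivity)
  · -- the main case
    obtain ⟨s, hs, hne, hdvd⟩ := signs hT (l := 2) (l1 := 0) (l2 := 1) (by decide) (by decide)
      (by decide)
    have hlogle : ∀ m : Fin 3, Real.log (comp t m : ℝ) ≤ 2 * k * ((u : ℝ) * Real.log p) :=
      fun m => (log_comp_le hT m).trans hmass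
    set Q : ℕ := ⌈200 * ((k : ℝ) + 1) / η⌉₊ with hQ
    have hQl : 200 * ((k : ℝ) + 1) / η ≤ Q := Nat.le_ceil _
    have hQ1 : (1 : ℝ) ≤ Q := by
      refine le_trans ?_ hQl
      rw [le_div_iff₀ hη0]
      linarith
    have hQu : (Q : ℝ) ≤ 16001 * (1 / ε) ^ 2 := by
      have h2 : (Q : ℝ) < 200 * ((k : ℝ) + 1) / η + 1 := Nat.ceil_lt_add_one (by positivity)
      have h3 : 200 * ((k : ℝ) + 1) / η = 1600 * ((k : ℝ) + 1) * (1 / ε) := by
        rw [hη]; field_simp; norm_num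
      have h4 : (9 : ℝ) / ε = 9 * (1 / ε) := by ring
      rw [h4] at hku
      have h5 : 1600 * ((k : ℝ) + 1) * (1 / ε) ≤ 1600 * (10 * (1 / ε)) * (1 / ε) := by
        gcongr
        linarith
      have h6 : 1 ≤ (1 / ε) ^ 2 := one_le_pow₀ hie
      have h7 : 1600 * (10 * (1 / ε)) * (1 / ε) = 16000 * (1 / ε) ^ 2 := by ring
      linarith
    have hlogr : 0 ≤ Real.log r := Real.log_nonneg hr1
    have hlogp : θ * Real.log r ≤ Real.log p := by
      have := Real.log_le_log (by positivity) hPp.le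
      rwa [hP, Real.log_rpow hr0] at this
    set V : Finset ℕ := (comp t 0 * comp t 1).primeFactors with hV
    have hVr : V ⊆ r.primeFactors := by
      intro q hq
      apply hsub
      have hq' := Nat.mem_primeFactors.1 hq
      refine Nat.mem_primeFactors.2 ⟨hq'.1, ?_, hT.N_ne⟩
      rcases (hq'.1.dvd_mul).1 hq'.2.1 with h | h
      · exact h.trans (comp_dvd_N t _)
      · exact h.trans (comp_dvd_N t _)
    have hVprod : ∏ q ∈ V, (q : ℝ) ≤ r := prod_primeFactors_le hr hVr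
    have h4 := hS (2 * k) η r Q p u (comp t 0) (comp t 1) s (by linarith) hη0 (by linarith) hpr
      (comp_pos hT _) (comp_pos hT _) (comp_cop hT (by decide)) hs hne
      ((Int.natCast_dvd_natCast.2 (Nat.ordProj_dvd _ _)).trans hdvd) (hlogle 0) (hlogle 1) hVprod
      hPle (by
        have h5 : 200 * ((k : ℝ) + 1) / η * (η * Real.log p) ≤ Q * (η * Real.log p) :=
          mul_le_mul_of_nonneg_right hQl (by positivity)
        have h6 : 200 * ((k : ℝ) + 1) / η * (η * Real.log p) = 200 * (((k : ℝ) + 1) * Real.log p) := by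
          field_simp
        have h7 : Real.log r ≤ ((k : ℝ) + 1) * Real.log p := by
          have h8 := mul_le_mul_of_nonneg_left hlogp (show (0 : ℝ) ≤ (k : ℝ) + 1 by positivity)
          have h9 : ((k : ℝ) + 1) * (θ * Real.log r) = Real.log r := by
            rw [hθ]; field_simp
          linarith
        linarith) hc1
    -- the pieces
    set R : ℝ := (r : ℝ) ^ η with hR
    have hR0 : 0 < R := by positivity
    have hpν : (p : ℝ) ^ η ≤ R := Real.rpow_le_rpow hp0.le hPle hη0.le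
    have hlp : Real.log p ≤ R / η :=
      (Real.log_le_log hp0 hPle).trans (Real.log_le_rpow_div hr0.le hη0)
    have hX1 : (C0 * (2 * (k : ℝ)) / η) ^ C0 ≤
        Real.exp (Real.exp ((144 * (C0 : ℝ) ^ 2 + 2) * B)) :=
      x1_le C0 k hC0 hε hk0 (hku.trans_eq (by ring)) hB1 hBie
    set X2 : ℝ := (Q : ℝ) * (Q : ℝ) ^ ⌈(Q : ℝ) ^ (1 / η)⌉₊ with hX2'
    have hX20 : 0 < X2 := by positivity
    have hX2 : X2 ≤ Real.exp (Real.exp (92 * B)) :=
      x2_le Q hε hL' (Real.log_nonneg hie) hQ1 hQu hB1 hBL hBLe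
    have hQV : (Q : ℝ) ^ (V.card + 1) ≤ X2 * R := by
      have h5 := pow_card_le V (fun q hq => Nat.prime_of_mem_primeFactors hq) Q r η hQ1 hη0 hVprod
      rw [pow_succ, hX2', hR]
      calc (Q : ℝ) ^ V.card * Q ≤ ((Q : ℝ) ^ ⌈(Q : ℝ) ^ (1 / η)⌉₊ * (r : ℝ) ^ η) * Q :=
            mul_le_mul_of_nonneg_right h5 (by positivity)
        _ = _ := by ring
    set X1 : ℝ := (C0 * (2 * (k : ℝ)) / η) ^ C0 with hX1'
    have hX10 : 0 < X1 := by positivity
    have h5 : (u : ℝ) ≤ (X1 * X2) * (X1 * X2) * (R * R * R * R) := by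
      calc (u : ℝ) ≤ (X1 * (Q : ℝ) ^ (V.card + 1) * (p : ℝ) ^ η) ^ 2 := h4
        _ ≤ (X1 * (X2 * R) * R) ^ 2 := by gcongr
        _ = _ := by ring
    have hk18 : 2 * (k : ℝ) ≤ 18 * B := by
      have h9 : (9 : ℝ) / ε = 9 * (1 / ε) := by ring
      rw [h9] at hku
      linarith
    have hη8 : 1 / η ≤ 8 * B := by
      have h7 : 1 / η = 8 * (1 / ε) := by rw [hη]; field_simp
      rw [h7]
      linarith
    have d1 := de_mul hB1 (by norm_num) (by norm_num) (by positivity) (de_of_le hk18)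
      (de_of_le hη8)
    have d2 := de_mul hB1 (by positivity) (by norm_num) hX20.le hX1 hX2
    have d3 := de_mul hB1 (by positivity) (by positivity) (by positivity) d2 d2
    have d4 := de_mul hB1 (by positivity) (by positivity) (by positivity) d1 d3
    refine hfin (18 + 8 + 1 + ((144 * (C0 : ℝ) ^ 2 + 2 + 92 + 1) +
      (144 * (C0 : ℝ) ^ 2 + 2 + 92 + 1) + 1) + 1) (η + η + η + η + η) ?_ (by linarith) ?_
    · linarith
    · calc ht t ≤ 2 * k * ((u : ℝ) * Real.log p) := hmass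
        _ ≤ 2 * k * (((X1 * X2) * (X1 * X2) * (R * R * R * R)) * (R / η)) := by gcongr
        _ = (2 * k * (1 / η) * ((X1 * X2) * (X1 * X2))) * (R * R * R * R * R) := by ring
        _ ≤ Real.exp (Real.exp ((18 + 8 + 1 + ((144 * (C0 : ℝ) ^ 2 + 2 + 92 + 1) +
              (144 * (C0 : ℝ) ^ 2 + 2 + 92 + 1) + 1) + 1) * B)) * (R * R * R * R * R) :=
            mul_le_mul_of_nonneg_right d4 (by positivity)
        _ = _ := by
            rw [Real.rpow_add hr0, Real.rpow_add hr0, Real.rpow_add hr0, Real.rpow_add hr0]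

/-- **Every abc-triple**, explicit. -/
theorem allEps_of (C0 : ℕ) (C1 : ℝ) (h0 : 1 ≤ C0) (h1 : 1 ≤ C1) (hS : ThmSq C0) (hL : LightQ C1) :
    ∃ C : ℝ, 1 ≤ C ∧ AllEps C := by
  refine ⟨288 * (C0 : ℝ) ^ 2 + 1728 * C0 + 60 * C1 + 300, ?_, ?_⟩
  · have : (0 : ℝ) ≤ C0 := Nat.cast_nonneg _
    nlinarith [sq_nonneg (C0 : ℝ)]
  intro ε hε hε1 a b c h
  have hc : 0 < c := by have := h.1; have := h.2.2.1; omega
  have hne : a * b * c ≠ 0 := by
    have := h.1
    have := h.2.1
    positivity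
  by_contra hcon
  push Not at hcon
  have hmem : (a, b, c) ∈ high (rad (a * b * c)) (Real.exp (Real.exp
      ((288 * (C0 : ℝ) ^ 2 + 1728 * C0 + 60 * C1 + 300) / ε * (1 + Real.log (1 / ε)) ^ 3)) *
        ((rad (a * b * c) : ℕ) : ℝ) ^ ε) := ⟨h, (rad_dvd_iff hne).1 dvd_rfl, hcon⟩
  obtain ⟨t1, t2, t3⟩ := toPair (rad_pos _) hmem
  have h3 := pairQ C0 C1 h0 h1 hS hL ε hε hε1 (rad (a * b * c)) _ (rad_pos _) t1 t2
  linarith

end Pool.Agent.Lib.AbcZQ
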