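import Pool.Agent.Lib.AbcZQ.UniM

/-!
# The choice of the letters

From a set of integers whose multiples by `M` are dense modulo `N` we choose the letters of `s`
chains at the scales `om, 2 om, …, 2 ^ (s - 1) om`, together with the smallest and the largest
element of the set.
-/

namespace Pool.Agent.Lib.AbcZQ

open Finset Pool.Agent.Lib.AbcZ

/-- a chain at the scale `W`, when the letter `a j` has its phase just above `j * W / (4 * D)` -/
theorem chain_of_grid {J : Type*} {N D W : ℕ} (hD : 0 < D) (hW : 8 * D ≤ W) (φ : J → ℕ)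
    (a : ℕ → J) (d : ℕ → ℕ) (hd : ∀ j, 8 * D * d j < W)
    (ha : ∀ j, j < 4 * D + 3 → φ (a j) ≡ j * W / (4 * D) + d j [MOD N]) :
    Nonempty (Chain N D W φ) := by
  set t : ℕ → ℕ := fun j => j * W / (4 * D) with ht
  have h4 : 0 < 4 * D := by omega
  have h1 : ∀ j, 4 * D * t j ≤ j * W := fun j => Nat.mul_div_le _ _
  have h2 : ∀ j, j * W < 4 * D * t j + 4 * D := fun j => by
    have := Nat.lt_mul_div_succ (j * W) h4
    rw [mul_add, mul_one] at this
    exact this
  have h3 : ∀ j, 2 * (4 * D * d j) < W := fun j => by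
    have := hd j
    have e : 2 * (4 * D * d j) = 8 * D * d j := by ring
    omega
  have hmono : ∀ j, t j + d j ≤ t (j + 1) := by
    intro j
    refine Nat.le_of_mul_le_mul_left ?_ h4
    have e1 := h1 j
    have e2 := h2 (j + 1)
    have e3 := h3 j
    have e4 : (j + 1) * W = j * W + W := by ring
    have e5 : 4 * D * (t j + d j) = 4 * D * t j + 4 * D * d j := by ring
    rw [e5]
    omega
  set p : ℕ → ℕ := fun j => t j + d j with hp
  have hpm : Monotone p := monotone_nat_of_le_succ fun j => (hmono j).trans (Nat.le_add_right _ _)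
  refine ⟨⟨a, fun j => p (j + 1) - p j, 4 * D + 2, ?_, ?_, ?_⟩⟩
  · intro j hj
    have e1 := ha j (by omega)
    have e2 := ha (j + 1) (by omega)
    have e3 : p j ≤ p (j + 1) := hpm (Nat.le_succ j)
    change φ (a (j + 1)) ≡ φ (a j) + (p (j + 1) - p j) [MOD N]
    refine e2.trans ?_
    have e4 := e1.add_right (p (j + 1) - p j)
    have e5 : j * W / (4 * D) + d j + (p (j + 1) - p j) = p (j + 1) := by
      change p j + (p (j + 1) - p j) = p (j + 1)
      omega
    rw [e5] at e4
    exact e4.symm
  · intro j _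
    have e1 := h1 (j + 1)
    have e2 := h2 j
    have e3 := h3 (j + 1)
    have e4 : (j + 1) * W = j * W + W := by ring
    have e5 : 4 * D * (p (j + 1) - p j) ≤ 4 * D * (t (j + 1) + d (j + 1)) - 4 * D * t j := by
      rw [Nat.mul_sub]
      have : 4 * D * t j ≤ 4 * D * p j := Nat.mul_le_mul_left _ (Nat.le_add_right _ _)
      have e6 : 4 * D * p (j + 1) = 4 * D * (t (j + 1) + d (j + 1)) := rfl
      omega
    have e7 : 4 * D * (t (j + 1) + d (j + 1)) = 4 * D * t (j + 1) + 4 * D * d (j + 1) := by ring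
    have e8 : 4 * D * (p (j + 1) - p j) = 2 * (2 * D * (p (j + 1) - p j)) := by ring
    rw [e7, e8] at e5
    change 2 * D * (p (j + 1) - p j) ≤ W
    omega
  · rw [Finset.sum_range_tsub hpm]
    refine Nat.le_of_mul_le_mul_left ?_ h4
    have e1 := h2 (4 * D + 2)
    have e2 := h3 0
    have e3 : (4 * D + 2) * W = 4 * D * W + 2 * W := by ring
    have e4 : t 0 = 0 := by rw [ht]; simp
    have e5 : 4 * D * (p (4 * D + 2) - p 0) = 4 * D * p (4 * D + 2) - 4 * D * p 0 :=
      Nat.mul_sub _ _ _
    have e6 : 4 * D * t (4 * D + 2) ≤ 4 * D * p (4 * D + 2) :=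
      Nat.mul_le_mul_left _ (Nat.le_add_right _ _)
    have e7 : p 0 = d 0 := by
      change t 0 + d 0 = d 0
      rw [e4, zero_add]
    rw [e5, e7]
    omega

/-- **The letters**: `none` is the smallest element, `some 0` the largest one, the other letters
form `s` chains of `4 * D + 3` letters. -/
theorem lettersQ (q N M D om s : ℕ) (hN : 0 < N) (hD : 0 < D) (hq : 8 * D * N ≤ q * om)
    (hom : 8 * D ≤ om) (hI : 2 * N ≤ 2 ^ s * om) (Gam : Finset ℕ) (hG : Gam.Nonempty)
    (hd : ∀ c < N, ∃ x ∈ Gam, q * ((M * x + (N - c)) % N) < N) :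
    ∃ g : Option (Fin (s * (4 * D + 3) + 1)) → ℕ, (∀ x, g x ∈ Gam) ∧
      (∀ c ∈ Gam, g none ≤ c ∧ c ≤ g (some 0)) ∧
      ∀ om', om ≤ om' → WalkP M N (D + 1) om' s g := by
  have hom0 : 0 < om := by omega
  have hq0 : 0 < q := by
    rcases Nat.eq_zero_or_pos q with h | h
    · rw [h, zero_mul] at hq
      have : 0 < 8 * D * N := by positivity
      omega
    · exact h
  choose y hyG hy using hd
  -- an element with phase just above `t`
  let z : ℕ → ℕ := fun t => y (t % N) (Nat.mod_lt t hN)
  let e : ℕ → ℕ := fun t => (M * z t + (N - t % N)) % N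
  have hz : ∀ t, z t ∈ Gam := fun t => hyG _ _
  have he : ∀ t, q * e t < N := fun t => hy _ _
  have hphase : ∀ t, M * z t ≡ t + e t [MOD N] := by
    intro t
    have h1 : t + e t ≡ t + (M * z t + (N - t % N)) [MOD N] := (Nat.mod_modEq _ _).add_left t
    have h2 : t + (M * z t + (N - t % N)) = M * z t + N * (t / N + 1) := by
      have h3 := Nat.div_add_mod t N
      have h4 := Nat.mod_lt t hN
      have h5 : N * (t / N + 1) = N * (t / N) + N := by ring
      omega
    rw [h2] at h1
    have h6 : M * z t + N * (t / N + 1) ≡ M * z t [MOD N] := by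
      unfold Nat.ModEq
      rw [Nat.add_mul_mod_self_left]
    exact (h1.trans h6).symm
  have he8 : ∀ t, 8 * D * e t < om := by
    intro t
    refine Nat.lt_of_mul_lt_mul_left (a := q) ?_
    have h1 := he t
    have h2 : 8 * D * (q * e t) < 8 * D * N := Nat.mul_lt_mul_of_pos_left h1 (by omega)
    have h3 : q * (8 * D * e t) = 8 * D * (q * e t) := by ring
    omega
  -- the letters
  let pos : Fin (s * (4 * D + 3)) → ℕ := fun m =>
    ((finProdFinEquiv.symm m).2 : ℕ) * (2 ^ ((finProdFinEquiv.symm m).1 : ℕ) * om) / (4 * D)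
  let g : Option (Fin (s * (4 * D + 3) + 1)) → ℕ := fun x =>
    Option.elim x (Gam.min' hG) (fun j => Fin.cases (Gam.max' hG) (fun m => z (pos m)) j)
  have hgn : g none = Gam.min' hG := rfl
  have hg0 : g (some 0) = Gam.max' hG := rfl
  have hgs : ∀ m, g (some (Fin.succ m)) = z (pos m) := fun m => rfl
  refine ⟨g, ?_, ?_, ?_⟩
  · intro x
    rcases x with _ | x
    · exact Gam.min'_mem hG
    · refine Fin.cases ?_ (fun j => ?_) x
      · exact Gam.max'_mem hG
      · rw [hgs]
        exact hz _
  · intro c hc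
    rw [hgn, hg0]
    exact ⟨Gam.min'_le c hc, Gam.le_max' c hc⟩
  · intro om' hom'
    have hch : ∀ i, i < s → Nonempty (Chain N D (2 ^ i * om) (fun x => M * g x)) := by
      intro i hi
      have hW : om ≤ 2 ^ i * om := Nat.le_mul_of_pos_left _ (by positivity)
      let a : ℕ → Option (Fin (s * (4 * D + 3) + 1)) := fun j =>
        if h : j < 4 * D + 3 then some (Fin.succ (finProdFinEquiv (⟨i, hi⟩, ⟨j, h⟩))) else none
      refine chain_of_grid hD (hom.trans hW) (fun x => M * g x) a
        (fun j => e (j * (2 ^ i * om) / (4 * D))) (fun j => (he8 _).trans_le hW) ?_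
      intro j hj
      have h1 : g (a j) = z (j * (2 ^ i * om) / (4 * D)) := by
        change g (if h : j < 4 * D + 3 then
          some (Fin.succ (finProdFinEquiv (⟨i, hi⟩, ⟨j, h⟩))) else none) = _
        rw [dif_pos hj, hgs]
        change z ((((finProdFinEquiv.symm (finProdFinEquiv
          ((⟨i, hi⟩ : Fin s), (⟨j, hj⟩ : Fin (4 * D + 3))))).2 : ℕ)) *
          (2 ^ ((finProdFinEquiv.symm (finProdFinEquiv
          ((⟨i, hi⟩ : Fin s), (⟨j, hj⟩ : Fin (4 * D + 3))))).1 : ℕ) * om) / (4 * D)) = _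
        rw [Equiv.symm_apply_apply]
      change M * g (a j) ≡ _ [MOD N]
      rw [h1]
      exact hphase _
    exact walkP_of_chains hN hD g (fun i hi => (hch i hi).some) hI hom'

end Pool.Agent.Lib.AbcZQ
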