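import Mathlib
import Pool.Agent.Lib.AbcO.Struct
import Pool.Agent.Lib.AbcZQ.EQ
import Pool.Agent.Lib.AbcZQ.DefsQ

/-!
# The light part with an explicit constant
-/

namespace Pool.Agent.Lib.AbcZQ

open Finset Pool.Agent.Lib.Pabc2 Pool.Agent.Lib.AbcH Pool.Agent.Lib.AbcO

/-- A member of a very tall triple has little mass outside `S`. -/
theorem member_light_of (δ η K : ℝ) (hδ : 0 < δ) (hη : 0 < η) (hK : 0 < K)
    (hE : ∀ Z1 Z2 M : ℕ, 0 < Z1 → 0 < Z2 → Nat.Coprime Z1 Z2 → 0 < M →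
      (M : ℤ) ∣ (Z1 : ℤ) - Z2 → Real.log Z1 + Real.log Z2 ≤ 4 / δ * ⌈1 / η⌉₊ * Real.log M →
      Real.log Z1 + Real.log Z2 ≤ K * (∏ p ∈ M.primeFactors, (p : ℝ)) *
        (∏ p ∈ (Z1 * Z2 * M).primeFactors, (p : ℝ)) ^ η) :
    ∀ (r : ℕ) (S : Finset ℕ) (P : ℝ) (t : ℕ × ℕ) (l : Fin 3), 0 < r → 1 ≤ P →
      IsT t → (N t).primeFactors ⊆ r.primeFactors →
      (∀ p ∈ r.primeFactors, p ∉ S → (p : ℝ) ≤ P) → 1000 ≤ ht t →
      δ * ht t < ∑ p ∈ (N t).primeFactors \ S, ((comp t l).factorization p : ℝ) * Real.log p →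
      ht t ≤ K * (r : ℝ) ^ (3 * η) * P := by
  classical
  set j : ℕ := ⌈1 / η⌉₊ with hj
  have hj1 : 1 ≤ j := Nat.one_le_iff_ne_zero.2 (by
    have : 0 < ⌈1 / η⌉₊ := Nat.ceil_pos.2 (by positivity)
    omega)
  have hj1R : (1 : ℝ) ≤ j := by exact_mod_cast hj1
  have hjη : 1 ≤ η * j := by
    have h1 : 1 / η ≤ j := Nat.le_ceil _
    rw [div_le_iff₀ hη] at h1
    linarith
  rintro r S P ⟨a, b⟩ l hr hP hT hsub hPS hbig hlight
  have hr1 : (1 : ℝ) ≤ r := by exact_mod_cast hr
  have hr0 : (0 : ℝ) < r := by linarith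
  obtain ⟨ha, hab, hcop⟩ := id hT
  simp only at ha hab hcop
  have hb : 0 < b := lt_of_lt_of_le ha hab
  have hN : N (a, b) = a * b * (a + b) := rfl
  have hht : ht (a, b) = Real.log ((a + b : ℕ) : ℝ) := by
    unfold ht
    push_cast
    rfl
  have hac : Nat.Coprime a (a + b) := by
    rw [Nat.coprime_self_add_right]
    exact hcop
  have hbc : Nat.Coprime b (a + b) := by
    rw [Nat.coprime_add_self_right]
    exact hcop.symm
  set U := (N (a, b)).primeFactors \ S with hU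
  have hUp : ∀ p ∈ U, p.Prime := fun p hp =>
    Nat.prime_of_mem_primeFactors (Finset.sdiff_subset hp)
  have hUr : U ⊆ r.primeFactors := Finset.sdiff_subset.trans hsub
  have hUP : ∀ p ∈ U, (p : ℝ) ≤ P := by
    intro p hp
    exact hPS p (hUr hp) (Finset.mem_sdiff.1 hp).2
  -- the common argument
  have key : ∀ m Z1 Z2 : ℕ, 0 < m → 0 < Z1 → 0 < Z2 → Nat.Coprime Z1 Z2 →
      (m : ℤ) ∣ (Z1 : ℤ) - Z2 → Real.log Z1 + Real.log Z2 ≤ 4 * ht (a, b) →
      ht (a, b) ≤ Real.log Z1 + Real.log Z2 →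
      (Z1 * Z2 * m).primeFactors ⊆ (N (a, b)).primeFactors →
      δ * ht (a, b) < ∑ p ∈ U, (m.factorization p : ℝ) * Real.log p →
      ht (a, b) ≤ K * (r : ℝ) ^ (3 * η) * P := by
    intro m Z1 Z2 hm h1 h2 h12 hdvd hup hlow hpf hlm
    obtain ⟨G, hGU, hGP, hGw⟩ := group (fun p => (m.factorization p : ℝ) * Real.log p)
      ((r : ℝ) ^ η) P (Real.one_le_rpow hr1 hη.le) hP j hj1 U
      (fun p hp => mul_nonneg (Nat.cast_nonneg _) (Real.log_natCast_nonneg _))
      (fun p hp => (hUp p hp).one_lt.le) hUP (by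
        refine (prod_primeFactors_le hr hUr).trans ?_
        rw [← Real.rpow_natCast, ← Real.rpow_mul hr0.le]
        calc (r : ℝ) = (r : ℝ) ^ (1 : ℝ) := (Real.rpow_one _).symm
          _ ≤ _ := Real.rpow_le_rpow_of_exponent_le hr1 hjη)
    have hGp : ∀ p ∈ G, p.Prime := fun p hp => hUp p (hGU hp)
    have hlogM : δ * ht (a, b) ≤ j * Real.log (part G m : ℕ) := by
      rw [log_part m hGp]
      exact hlm.le.trans hGw
    have hMdvd : part G m ∣ m := part_dvd m hm.ne' hGp
    have hA : Real.log Z1 + Real.log Z2 ≤ 4 / δ * j * Real.log (part G m : ℕ) := by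
      calc Real.log Z1 + Real.log Z2 ≤ 4 * ht (a, b) := hup
        _ = 4 / δ * (δ * ht (a, b)) := by field_simp
        _ ≤ 4 / δ * (j * Real.log (part G m : ℕ)) := by gcongr
        _ = _ := by ring
    have hres := hE Z1 Z2 (part G m) h1 h2 h12 (part_pos hGp m)
      ((Int.natCast_dvd_natCast.2 hMdvd).trans hdvd) hA
    refine (hlow.trans hres).trans ?_
    have e1 : ∏ p ∈ (part G m).primeFactors, (p : ℝ) ≤ (r : ℝ) ^ η * P := by
      refine le_trans ?_ hGP
      have h3 : ∏ p ∈ (part G m).primeFactors, p ≤ ∏ p ∈ G, p :=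
        Finset.prod_le_prod_of_subset_of_one_le' (part_primeFactors m hGp) fun p hp _ =>
          (hGp p hp).one_lt.le
      rw [← Nat.cast_prod, ← Nat.cast_prod]
      exact_mod_cast h3
    have e0 : (0 : ℝ) ≤ ∏ p ∈ (part G m).primeFactors, (p : ℝ) :=
      Finset.prod_nonneg fun p _ => Nat.cast_nonneg p
    have e2 : ∏ p ∈ (Z1 * Z2 * part G m).primeFactors, (p : ℝ) ≤ r := by
      apply prod_primeFactors_le hr
      refine ((Nat.primeFactors_mono (Nat.mul_dvd_mul_left _ hMdvd) (by positivity)).trans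
        hpf).trans hsub
    have e3 : (0 : ℝ) ≤ ∏ p ∈ (Z1 * Z2 * part G m).primeFactors, (p : ℝ) :=
      Finset.prod_nonneg fun p _ => Nat.cast_nonneg p
    have e4 : (1 : ℝ) ≤ (r : ℝ) ^ η := Real.one_le_rpow hr1 hη.le
    calc K * (∏ p ∈ (part G m).primeFactors, (p : ℝ)) *
          (∏ p ∈ (Z1 * Z2 * part G m).primeFactors, (p : ℝ)) ^ η
        ≤ K * ((r : ℝ) ^ η * P) * (r : ℝ) ^ η := by gcongr
      _ = K * ((r : ℝ) ^ η * 1 * (r : ℝ) ^ η) * P := by ring
      _ ≤ K * ((r : ℝ) ^ η * (r : ℝ) ^ η * (r : ℝ) ^ η) * P := by gcongr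
      _ = K * (r : ℝ) ^ (3 * η) * P := by
        rw [← Real.rpow_add hr0, ← Real.rpow_add hr0]
        congr 3
        ring
  have ha0 : (0 : ℝ) < a := by exact_mod_cast ha
  have hb0 : (0 : ℝ) < b := by exact_mod_cast hb
  have hla : 0 ≤ Real.log (a : ℝ) := Real.log_natCast_nonneg a
  have hlb : 0 ≤ Real.log (b : ℝ) := Real.log_natCast_nonneg b
  have hlac : Real.log a ≤ Real.log ((a + b : ℕ) : ℝ) := by
    apply Real.log_le_log ha0
    push_cast
    linarith
  have hlbc : Real.log b ≤ Real.log ((a + b : ℕ) : ℝ) := by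
    apply Real.log_le_log hb0
    push_cast
    linarith
  have hlab : Real.log a ≤ Real.log b := Real.log_le_log ha0 (by exact_mod_cast hab)
  have hlc : Real.log ((a + b : ℕ) : ℝ) ≤ Real.log 2 + Real.log b := by
    rw [← Real.log_mul (by norm_num) hb0.ne']
    apply Real.log_le_log
    · push_cast
      linarith
    · have : (a : ℝ) ≤ b := by exact_mod_cast hab
      push_cast
      linarith
  have hlog2 := Real.log_two_lt_d9
  have hl : l = 0 ∨ l = 1 ∨ l = 2 := by omega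
  rcases hl with rfl | rfl | rfl
  · refine key a (a + b) b ha (by omega) hb hbc.symm ⟨1, by push_cast; ring⟩ ?_ ?_ ?_ ?_
    · rw [hht]; linarith
    · rw [hht]; linarith
    · rw [hN, show (a + b) * b * a = a * b * (a + b) by ring]
    · simpa [comp] using hlight
  · refine key b (a + b) a hb (by omega) ha hac.symm ⟨1, by push_cast; ring⟩ ?_ ?_ ?_ ?_
    · rw [hht]; linarith
    · rw [hht]; linarith
    · rw [hN, show (a + b) * a * b = a * b * (a + b) by ring]
    · simpa [comp] using hlight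
  · refine key (a + b) (b ^ 2) (a ^ 2) (by omega) (by positivity) (by positivity)
      (Nat.Coprime.pow 2 2 hcop.symm) ⟨(b : ℤ) - a, by push_cast; ring⟩ ?_ ?_ ?_ ?_
    · push_cast
      rw [hht, Real.log_pow, Real.log_pow]
      push_cast at hlac hlbc ⊢
      linarith
    · have h1 : Real.log ((a + b : ℕ) : ℝ) ≥ 1000 := by rw [← hht]; exact hbig
      rw [hht]
      push_cast at hlc h1 ⊢
      rw [Real.log_pow, Real.log_pow]
      push_cast
      linarith
    · rw [hN]
      have h1 : (b ^ 2 * a ^ 2 * (a + b)).primeFactors = (b * a * (a + b)).primeFactors := by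
        rw [Nat.primeFactors_mul (by positivity) (by positivity),
          Nat.primeFactors_mul (by positivity) (by positivity), Nat.primeFactors_pow _ two_ne_zero,
          Nat.primeFactors_pow _ two_ne_zero, Nat.primeFactors_mul (by positivity) (by positivity),
          Nat.primeFactors_mul (by positivity) (by positivity)]
      rw [h1, mul_comm b a]
    · simpa [comp] using hlight


/-- **The light part**, explicit. -/
theorem lightQ : ∃ C1 : ℝ, 1 ≤ C1 ∧ LightQ C1 := by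
  refine ⟨180, by norm_num, ?_⟩
  intro δ η hδ hδ1 hη hη1
  have hi1 : 1 ≤ 1 / η := by
    rw [le_div_iff₀ hη]
    linarith
  set j : ℕ := ⌈1 / η⌉₊ with hj
  have hj2 : (j : ℝ) ≤ 2 * (1 / η) := by
    have := (Nat.ceil_lt_add_one (by positivity : (0 : ℝ) ≤ 1 / η)).le
    linarith
  have hj1 : 1 ≤ (j : ℝ) := hi1.trans (Nat.le_ceil _)
  have h4 : 4 ≤ 4 / δ := by
    rw [le_div_iff₀ hδ]
    linarith
  have hA : 1 ≤ 4 / δ * (j : ℝ) := by nlinarith
  have hiδ : 1 ≤ 1 / δ := by
    rw [le_div_iff₀ hδ]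
    linarith
  have hA2 : Real.log (4 / δ * j / η) ≤ Real.log 8 + 2 * Real.log (1 / (δ * η)) := by
    have h5 : Real.log (8 * (1 / (δ * η)) ^ 2) = Real.log 8 + 2 * Real.log (1 / (δ * η)) := by
      rw [Real.log_mul (by norm_num) (by positivity), Real.log_pow]
      push_cast
      ring
    rw [← h5]
    apply Real.log_le_log (by positivity)
    have h6 : 4 / δ * j / η = 4 * (1 / δ) * j * (1 / η) := by
      field_simp
    have h7 : (1 / (δ * η)) ^ 2 = (1 / δ) * (1 / δ) * ((1 / η) * (1 / η)) := by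
      field_simp
    rw [h6, h7]
    calc 4 * (1 / δ) * j * (1 / η) ≤ 4 * (1 / δ) * (2 * (1 / η)) * (1 / η) := by gcongr
      _ = 8 * ((1 / δ) * 1 * ((1 / η) * (1 / η))) := by ring
      _ ≤ _ := by gcongr
  have hlδη : 0 ≤ Real.log (1 / (δ * η)) := by
    apply Real.log_nonneg
    rw [le_div_iff₀ (by positivity)]
    nlinarith
  have h8 : Real.log 8 ≤ 2.1 := by
    have : (8 : ℝ) = 2 ^ 3 := by norm_num
    rw [this, Real.log_pow]
    have := Real.log_two_lt_d9
    push_cast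
    linarith
  have hle : Real.exp (Real.exp (57 / η * (1 + Real.log (4 / δ * j / η)))) ≤
      Real.exp (Real.exp (180 / η * (1 + Real.log (1 / (δ * η))))) := by
    apply Real.exp_le_exp.2
    apply Real.exp_le_exp.2
    have h9 : (57 : ℝ) / η * (1 + Real.log (4 / δ * j / η)) =
        (1 / η) * (57 * (1 + Real.log (4 / δ * j / η))) := by ring
    have h10 : (180 : ℝ) / η * (1 + Real.log (1 / (δ * η))) =
        (1 / η) * (180 * (1 + Real.log (1 / (δ * η)))) := by ring
    rw [h9, h10]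
    apply mul_le_mul_of_nonneg_left _ (by positivity)
    linarith
  intro r S P t l hr hP hT hsub hPS hbig hlight
  exact member_light_of δ η _ hδ hη (Real.exp_pos _) (fun Z1 Z2 M h1 h2 hcop hM hdvd h4' =>
    (thmE3_q (4 / δ * j) η hA hη hη1 Z1 Z2 M h1 h2 hcop hM hdvd h4').trans (by
      have e0 : (0 : ℝ) ≤ ∏ p ∈ M.primeFactors, (p : ℝ) :=
        Finset.prod_nonneg fun p _ => Nat.cast_nonneg p
      have e1 : (0 : ℝ) ≤ ∏ p ∈ (Z1 * Z2 * M).primeFactors, (p : ℝ) :=
        Finset.prod_nonneg fun p _ => Nat.cast_nonneg p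
      gcongr)) r S P t l hr hP hT hsub hPS hbig hlight

end Pool.Agent.Lib.AbcZQ
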