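import Mathlib

/-!
# Parameters of the explicit form of Theorem S
-/

namespace Pool.Agent.Lib.AbcZQ

/-- the number of scales -/
theorem par_s (x : ℝ) (hx : 2 ≤ x) : ∃ sc : ℕ, 1 ≤ sc ∧ 128 * x ≤ 2 ^ sc ∧
    (sc : ℝ) ≤ 9 * (1 + Real.log x) := by
  set n : ℕ := ⌈128 * x⌉₊ with hn
  have hn1 : 128 * x ≤ n := Nat.le_ceil _
  have hn2 : (n : ℝ) < 128 * x + 1 := Nat.ceil_lt_add_one (by linarith)
  have hn3 : 1 < n := by
    have : (1 : ℝ) < n := by linarith
    exact_mod_cast this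
  have h1 : n ≤ 2 ^ Nat.clog 2 n := Nat.le_pow_clog one_lt_two n
  have h2 : 2 ^ (Nat.clog 2 n).pred < n := Nat.pow_pred_clog_lt_self one_lt_two hn3
  have h3 : 0 < Nat.clog 2 n := Nat.clog_pos one_lt_two hn3
  refine ⟨Nat.clog 2 n, h3, ?_, ?_⟩
  · refine hn1.trans ?_
    exact_mod_cast h1
  · obtain ⟨j, hj⟩ : ∃ j, Nat.clog 2 n = j + 1 := ⟨_, (Nat.succ_pred_eq_of_pos h3).symm⟩
    rw [hj] at h2 ⊢
    rw [Nat.pred_succ] at h2
    have h4 : (2 : ℝ) ^ j < 2 ^ 8 * x := by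
      have : ((2 ^ j : ℕ) : ℝ) < n := by exact_mod_cast h2
      push_cast at this
      linarith
    have h5 := Real.log_le_log (by positivity) h4.le
    rw [Real.log_pow, Real.log_mul (by norm_num) (by linarith), Real.log_pow] at h5
    have h6 := Real.log_two_gt_d9
    have hlx : 0 ≤ Real.log x := Real.log_nonneg (by linarith)
    push_cast at h5 ⊢
    by_contra hc
    push Not at hc
    have h7 : 8 + 9 * Real.log x < j := by linarith
    have h8 : (8 + 9 * Real.log x) * Real.log 2 < j * Real.log 2 :=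
      mul_lt_mul_of_pos_right h7 (by linarith)
    have h9 : 9 * Real.log x * (1 / 2) ≤ 9 * Real.log x * Real.log 2 := by
      apply mul_le_mul_of_nonneg_left _ (by positivity)
      linarith
    nlinarith

/-- the condition on `log p` -/
theorem par_P (ν x L : ℝ) (sc D : ℕ) (hν0 : 0 < ν) (hν1 : ν ≤ 1) (hx : 1 / ν ≤ x)
    (hsc1 : 1 ≤ sc) (hsc : (sc : ℝ) ≤ 9 * (1 + Real.log x)) (hD : (D : ℝ) ≤ 513 * sc / ν)
    (hL0 : 0 < L) (hL : 2000000 / ν * (1 + Real.log x) ^ 3 ≤ Real.log L) :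
    16 * ((33 / ν) ^ (sc * (4 * D + 3) + 1) + 1) * (2 * (sc * (4 * D + 3) : ℕ) + 7) ≤ ν * L := by
  have hx1 : 1 ≤ x := le_trans (by rw [le_div_iff₀ hν0]; linarith) hx
  have hlx : 0 ≤ Real.log x := Real.log_nonneg hx1
  set Λ : ℝ := 1 + Real.log x with hΛ
  have hΛ1 : 1 ≤ Λ := by linarith
  have hscR : (1 : ℝ) ≤ sc := by exact_mod_cast hsc1
  set y : ℝ := 33 / ν with hy
  have hy33 : 33 ≤ y := by
    rw [hy, le_div_iff₀ hν0]
    linarith
  have hνy : ν * y = 33 := by rw [hy]; field_simp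
  set k : ℕ := sc * (4 * D + 3) with hk
  have hk3 : 3 ≤ k := by
    rw [hk]
    calc 3 ≤ 1 * (4 * D + 3) := by omega
      _ ≤ sc * (4 * D + 3) := Nat.mul_le_mul_right _ hsc1
  have hscν : 1 ≤ sc / ν := by
    rw [le_div_iff₀ hν0]
    linarith
  -- the number of letters
  have hk1 : ((k : ℝ) + 1) ≤ 166536 * Λ ^ 2 / ν := by
    have e1 : (k : ℝ) = sc * (4 * D + 3) := by rw [hk]; push_cast; ring
    have e2 : (4 * (D : ℝ) + 4) ≤ 2056 * (sc / ν) := by
      have : (513 * sc / ν : ℝ) = 513 * (sc / ν) := by ring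
      rw [this] at hD
      linarith
    calc (k : ℝ) + 1 ≤ sc * (4 * D + 4) := by rw [e1]; linarith
      _ ≤ sc * (2056 * (sc / ν)) := by gcongr
      _ = 2056 * (sc : ℝ) ^ 2 / ν := by ring
      _ ≤ 2056 * (9 * Λ) ^ 2 / ν := by gcongr
      _ = _ := by ring
  have hlogy0 : 0 ≤ Real.log y := Real.log_nonneg (by linarith)
  have hlogy : Real.log y ≤ 5 * Λ := by
    have h1 : y ≤ 2 ^ 6 * x := by
      have : y = 33 * (1 / ν) := by rw [hy]; ring
      rw [this]
      linarith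
    have h2 := Real.log_le_log (by linarith) h1
    rw [Real.log_mul (by norm_num) (by linarith), Real.log_pow] at h2
    have h3 := Real.log_two_lt_d9
    push_cast at h2
    linarith
  have hmain : y ^ (2 * (k + 1)) ≤ L := by
    rw [← Real.exp_log hL0, ← Real.exp_log (show 0 < y ^ (2 * (k + 1)) by positivity),
      Real.exp_le_exp, Real.log_pow]
    refine le_trans ?_ hL
    push_cast
    calc 2 * ((k : ℝ) + 1) * Real.log y ≤ 2 * (166536 * Λ ^ 2 / ν) * (5 * Λ) := by gcongr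
      _ = 1665360 / ν * Λ ^ 3 := by ring
      _ ≤ 2000000 / ν * Λ ^ 3 := by
          apply mul_le_mul_of_nonneg_right _ (by positivity)
          apply div_le_div_of_nonneg_right _ hν0.le
          norm_num
  have hbern : 2 * (k : ℝ) + 7 ≤ y ^ k := by
    have h1 : 1 + (k : ℝ) * (y - 1) ≤ (1 + (y - 1)) ^ k :=
      one_add_mul_le_pow (by linarith) k
    rw [add_sub_cancel] at h1
    have h2 : (3 : ℝ) ≤ k := by exact_mod_cast hk3
    have h3 : (k : ℝ) * 32 ≤ k * (y - 1) := by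
      apply mul_le_mul_of_nonneg_left _ (by positivity)
      linarith
    linarith
  have hyk1 : 1 ≤ y ^ (k + 1) := one_le_pow₀ (by linarith)
  calc 16 * (y ^ (k + 1) + 1) * (2 * (k : ℝ) + 7) ≤
      16 * (y ^ (k + 1) + y ^ (k + 1)) * y ^ k := by gcongr
    _ = 32 * (y ^ (k + 1) * y ^ k) := by ring
    _ ≤ 33 * (y ^ (k + 1) * y ^ k) := by
        apply mul_le_mul_of_nonneg_right _ (by positivity)
        norm_num
    _ = ν * y * (y ^ (k + 1) * y ^ k) := by rw [hνy]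
    _ = ν * y ^ (2 * (k + 1)) := by ring
    _ ≤ ν * L := by gcongr

end Pool.Agent.Lib.AbcZQ
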