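import Pool.Agent.Lib.AbcZ.PrimeA
import Pool.Agent.Lib.AbcZ.PrimeB

/-!
# A prime with dense phases, explicit form

Only one absolute constant is left implicit.
-/

set_option autoImplicit false

namespace Pool.Agent.Lib.AbcZQ

open Finset Filter Topology Pool.Agent.Lib.AbcZ

/-- Chebyshev, uniformly in `δ`. -/
theorem many_primes_q : ∃ X0 : ℝ, ∀ (δ : ℝ) (N : ℕ), 0 < δ → δ ≤ 1 → X0 ≤ δ * N →
    δ * Real.log 2 / 4 * N ≤
      (((Finset.range (N + 1)).filter
        (fun M : ℕ => M.Prime ∧ δ / 4 * N < M ∧ (M : ℝ) ≤ δ * N)).card : ℝ) * Real.log N := by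
  have hl2 : 0 < Real.log 2 := Real.log_pos (by norm_num)
  have h1 : ∀ᶠ x : ℝ in atTop, Real.log x ≤ Real.log 2 / 20 * x ^ (1 / 2 : ℝ) := by
    have h := (isLittleO_log_rpow_atTop (r := (1 / 2 : ℝ)) (by norm_num)).def
      (c := Real.log 2 / 20) (by positivity)
    filter_upwards [h, eventually_ge_atTop (1 : ℝ)] with x hx hx1
    rw [Real.norm_of_nonneg (Real.log_nonneg hx1), Real.norm_of_nonneg (by positivity)] at hx
    exact hx
  obtain ⟨X0, hX0⟩ := eventually_atTop.1 h1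
  refine ⟨max X0 4, ?_⟩
  intro δ N hδ hδ1 hxm
  set x : ℝ := δ * N with hx
  have hx4 : 4 ≤ x := (le_max_right _ _).trans hxm
  have hxX : X0 ≤ x := (le_max_left _ _).trans hxm
  have hlog := hX0 x hxX
  have hx0 : 0 < x := by linarith
  have hxN : x ≤ N := by
    rw [hx]
    have : (0 : ℝ) ≤ N := Nat.cast_nonneg _
    nlinarith
  -- lower bound for the difference
  have hlow := Chebyshev.theta_ge' (x := x) (by linarith)
  have hup := Chebyshev.theta_le_log4_mul_x (x := x / 4) (by positivity)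
  have hl4 : Real.log 4 = 2 * Real.log 2 := by
    rw [show (4 : ℝ) = 2 ^ 2 by norm_num, Real.log_pow]; norm_num
  have hs1 : 1 ≤ √x := by
    rw [Real.one_le_sqrt]; linarith
  have hsx : √x * √x = x := Real.mul_self_sqrt hx0.le
  have hsr : x ^ (1 / 2 : ℝ) = √x := (Real.sqrt_eq_rpow x).symm
  rw [hsr] at hlog
  have hlx : 0 ≤ Real.log x := Real.log_nonneg (by linarith)
  have hlx2 : Real.log 2 ≤ Real.log x := Real.log_le_log (by norm_num) (by linarith)
  have hlx3 : Real.log (x + 2) ≤ 2 * Real.log x := by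
    have : Real.log (x + 2) ≤ Real.log (x ^ 2) := Real.log_le_log (by linarith) (by nlinarith)
    rw [Real.log_pow] at this
    push_cast at this
    exact this
  have hdiff : Real.log 2 / 4 * x ≤ Chebyshev.theta x - Chebyshev.theta (x / 4) := by
    have h5 : √x * Real.log x ≤ Real.log 2 / 20 * x := by
      calc √x * Real.log x ≤ √x * (Real.log 2 / 20 * √x) := by gcongr
        _ = Real.log 2 / 20 * x := by rw [mul_left_comm, hsx]
    have h6 : Real.log x ≤ √x * Real.log x := le_mul_of_one_le_left hlx hs1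
    rw [hl4] at hup
    nlinarith
  have hθ := theta_diff hx4
  set S := (Finset.range (N + 1)).filter
    (fun M : ℕ => M.Prime ∧ δ / 4 * N < M ∧ (M : ℝ) ≤ δ * N) with hS
  have hcard : (((Finset.range (⌊x⌋₊ + 1)).filter
      (fun M : ℕ => M.Prime ∧ x / 4 < M ∧ (M : ℝ) ≤ x)).card : ℝ) ≤ S.card := by
    have : (Finset.range (⌊x⌋₊ + 1)).filter
        (fun M : ℕ => M.Prime ∧ x / 4 < M ∧ (M : ℝ) ≤ x) ⊆ S := by
      intro p hp
      rw [mem_filter, mem_range] at hp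
      rw [hS, mem_filter, mem_range]
      refine ⟨?_, hp.2.1, ?_, hp.2.2.2⟩
      · have h7 : (p : ℝ) ≤ N := hp.2.2.2.trans hxN
        have h8 : p ≤ N := by exact_mod_cast h7
        omega
      · have h9 := hp.2.2.1
        rw [hx] at h9
        linarith
    exact_mod_cast Finset.card_le_card this
  have hlxN : Real.log x ≤ Real.log N := Real.log_le_log hx0 hxN
  calc δ * Real.log 2 / 4 * N = Real.log 2 / 4 * x := by rw [hx]; ring
    _ ≤ _ := hdiff
    _ ≤ _ := hθ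
    _ ≤ (S.card : ℝ) * Real.log N := by gcongr

open Classical in
/-- **A prime with dense phases**, explicit. -/
theorem prime_dense_q : ∃ X0 : ℝ, 0 < X0 ∧ ∀ (δ ξ : ℝ) (N H : ℕ), 0 < δ → δ < 1 → 0 < ξ →
    2 ≤ H * ξ ^ 2 → X0 ≤ δ * N → ∀ Γ : Finset ℕ, (∀ γ ∈ Γ, H * γ < N) →
      64 * (H : ℝ) ^ 2 * Real.log N < δ * Real.log 2 * Γ.card →
      ∃ M : ℕ, M.Prime ∧ δ / 4 * N < M ∧ (M : ℝ) ≤ δ * N ∧
        ∀ c : ℕ, c < N → ∃ γ ∈ Γ, (((M * γ + (N - c)) % N : ℕ) : ℝ) < ξ * N := by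
  obtain ⟨X0, hX0⟩ := many_primes_q
  refine ⟨max X0 1, lt_of_lt_of_le one_pos (le_max_right _ _), ?_⟩
  intro δ ξ N H hδ hδ1 hξ hH hN Γ hΓ hcard
  have hN1 : 1 ≤ δ * N := (le_max_right _ _).trans hN
  have hN0r : (0 : ℝ) < N := by
    by_contra h
    have h1 : δ * (N : ℝ) ≤ 0 := mul_nonpos_of_nonneg_of_nonpos hδ.le (not_lt.1 h)
    linarith
  have hN0 : 0 < N := by exact_mod_cast hN0r
  have hmany := hX0 δ N hδ hδ1.le ((le_max_left _ _).trans hN)
  set S := (Finset.range (N + 1)).filter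
    (fun M : ℕ => M.Prime ∧ δ / 4 * N < M ∧ (M : ℝ) ≤ δ * N) with hS
  set Bad := (range N).filter fun M => (Γ.card : ℝ) / 4 ≤ ∑ h ∈ Ico 1 H, ‖SS Γ N M h‖ with hBad
  have hbad : (Bad.card : ℝ) * Γ.card ≤ 16 * H ^ 2 * N := bad_card Γ N H hN0 hΓ
  by_contra hcon
  have hsub : S ⊆ Bad := by
    intro M hM
    rw [hS, mem_filter, mem_range] at hM
    rw [hBad, mem_filter, mem_range]
    have hMN : M < N := by
      have h1 : (M : ℝ) < N := by
        have h2 := hM.2.2.2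
        nlinarith
      exact_mod_cast h1
    refine ⟨hMN, ?_⟩
    have h1 : ¬ ∀ c : ℕ, c < N → ∃ γ ∈ Γ, (((M * γ + (N - c)) % N : ℕ) : ℝ) < ξ * N := by
      intro h2
      exact hcon ⟨M, hM.2.1, hM.2.2.1, hM.2.2.2, h2⟩
    push Not at h1
    obtain ⟨c, hc, h2⟩ := h1
    exact missed Γ N M c H ξ hN0 hξ hH hc h2
  have hcard2 : (S.card : ℝ) ≤ Bad.card := by exact_mod_cast Finset.card_le_card hsub
  have hlN : 0 ≤ Real.log N := Real.log_natCast_nonneg N
  have hg : (0 : ℝ) ≤ Γ.card := Nat.cast_nonneg _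
  have h3 : δ * Real.log 2 / 4 * N * Γ.card ≤ 16 * H ^ 2 * N * Real.log N := by
    calc δ * Real.log 2 / 4 * N * Γ.card ≤ ((S.card : ℝ) * Real.log N) * Γ.card :=
          mul_le_mul_of_nonneg_right hmany hg
      _ ≤ ((Bad.card : ℝ) * Real.log N) * Γ.card := by gcongr
      _ = ((Bad.card : ℝ) * Γ.card) * Real.log N := by ring
      _ ≤ (16 * H ^ 2 * N) * Real.log N := mul_le_mul_of_nonneg_right hbad hlN
  have h4 : (N : ℝ) * (δ * Real.log 2 * Γ.card) ≤ N * (64 * (H : ℝ) ^ 2 * Real.log N) := by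
    linarith
  have h5 := le_of_mul_le_mul_left h4 hN0r
  linarith

end Pool.Agent.Lib.AbcZQ
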