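import Mathlib
import Pool.Agent.Lib.AbcZQ.PrimeQ
import Pool.Agent.Lib.AbcZQ.LettersQ

/-!
# Parameters of the explicit form of Theorem S: count and letters
-/

namespace Pool.Agent.Lib.AbcZQ

open Finset

/-- the lower bound for the number of members of a class -/
theorem par_R (δ : ℝ) (N q : ℕ) (hδ0 : 0 < δ) (hδ1 : δ ≤ 1) (hN : 1 ≤ N) (hq : 1 ≤ q) :
    ∃ R : ℕ, 3 ≤ R ∧ 64 * ((2 * q ^ 2 : ℕ) : ℝ) ^ 2 * Real.log N ≤ δ * Real.log 2 * R ∧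
      (R : ℝ) ≤ 1028 * q ^ 4 * √N / δ := by
  have hl2 : 0 < Real.log 2 := Real.log_pos (by norm_num)
  have hl2' := Real.log_two_gt_d9
  have hN1 : (1 : ℝ) ≤ N := by exact_mod_cast hN
  have hq1 : (1 : ℝ) ≤ q := by exact_mod_cast hq
  have hs1 : 1 ≤ √(N : ℝ) := by rw [Real.one_le_sqrt]; exact hN1
  have hlogN : Real.log N ≤ 2 * √(N : ℝ) := by
    have h1 : (N : ℝ) = √(N : ℝ) ^ 2 := (Real.sq_sqrt (by linarith)).symm
    have h2 : Real.log N = 2 * Real.log (√(N : ℝ)) := by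
      conv_lhs => rw [h1]
      rw [Real.log_pow]
      push_cast
      ring
    have h3 := Real.log_le_sub_one_of_pos (show 0 < √(N : ℝ) by linarith)
    linarith
  have hlogN0 : 0 ≤ Real.log N := Real.log_natCast_nonneg N
  set B : ℝ := 64 * ((2 * q ^ 2 : ℕ) : ℝ) ^ 2 * Real.log N / (δ * Real.log 2) with hB
  have hB0 : 0 ≤ B := by positivity
  refine ⟨⌈B⌉₊ + 3, by omega, ?_, ?_⟩
  · have h1 : B ≤ ((⌈B⌉₊ + 3 : ℕ) : ℝ) := by
      push_cast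
      have := Nat.le_ceil B
      linarith
    rw [hB, div_le_iff₀ (by positivity)] at h1
    linarith
  · have h1 := (Nat.ceil_lt_add_one hB0).le
    push_cast
    have h2 : B ≤ 1024 * q ^ 4 * √(N : ℝ) / δ := by
      rw [hB, div_le_div_iff₀ (by positivity) hδ0]
      push_cast
      have h3 : 64 * (2 * (q : ℝ) ^ 2) ^ 2 * Real.log N ≤
          64 * (2 * (q : ℝ) ^ 2) ^ 2 * (2 * √(N : ℝ)) := by gcongr
      have h4 : (1 / 2 : ℝ) ≤ Real.log 2 := by linarith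
      calc 64 * (2 * (q : ℝ) ^ 2) ^ 2 * Real.log N * δ ≤
          64 * (2 * (q : ℝ) ^ 2) ^ 2 * (2 * √(N : ℝ)) * δ := by gcongr
        _ = 1024 * (q : ℝ) ^ 4 * √(N : ℝ) * (δ * (1 / 2)) := by ring
        _ ≤ 1024 * (q : ℝ) ^ 4 * √(N : ℝ) * (δ * Real.log 2) := by gcongr
    have h5 : 4 ≤ 4 * q ^ 4 * √(N : ℝ) / δ := by
      rw [le_div_iff₀ hδ0]
      have h6 : (1 : ℝ) ≤ (q : ℝ) ^ 4 := one_le_pow₀ hq1
      calc 4 * δ ≤ 4 * 1 := by gcongr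
        _ = 4 * 1 * 1 := by ring
        _ ≤ 4 * q ^ 4 * √(N : ℝ) := by gcongr
    have h6 : 1028 * (q : ℝ) ^ 4 * √(N : ℝ) / δ = 1024 * q ^ 4 * √(N : ℝ) / δ +
      4 * q ^ 4 * √(N : ℝ) / δ := by ring
    rw [h6]
    linarith

/-- the pigeonhole condition -/
theorem par_count (ν x δ Y : ℝ) (N p Q n q C R : ℕ) (hν1 : ν < 1) (hp : 2 ≤ p)
    (hx : 0 ≤ x) (hC0 : 0 < C) (hC : (C : ℝ) ≤ 3 * q ^ 2) (hq : (q : ℝ) ≤ 2 ^ 22 * x ^ 3)
    (hδ0 : 0 < δ) (hδ : 1 / δ ≤ 576 * x ^ 2) (hR : (R : ℝ) ≤ 1028 * q ^ 4 * √N / δ)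
    (hY : 2 ^ 155 * x ^ 20 * (Q : ℝ) ^ n * (p : ℝ) ^ ν ≤ Y) (hN : Y ^ 2 < N) :
    Q ^ n * (p - 1) * R < (N / C + 1) * ⌊(p : ℝ) ^ (1 - ν)⌋₊ := by
  have hp2 : (2 : ℝ) ≤ p := by exact_mod_cast hp
  have hp0 : (0 : ℝ) < p := by linarith
  have hCR : (0 : ℝ) < C := by exact_mod_cast hC0
  have hY0 : 0 ≤ Y := le_trans (by positivity) hY
  have hYN : Y ≤ √(N : ℝ) := Real.le_sqrt_of_sq_le hN.le
  have hN0 : (0 : ℝ) < N := lt_of_le_of_lt (by positivity) hN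
  have hssq : √(N : ℝ) * √(N : ℝ) = N := Real.mul_self_sqrt hN0.le
  set P : ℝ := (p : ℝ) ^ (1 - ν) with hP
  have hP1 : 1 ≤ P := Real.one_le_rpow (by linarith) (by linarith)
  have hfl : P / 2 ≤ (⌊P⌋₊ : ℝ) := by
    have h1 : 1 ≤ ⌊P⌋₊ := by rw [Nat.one_le_floor_iff]; exact hP1
    have h2 : (1 : ℝ) ≤ (⌊P⌋₊ : ℝ) := by exact_mod_cast h1
    have h3 := (Nat.lt_floor_add_one P).le
    linarith
  have hpP : (p : ℝ) ^ ν * P = p := by
    rw [hP, ← Real.rpow_add hp0]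
    simp
  have hdiv : (N : ℝ) / C < ((N / C + 1 : ℕ) : ℝ) := by
    rw [div_lt_iff₀ hCR]
    have : N < (N / C + 1) * C := by
      have := Nat.lt_div_mul_add hC0 (a := N)
      calc N < N / C * C + C := this
        _ = _ := by ring
    exact_mod_cast this
  have hmain : 2 * C * ((Q : ℝ) ^ n * (p : ℝ) ^ ν * R) ≤ N := by
    calc 2 * (C : ℝ) * ((Q : ℝ) ^ n * (p : ℝ) ^ ν * R) ≤
        2 * (3 * q ^ 2) * ((Q : ℝ) ^ n * (p : ℝ) ^ ν * (1028 * q ^ 4 * √N / δ)) := by gcongr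
      _ = 6168 * (q : ℝ) ^ 6 * (1 / δ) * ((Q : ℝ) ^ n * (p : ℝ) ^ ν) * √N := by ring
      _ ≤ 2 ^ 13 * (2 ^ 22 * x ^ 3) ^ 6 * (2 ^ 10 * x ^ 2) *
          ((Q : ℝ) ^ n * (p : ℝ) ^ ν) * √N := by
          have h1 : (6168 : ℝ) ≤ 2 ^ 13 := by norm_num
          have h2 : 1 / δ ≤ 2 ^ 10 * x ^ 2 := by
            refine hδ.trans ?_
            have : 0 ≤ x ^ 2 := by positivity
            nlinarith
          gcongr
      _ = (2 ^ 155 * x ^ 20 * (Q : ℝ) ^ n * (p : ℝ) ^ ν) * √N := by ring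
      _ ≤ Y * √N := by gcongr
      _ ≤ √N * √N := by gcongr
      _ = N := hssq
  have hreal : (((Q ^ n * (p - 1) * R : ℕ)) : ℝ) < (((N / C + 1) * ⌊P⌋₊ : ℕ) : ℝ) := by
    have hpm : ((p - 1 : ℕ) : ℝ) ≤ p := by exact_mod_cast Nat.sub_le p 1
    calc (((Q ^ n * (p - 1) * R : ℕ)) : ℝ) ≤ (Q : ℝ) ^ n * p * R := by
          push_cast
          gcongr
      _ = ((Q : ℝ) ^ n * (p : ℝ) ^ ν * R) * P := by
          conv_lhs => rw [← hpP]
          ring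
      _ ≤ (N : ℝ) / C * (P / 2) := by
          have : (Q : ℝ) ^ n * (p : ℝ) ^ ν * R ≤ N / C / 2 := by
            rw [le_div_iff₀ (by norm_num), le_div_iff₀ hCR]
            linarith
          calc ((Q : ℝ) ^ n * (p : ℝ) ^ ν * R) * P ≤ (N / C / 2) * P := by gcongr
            _ = _ := by ring
      _ < ((N / C + 1 : ℕ) : ℝ) * (P / 2) := mul_lt_mul_of_pos_right hdiv (by positivity)
      _ ≤ ((N / C + 1 : ℕ) : ℝ) * (⌊P⌋₊ : ℝ) := by gcongr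
      _ = _ := by push_cast; ring
  exact_mod_cast hreal

/-- the letters -/
theorem par_let (X0 : ℝ) (hX0 : ∀ (δ ξ : ℝ) (N H : ℕ), 0 < δ → δ < 1 → 0 < ξ →
    2 ≤ H * ξ ^ 2 → X0 ≤ δ * N → ∀ Γ : Finset ℕ, (∀ γ ∈ Γ, H * γ < N) →
      64 * (H : ℝ) ^ 2 * Real.log N < δ * Real.log 2 * Γ.card →
      ∃ M : ℕ, M.Prime ∧ δ / 4 * N < M ∧ (M : ℝ) ≤ δ * N ∧
        ∀ c : ℕ, c < N → ∃ γ ∈ Γ, (((M * γ + (N - c)) % N : ℕ) : ℝ) < ξ * N)
    (x δ : ℝ) (N q D sc R : ℕ) (hx : 2 ≤ x) (hδ0 : 0 < δ) (hδ1 : δ < 1) (hD : 1 ≤ D)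
    (hsc : 128 * x ≤ 2 ^ sc) (hq : 512 * x * D ≤ q) (hqN : q ≤ N) (hXN : X0 ≤ δ * N)
    (hR : 64 * ((2 * q ^ 2 : ℕ) : ℝ) ^ 2 * Real.log N ≤ δ * Real.log 2 * R) :
    ∀ Γ : Finset ℕ, (∀ γ ∈ Γ, γ ≤ N / (2 * q ^ 2 + 1)) → R < Γ.card → ∃ M : ℕ, M.Prime ∧
      δ / 4 * N < M ∧ (M : ℝ) ≤ δ * N ∧ ∃ g : Option (Fin (sc * (4 * D + 3) + 1)) → ℕ,
        (∀ y, g y ∈ Γ) ∧ (∀ c ∈ Γ, g none ≤ c ∧ c ≤ g (some 0)) ∧
        ∀ om, ⌊(N : ℝ) / (32 * x)⌋₊ ≤ om → WalkP M N (D + 1) om sc g := by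
  intro Γ hΓ hΓc
  have hDR : (1 : ℝ) ≤ D := by exact_mod_cast hD
  have hq1 : 1 ≤ (q : ℝ) := by
    refine le_trans ?_ hq
    calc (1 : ℝ) ≤ 512 * 2 * 1 := by norm_num
      _ ≤ 512 * x * D := by gcongr
  have hqpos : 0 < q := by exact_mod_cast (lt_of_lt_of_le one_pos hq1)
  have hNpos : 0 < N := by omega
  have hNR : (0 : ℝ) < N := by exact_mod_cast hNpos
  have hqNR : (q : ℝ) ≤ N := by exact_mod_cast hqN
  have hl2 : 0 < Real.log 2 := Real.log_pos (by norm_num)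
  obtain ⟨M, hM, hM1, hM2, hd⟩ := hX0 δ (1 / q) N (2 * q ^ 2) hδ0 hδ1 (by positivity) (by
      push_cast
      rw [div_pow, one_pow, mul_one_div, mul_div_assoc, div_self (by positivity)]
      norm_num) hXN Γ (fun γ hγ => by
      have h3 := hΓ γ hγ
      calc 2 * q ^ 2 * γ ≤ 2 * q ^ 2 * (N / (2 * q ^ 2 + 1)) := Nat.mul_le_mul_left _ h3
        _ < N := by
          by_contra hc
          push Not at hc
          have h4 : (2 * q ^ 2 + 1) * (N / (2 * q ^ 2 + 1)) ≤ N := Nat.mul_div_le _ _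
          have h5 : (2 * q ^ 2 + 1) * (N / (2 * q ^ 2 + 1)) =
            2 * q ^ 2 * (N / (2 * q ^ 2 + 1)) + N / (2 * q ^ 2 + 1) := by ring
          have h6 : N / (2 * q ^ 2 + 1) = 0 := by omega
          rw [h6, mul_zero] at hc
          omega) (by
      refine lt_of_le_of_lt hR ?_
      apply mul_lt_mul_of_pos_left _ (by positivity)
      exact_mod_cast hΓc)
  have hΓne : Γ.Nonempty := Finset.card_pos.1 (by omega)
  set om0 : ℕ := ⌊(N : ℝ) / (32 * x)⌋₊ with hom0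
  have hx0 : 0 < x := by linarith
  have hNx : 16 * D ≤ (N : ℝ) / (32 * x) := by
    rw [le_div_iff₀ (by positivity)]
    calc 16 * (D : ℝ) * (32 * x) = 512 * x * D := by ring
      _ ≤ q := hq
      _ ≤ N := hqNR
  have hom0a : (N : ℝ) / (64 * x) ≤ om0 := by
    have h1 := (Nat.lt_floor_add_one ((N : ℝ) / (32 * x))).le
    rw [← hom0] at h1
    have h2 : (N : ℝ) / (32 * x) = 2 * (N / (64 * x)) := by field_simp; ring
    linarith
  have hom0b : (8 : ℝ) * D ≤ om0 := by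
    have h2 : (N : ℝ) / (32 * x) = 2 * (N / (64 * x)) := by field_simp; ring
    linarith
  obtain ⟨g, hg1, hg2, hg3⟩ := lettersQ q N M D om0 sc hNpos (by omega) (by
      have : (8 : ℝ) * D * N ≤ q * om0 := by
        calc (8 : ℝ) * D * N = (512 * x * D) * (N / (64 * x)) := by field_simp; ring
          _ ≤ q * om0 := by gcongr
      exact_mod_cast this) (by exact_mod_cast hom0b) (by
      have : (2 : ℝ) * N ≤ 2 ^ sc * om0 := by
        calc (2 : ℝ) * N = 128 * x * (N / (64 * x)) := by field_simp; ring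
          _ ≤ 2 ^ sc * om0 := by gcongr
      exact_mod_cast this) Γ hΓne (by
      intro c hc
      obtain ⟨γ, hγ, hlt⟩ := hd c hc
      refine ⟨γ, hγ, ?_⟩
      rw [one_div, inv_mul_eq_div, lt_div_iff₀ (by linarith)] at hlt
      have : ((q * ((M * γ + (N - c)) % N) : ℕ) : ℝ) < N := by
        push_cast
        push_cast at hlt
        linarith
      exact_mod_cast this)
  exact ⟨M, hM, hM1, hM2, g, hg1, hg2, hg3⟩

end Pool.Agent.Lib.AbcZQ
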