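import Mathlib
import Pool.Agent.Lib.AbcZQ.DefsD

/-!
# The Ridout form from Theorem S with an arbitrary modulus
-/

namespace Pool.Agent.Lib.AbcZQ

open Finset

/-- A constant to the number of primes is a small power of the product. -/
theorem pow_card_d (C η : ℝ) (hC : 1 ≤ C) (hη : 0 < η) (S : Finset ℕ) (hS : ∀ p ∈ S, p.Prime) :
    C ^ S.card ≤ C ^ ⌈C ^ (1 / η)⌉₊ * (∏ p ∈ S, (p : ℝ)) ^ η := by
  classical
  set L : ℕ := ⌈C ^ (1 / η)⌉₊ with hL
  have h1 : (S.filter (fun p => p < L)).card ≤ L := by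
    calc (S.filter (fun p => p < L)).card ≤ (Finset.range L).card := by
          apply Finset.card_le_card
          intro p hp
          exact Finset.mem_range.mpr (Finset.mem_filter.mp hp).2
      _ = L := Finset.card_range L
  have h2 : C ^ (S.filter (fun p => ¬ p < L)).card ≤ (∏ p ∈ S, (p : ℝ)) ^ η := by
    have e1 : C ^ (S.filter (fun p => ¬ p < L)).card =
        ∏ _p ∈ S.filter (fun p => ¬ p < L), C := by
      rw [Finset.prod_const]
    have e2 : (∏ p ∈ S, (p : ℝ)) ^ η = ∏ p ∈ S, (p : ℝ) ^ η := by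
      rw [← Real.finsetProd_rpow]
      intro p _
      positivity
    rw [e1, e2]
    have e3 : ∏ _p ∈ S.filter (fun p => ¬ p < L), C ≤
        ∏ p ∈ S.filter (fun p => ¬ p < L), (p : ℝ) ^ η := by
      apply Finset.prod_le_prod (fun _ _ => by linarith)
      intro p hp
      have hpL : L ≤ p := not_lt.mp (Finset.mem_filter.mp hp).2
      have hp1 : C ^ (1 / η) ≤ p := (Nat.le_ceil _).trans (by exact_mod_cast hpL)
      have hC0 : 0 ≤ C := by linarith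
      calc C = (C ^ (1 / η)) ^ η := by
            rw [← Real.rpow_mul hC0, one_div_mul_cancel hη.ne', Real.rpow_one]
        _ ≤ (p : ℝ) ^ η := Real.rpow_le_rpow (by positivity) hp1 hη.le
    refine e3.trans ?_
    apply Finset.prod_le_prod_of_subset_of_one_le (Finset.filter_subset _ _)
    · intro p _
      positivity
    · intro p hp _
      apply Real.one_le_rpow _ hη.le
      exact_mod_cast (hS p hp).one_lt.le
  have h3 : S.card = (S.filter (fun p => p < L)).card + (S.filter (fun p => ¬ p < L)).card :=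
    (Finset.card_filter_add_card_filter_not _).symm
  rw [h3, pow_add]
  exact mul_le_mul (pow_le_pow_right₀ hC h1) h2 (by positivity) (by positivity)

/-- the `N`-th root of a number up to its radical -/
theorem root_part (D N : ℕ) (hD : 0 < D) (hN : 0 < N) : ∃ E : ℕ, 0 < E ∧ E ^ N ∣ D ∧
    D ≤ E ^ N * (∏ p ∈ D.primeFactors, p) ^ N := by
  have hDe : ∏ p ∈ D.primeFactors, p ^ D.factorization p = D :=
    Nat.prod_factorization_pow_eq_self hD.ne'
  refine ⟨∏ p ∈ D.primeFactors, p ^ (D.factorization p / N), ?_, ?_, ?_⟩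
  · exact Finset.prod_pos fun p hp => pow_pos (Nat.prime_of_mem_primeFactors hp).pos _
  · conv_rhs => rw [← hDe]
    rw [← Finset.prod_pow]
    apply Finset.prod_dvd_prod_of_dvd
    intro p _
    rw [← pow_mul]
    exact pow_dvd_pow _ (Nat.div_mul_le_self _ _)
  · conv_lhs => rw [← hDe]
    rw [← Finset.prod_pow, ← Finset.prod_pow, ← Finset.prod_mul_distrib]
    apply Finset.prod_le_prod'
    intro p hp
    rw [← pow_mul, ← pow_add]
    apply Nat.pow_le_pow_right (Nat.prime_of_mem_primeFactors hp).pos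
    have h1 := Nat.div_add_mod (D.factorization p) N
    have h2 := Nat.mod_lt (D.factorization p) hN
    rw [Nat.mul_comm] at h1
    omega

/-- Theorem S at fixed `A`, `ν`, with threshold `Λ` and constant `B`. -/
def SAt (A ν Λ B : ℝ) : Prop := ∀ (T : ℝ) (Q p u Z1 Z2 : ℕ) (s : ℤ),
  2 ≤ p → 0 < Z1 → 0 < Z2 → Nat.Coprime Z1 Z2 → (s = 1 ∨ s = -1) → (Z1 : ℤ) ≠ s * Z2 →
  ((p ^ u : ℕ) : ℤ) ∣ (Z1 : ℤ) - s * Z2 → Real.log Z1 ≤ A * (u * Real.log p) →
  Real.log Z2 ≤ A * (u * Real.log p) → ∏ q ∈ (Z1 * Z2).primeFactors, (q : ℝ) ≤ T →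
  (p : ℝ) ≤ T → 200 * Real.log T ≤ Q * (ν * Real.log p) → Λ ≤ Real.log (Real.log p) →
  (u : ℝ) ≤ (B * (Q : ℝ) ^ ((Z1 * Z2).primeFactors.card + 1) * (p : ℝ) ^ ν) ^ 2

/-- **The Ridout form** from Theorem S with an arbitrary modulus: one case only. -/
theorem ridout_core (ε δ Λ B : ℝ) (hε : 0 < ε) (hε1 : ε ≤ 1) (hδ : 0 < δ) (hΛ : 0 ≤ Λ) (hB : 1 ≤ B)
    (hS : SAt (2 / δ) (ε / 32) Λ B) (Q : ℕ) (hQ : 6400 / ε ≤ Q) (Z1 Z2 D : ℕ) (s : ℤ)
    (hZ1 : 0 < Z1) (hZ2 : 0 < Z2) (hcop : Nat.Coprime Z1 Z2) (hs : s = 1 ∨ s = -1)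
    (hne : (Z1 : ℤ) ≠ s * Z2) (hD : 0 < D) (hdvd : (D : ℤ) ∣ (Z1 : ℤ) - s * Z2)
    (hlarge : δ * Real.log (max Z1 Z2 : ℕ) < Real.log D) :
    Real.log D ≤ (16 / ε + 4 * Real.exp Λ) * B ^ 2 * (Q : ℝ) ^ (2 * ⌈(Q : ℝ) ^ (8 / ε)⌉₊ + 2) *
      Real.exp (Real.exp Λ / 4) * ((∏ p ∈ (Z1 * Z2 * D).primeFactors, p : ℕ) : ℝ) ^ ε := by
  classical
  set r : ℕ := ∏ p ∈ (Z1 * Z2 * D).primeFactors, p with hr
  have hrpos : 0 < r := Finset.prod_pos fun p hp => (Nat.prime_of_mem_primeFactors hp).pos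
  have hr1 : (1 : ℝ) ≤ r := by exact_mod_cast hrpos
  have hr0 : (0 : ℝ) < r := by linarith
  have hZZD : Z1 * Z2 * D ≠ 0 := by positivity
  have hDsub : D.primeFactors ⊆ (Z1 * Z2 * D).primeFactors :=
    Nat.primeFactors_mono (Nat.dvd_mul_left _ _) hZZD
  have hZsub : (Z1 * Z2).primeFactors ⊆ (Z1 * Z2 * D).primeFactors :=
    Nat.primeFactors_mono (Nat.dvd_mul_right _ _) hZZD
  have hprod : ∀ U : Finset ℕ, U ⊆ (Z1 * Z2 * D).primeFactors → ∏ p ∈ U, (p : ℝ) ≤ r := by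
    intro U hU
    have h1 : ∏ p ∈ U, p ≤ r :=
      Finset.prod_le_prod_of_subset_of_one_le' hU fun p hp _ =>
        (Nat.prime_of_mem_primeFactors hp).one_lt.le
    rw [← Nat.cast_prod]
    exact_mod_cast h1
  have hR0 : 0 ≤ Real.log r := Real.log_nonneg hr1
  set L0 : ℝ := Real.exp Λ with hL0
  have hL1 : 1 ≤ L0 := Real.one_le_exp hΛ
  set Y : ℝ := max (Real.log r) L0 with hY
  have hYr : Real.log r ≤ Y := le_max_left _ _
  have hYL : L0 ≤ Y := le_max_right _ _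
  have hY1 : 1 ≤ Y := hL1.trans hYL
  have hYsum : Y ≤ Real.log r + L0 := max_le (by linarith) (by linarith)
  have hDR : (0 : ℝ) < D := by exact_mod_cast hD
  have hlD : 0 ≤ Real.log (D : ℝ) := Real.log_natCast_nonneg D
  -- size of `Y`
  have hlogr : Real.log r ≤ (r : ℝ) ^ (ε / 4) / (ε / 4) := Real.log_le_rpow_div hr0.le (by positivity)
  have hra : (1 : ℝ) ≤ (r : ℝ) ^ (ε / 4) := Real.one_le_rpow hr1 (by positivity)
  have h4Y : 4 * Y ≤ (16 / ε + 4 * L0) * (r : ℝ) ^ (ε / 4) := by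
    have e1 : (r : ℝ) ^ (ε / 4) / (ε / 4) = 4 / ε * (r : ℝ) ^ (ε / 4) := by field_simp
    rw [e1] at hlogr
    have e2 : L0 ≤ L0 * (r : ℝ) ^ (ε / 4) := le_mul_of_one_le_right (by linarith) hra
    have e3 : (16 / ε + 4 * L0) * (r : ℝ) ^ (ε / 4) =
        4 * (4 / ε * (r : ℝ) ^ (ε / 4)) + 4 * (L0 * (r : ℝ) ^ (ε / 4)) := by ring
    rw [e3]
    linarith
  have hQ1 : (1 : ℝ) ≤ Q := by
    refine le_trans ?_ hQ
    rw [le_div_iff₀ hε]
    linarith
  have hQ0 : (0 : ℝ) < Q := by linarith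
  set W : ℕ := ⌈(Q : ℝ) ^ (8 / ε)⌉₊ with hW
  have hQpow : (1 : ℝ) ≤ (Q : ℝ) ^ (2 * W + 2) := one_le_pow₀ hQ1
  have hB2 : (1 : ℝ) ≤ B ^ 2 := one_le_pow₀ hB
  have hexp4 : 1 ≤ Real.exp (L0 / 4) := Real.one_le_exp (by positivity)
  have hsplit : (r : ℝ) ^ ε = (r : ℝ) ^ (ε / 4) * ((r : ℝ) ^ (ε / 4) * (r : ℝ) ^ (ε / 4) *
      (r : ℝ) ^ (ε / 4)) := by
    rw [← Real.rpow_add hr0, ← Real.rpow_add hr0, ← Real.rpow_add hr0]
    congr 1
    ring
  set N : ℕ := ⌊Real.log D / (2 * Y)⌋₊ with hN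
  have hNle : (N : ℝ) * (2 * Y) ≤ Real.log D := by
    have h1 : (N : ℝ) ≤ Real.log D / (2 * Y) := Nat.floor_le (by positivity)
    rwa [le_div_iff₀ (by positivity)] at h1
  have hNlt : Real.log D < (N + 1) * (2 * Y) := by
    have h1 : Real.log D / (2 * Y) < N + 1 := Nat.lt_floor_add_one _
    rwa [div_lt_iff₀ (by positivity)] at h1
  set K : ℝ := B ^ 2 * (Q : ℝ) ^ (2 * W + 2) * Real.exp (L0 / 4) with hK
  have hK1 : 1 ≤ K := by
    rw [hK]
    exact one_le_mul_of_one_le_of_one_le (one_le_mul_of_one_le_of_one_le hB2 hQpow) hexp4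
  -- it is enough to bound `N + 1`
  have hfin : (N : ℝ) + 1 ≤ 2 * (K * ((r : ℝ) ^ (ε / 4) * (r : ℝ) ^ (ε / 4) *
      (r : ℝ) ^ (ε / 4))) → Real.log D ≤ (16 / ε + 4 * L0) * B ^ 2 * (Q : ℝ) ^ (2 * W + 2) *
      Real.exp (L0 / 4) * (r : ℝ) ^ ε := by
    intro h1
    calc Real.log D ≤ (N + 1) * (2 * Y) := hNlt.le
      _ ≤ (2 * (K * ((r : ℝ) ^ (ε / 4) * (r : ℝ) ^ (ε / 4) * (r : ℝ) ^ (ε / 4)))) * (2 * Y) :=
          mul_le_mul_of_nonneg_right h1 (by positivity)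
      _ = (4 * Y) * (K * ((r : ℝ) ^ (ε / 4) * (r : ℝ) ^ (ε / 4) * (r : ℝ) ^ (ε / 4))) := by ring
      _ ≤ ((16 / ε + 4 * L0) * (r : ℝ) ^ (ε / 4)) *
          (K * ((r : ℝ) ^ (ε / 4) * (r : ℝ) ^ (ε / 4) * (r : ℝ) ^ (ε / 4))) :=
          mul_le_mul_of_nonneg_right h4Y (by positivity)
      _ = _ := by
        rw [hsplit, hK]
        ring
  have hr3 : (1 : ℝ) ≤ (r : ℝ) ^ (ε / 4) * (r : ℝ) ^ (ε / 4) * (r : ℝ) ^ (ε / 4) :=
    one_le_mul_of_one_le_of_one_le (one_le_mul_of_one_le_of_one_le hra hra) hra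
  have hKr : 1 ≤ K * ((r : ℝ) ^ (ε / 4) * (r : ℝ) ^ (ε / 4) * (r : ℝ) ^ (ε / 4)) :=
    one_le_mul_of_one_le_of_one_le hK1 hr3
  apply hfin
  rcases Nat.eq_zero_or_pos N with hN0 | hNpos
  · rw [hN0]
    push_cast
    linarith
  have hN1 : (1 : ℝ) ≤ N := by exact_mod_cast hNpos
  obtain ⟨E, hE0, hEdvd, hEle⟩ := root_part D N hD hNpos
  have hE0R : (0 : ℝ) < E := by exact_mod_cast hE0
  have hradD : (0 : ℝ) < ((∏ p ∈ D.primeFactors, p : ℕ) : ℝ) := by
    have : 0 < ∏ p ∈ D.primeFactors, p :=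
      Finset.prod_pos fun p hp => (Nat.prime_of_mem_primeFactors hp).pos
    exact_mod_cast this
  have hlradD : Real.log ((∏ p ∈ D.primeFactors, p : ℕ) : ℝ) ≤ Y := by
    refine le_trans (Real.log_le_log hradD ?_) hYr
    have := hprod _ hDsub
    rwa [← Nat.cast_prod] at this
  have hlogD1 : Real.log D ≤ N * Real.log E + N * Real.log ((∏ p ∈ D.primeFactors, p : ℕ) : ℝ) := by
    have h1 : (D : ℝ) ≤ (E : ℝ) ^ N * ((∏ p ∈ D.primeFactors, p : ℕ) : ℝ) ^ N := by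
      exact_mod_cast hEle
    have h2 := Real.log_le_log hDR h1
    rwa [Real.log_mul (by positivity) (by positivity), Real.log_pow, Real.log_pow] at h2
  have hlogD2 : N * Real.log E ≤ Real.log D := by
    have h1 : ((E ^ N : ℕ) : ℝ) ≤ D := by exact_mod_cast Nat.le_of_dvd hD hEdvd
    have h2 := Real.log_le_log (by positivity) h1
    push_cast at h2
    rwa [Real.log_pow] at h2
  have hhalf : Real.log D ≤ 2 * (N * Real.log E) := by
    have h1 : N * Real.log ((∏ p ∈ D.primeFactors, p : ℕ) : ℝ) ≤ N * Y :=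
      mul_le_mul_of_nonneg_left hlradD (by positivity)
    linarith
  have hYE : Y ≤ Real.log E := by
    have h1 : N * Y ≤ N * Real.log E := by linarith
    exact le_of_mul_le_mul_left h1 (by linarith)
  have hE4Y : Real.log E ≤ 4 * Y := by
    have h1 : N * Real.log E ≤ N * (4 * Y) := by
      have h2 : ((N : ℝ) + 1) * (2 * Y) ≤ (2 * N) * (2 * Y) :=
        mul_le_mul_of_nonneg_right (by linarith) (by positivity)
      have h3 : (2 * (N : ℝ)) * (2 * Y) = N * (4 * Y) := by ring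
      linarith
    exact le_of_mul_le_mul_left h1 (by linarith)
  have hE2 : 2 ≤ E := by
    by_contra hc
    have h1 : E = 1 := by omega
    rw [h1] at hYE
    simp at hYE
    linarith
  have hlE0 : 0 ≤ Real.log (E : ℝ) := Real.log_natCast_nonneg E
  have hh : Real.log (max Z1 Z2 : ℕ) ≤ 2 / δ * (N * Real.log E) := by
    rw [div_mul_eq_mul_div, le_div_iff₀ hδ]
    linarith
  have hl1 : Real.log Z1 ≤ 2 / δ * (N * Real.log E) := le_trans
    (Real.log_le_log (by exact_mod_cast hZ1) (by exact_mod_cast le_max_left Z1 Z2)) hh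
  have hl2 : Real.log Z2 ≤ 2 / δ * (N * Real.log E) := le_trans
    (Real.log_le_log (by exact_mod_cast hZ2) (by exact_mod_cast le_max_right Z1 Z2)) hh
  have hrE : (r : ℝ) ≤ E := by
    rw [← Real.log_le_log_iff hr0 hE0R]
    exact hYr.trans hYE
  have hmain := hS (E : ℝ) Q E N Z1 Z2 s hE2 hZ1 hZ2 hcop hs hne
    ((Int.natCast_dvd_natCast.2 hEdvd).trans hdvd) hl1 hl2 ((hprod _ hZsub).trans hrE) le_rfl
    (by
      have h1 : 200 ≤ Q * (ε / 32) := by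
        rw [div_le_iff₀ hε] at hQ
        linarith
      calc 200 * Real.log E ≤ (Q * (ε / 32)) * Real.log E :=
            mul_le_mul_of_nonneg_right h1 hlE0
        _ = _ := by ring)
    (by
      have h1 := Real.log_le_log (Real.exp_pos Λ) (hYL.trans hYE)
      rwa [Real.log_exp] at h1)
  -- the factors
  set n0 : ℕ := (Z1 * Z2).primeFactors.card with hn0
  have hQn : (Q : ℝ) ^ (n0 + 1) ≤ (Q : ℝ) ^ (W + 1) * (r : ℝ) ^ (ε / 8) := by
    have h1 := pow_card_d (Q : ℝ) (ε / 8) hQ1 (by positivity) (Z1 * Z2).primeFactors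
      (fun p hp => Nat.prime_of_mem_primeFactors hp)
    rw [← hn0, show 1 / (ε / 8) = 8 / ε by field_simp, ← hW] at h1
    have h2 : (∏ p ∈ (Z1 * Z2).primeFactors, (p : ℝ)) ^ (ε / 8) ≤ (r : ℝ) ^ (ε / 8) :=
      Real.rpow_le_rpow (Finset.prod_nonneg fun p _ => Nat.cast_nonneg p) (hprod _ hZsub)
        (by positivity)
    calc (Q : ℝ) ^ (n0 + 1) = (Q : ℝ) ^ n0 * Q := pow_succ _ _
      _ ≤ ((Q : ℝ) ^ W * (r : ℝ) ^ (ε / 8)) * Q := by
        apply mul_le_mul_of_nonneg_right _ hQ0.le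
        exact h1.trans (mul_le_mul_of_nonneg_left h2 (by positivity))
      _ = _ := by rw [pow_succ]; ring
  have hEν : (E : ℝ) ^ (ε / 32) ≤ (r : ℝ) ^ (ε / 8) * Real.exp (L0 / 8) := by
    rw [Real.rpow_def_of_pos hE0R, Real.rpow_def_of_pos hr0, ← Real.exp_add, Real.exp_le_exp]
    have h1 : Real.log E * (ε / 32) ≤ (4 * (Real.log r + L0)) * (ε / 32) := by
      apply mul_le_mul_of_nonneg_right _ (by positivity)
      linarith
    have h2 : (4 * (Real.log r + L0)) * (ε / 32) = Real.log r * (ε / 8) + L0 * ε / 8 := by ring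
    have h3 : L0 * ε / 8 ≤ L0 / 8 := by
      have : L0 * ε ≤ L0 * 1 := mul_le_mul_of_nonneg_left hε1 (by linarith)
      linarith
    linarith
  have hr8 : (r : ℝ) ^ (ε / 8) * (r : ℝ) ^ (ε / 8) = (r : ℝ) ^ (ε / 4) := by
    rw [← Real.rpow_add hr0]
    congr 1
    ring
  have hr80 : 0 ≤ (r : ℝ) ^ (ε / 8) := by positivity
  have hNb : (N : ℝ) ≤ K * ((r : ℝ) ^ (ε / 4) * (r : ℝ) ^ (ε / 4)) := by
    calc (N : ℝ) ≤ (B * (Q : ℝ) ^ (n0 + 1) * (E : ℝ) ^ (ε / 32)) ^ 2 := hmain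
      _ ≤ (B * ((Q : ℝ) ^ (W + 1) * (r : ℝ) ^ (ε / 8)) *
          ((r : ℝ) ^ (ε / 8) * Real.exp (L0 / 8))) ^ 2 := by gcongr
      _ = B ^ 2 * ((Q : ℝ) ^ (W + 1)) ^ 2 * (Real.exp (L0 / 8)) ^ 2 *
          (((r : ℝ) ^ (ε / 8) * (r : ℝ) ^ (ε / 8)) * ((r : ℝ) ^ (ε / 8) * (r : ℝ) ^ (ε / 8))) := by
          ring
      _ = K * ((r : ℝ) ^ (ε / 4) * (r : ℝ) ^ (ε / 4)) := by
        have e1 : ((Q : ℝ) ^ (W + 1)) ^ 2 = (Q : ℝ) ^ (2 * W + 2) := by
          rw [← pow_mul]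
          congr 1
          ring
        have e2 : (Real.exp (L0 / 8)) ^ 2 = Real.exp (L0 / 4) := by
          rw [← Real.exp_nat_mul]
          congr 1
          push_cast
          ring
        rw [hr8, e1, e2, hK]
  have hNb2 : (N : ℝ) ≤ K * ((r : ℝ) ^ (ε / 4) * (r : ℝ) ^ (ε / 4) * (r : ℝ) ^ (ε / 4)) := by
    refine hNb.trans ?_
    have h1 : 0 ≤ (r : ℝ) ^ (ε / 4) * (r : ℝ) ^ (ε / 4) := by positivity
    have h2 : (r : ℝ) ^ (ε / 4) * (r : ℝ) ^ (ε / 4) ≤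
        (r : ℝ) ^ (ε / 4) * (r : ℝ) ^ (ε / 4) * (r : ℝ) ^ (ε / 4) :=
      le_mul_of_one_le_right h1 hra
    exact mul_le_mul_of_nonneg_left h2 (by linarith)
  linarith

theorem sat_of (C0 : ℕ) (hS : ThmSqD C0) (A ν : ℝ) (hA : 1 ≤ A) (hν : 0 < ν) (hν2 : ν ≤ 1 / 2) :
    SAt A ν (C0 / ν * (1 + Real.log (A / ν)) ^ 3) ((C0 * A / ν) ^ C0) := by
  intro T Q p u Z1 Z2 s hp hZ1 hZ2 hcop hs hne hdvd hl1 hl2 hT hpT hQ hΛ
  exact hS A ν T Q p u Z1 Z2 s hA hν hν2 hp hZ1 hZ2 hcop hs hne hdvd hl1 hl2 hT hpT hQ hΛ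

/-- The constants of the Ridout form. -/
theorem ridout_const (C0 : ℕ) (h0 : 1 ≤ C0) (ε δ : ℝ) (hε : 0 < ε) (hε1 : ε ≤ 1) (hδ : 0 < δ)
    (hδ1 : δ ≤ 1) (Q : ℕ) (hQ1 : 1 ≤ Q) (hQ : (Q : ℝ) ≤ 6401 / ε) (Λ B : ℝ)
    (hΛ : Λ = C0 / (ε / 32) * (1 + Real.log (2 / δ / (ε / 32))) ^ 3)
    (hB : B = (C0 * (2 / δ) / (ε / 32)) ^ C0) :
    (16 / ε + 4 * Real.exp Λ) * B ^ 2 * (Q : ℝ) ^ (2 * ⌈(Q : ℝ) ^ (8 / ε)⌉₊ + 2) *
      Real.exp (Real.exp Λ / 4) ≤
    Real.exp (Real.exp ((6912 * C0 + 2 * C0 * (6 + C0) + 100) / ε *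
      (1 + Real.log (1 / (ε * δ))) ^ 3)) := by
  have hc0 : (1 : ℝ) ≤ C0 := by exact_mod_cast h0
  have hεδ : 0 < ε * δ := mul_pos hε hδ
  have hεδ1 : ε * δ ≤ 1 := mul_le_one₀ hε1 hδ.le hδ1
  set ℓ : ℝ := Real.log (1 / (ε * δ)) with hℓ
  have hℓ0 : 0 ≤ ℓ := Real.log_nonneg (by rw [le_div_iff₀ hεδ]; linarith)
  set lam : ℝ := 1 + ℓ with hlam
  have hlam1 : 1 ≤ lam := by linarith
  set M : ℝ := lam ^ 3 / ε with hM
  have hlam3 : lam ≤ lam ^ 3 := by
    calc lam = lam ^ 1 := (pow_one _).symm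
      _ ≤ lam ^ 3 := pow_le_pow_right₀ hlam1 (by norm_num)
  have hM3 : lam ^ 3 ≤ M := by
    rw [hM, le_div_iff₀ hε]
    have : lam ^ 3 * ε ≤ lam ^ 3 * 1 := mul_le_mul_of_nonneg_left hε1 (by positivity)
    linarith
  have hMlam : lam ≤ M := hlam3.trans hM3
  have hM1 : 1 ≤ M := hlam1.trans hMlam
  have hMe : 1 / ε ≤ M := by
    rw [hM]
    gcongr
    exact one_le_pow₀ hlam1
  have hMle : lam / ε ≤ M := by
    rw [hM]
    gcongr
  have hlog2 := Real.log_two_lt_d9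
  have hlog64 : Real.log 64 ≤ 5 := by
    have : (64 : ℝ) = 2 ^ 6 := by norm_num
    rw [this, Real.log_pow]
    push_cast
    linarith
  have hlog8192 : Real.log 8192 ≤ 10 := by
    have : (8192 : ℝ) = 2 ^ 13 := by norm_num
    rw [this, Real.log_pow]
    push_cast
    linarith
  have hlA : Real.log (2 / δ / (ε / 32)) = Real.log 64 + ℓ := by
    rw [hℓ, ← Real.log_mul (by norm_num) (by positivity)]
    congr 1
    field_simp
    ring
  -- the threshold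
  have hΛM : Λ ≤ 6912 * C0 * M := by
    rw [hΛ, hlA]
    have e1 : 1 + (Real.log 64 + ℓ) ≤ 6 * lam := by linarith
    have e0 : 0 ≤ 1 + (Real.log 64 + ℓ) := by
      have : 0 ≤ Real.log 64 := Real.log_nonneg (by norm_num)
      linarith
    calc C0 / (ε / 32) * (1 + (Real.log 64 + ℓ)) ^ 3 ≤ C0 / (ε / 32) * (6 * lam) ^ 3 := by
          gcongr
      _ = 6912 * C0 * M := by
        rw [hM]
        field_simp
        ring
  have hexp3 : (20 : ℝ) ≤ Real.exp 4 := by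
    have h1 : (2.7 : ℝ) ≤ Real.exp 1 := by
      have := Real.exp_one_gt_d9
      linarith
    have h2 : Real.exp 4 = Real.exp 1 ^ 4 := by
      rw [← Real.exp_nat_mul]
      congr 1
      norm_num
    rw [h2]
    calc (20 : ℝ) ≤ 2.7 ^ 4 := by norm_num
      _ ≤ Real.exp 1 ^ 4 := by gcongr
  have hexp5 : (66 : ℝ) ≤ Real.exp 5 := by
    have h1 : (2.7 : ℝ) ≤ Real.exp 1 := by
      have := Real.exp_one_gt_d9
      linarith
    have h2 : Real.exp 5 = Real.exp 1 ^ 5 := by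
      rw [← Real.exp_nat_mul]
      congr 1
      norm_num
    rw [h2]
    calc (66 : ℝ) ≤ 2.7 ^ 5 := by norm_num
      _ ≤ Real.exp 1 ^ 5 := by gcongr
  have hexpΛ : Real.exp Λ ≤ Real.exp (6912 * C0 * M) := Real.exp_le_exp.2 hΛM
  have hcM : M ≤ 6912 * C0 * M := by nlinarith
  have hx : ∀ x : ℝ, x ≤ Real.exp x := fun x => by linarith [Real.add_one_le_exp x]
  have F1 : 16 / ε + 4 * Real.exp Λ ≤ Real.exp (Real.exp ((6912 * C0 + 4) * M)) := by
    have e1 : 16 / ε ≤ 16 * Real.exp (6912 * C0 * M) := by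
      have : 16 / ε = 16 * (1 / ε) := by ring
      rw [this]
      have := hx (6912 * C0 * M)
      linarith
    have e2 : 16 / ε + 4 * Real.exp Λ ≤ 20 * Real.exp (6912 * C0 * M) := by linarith
    calc 16 / ε + 4 * Real.exp Λ ≤ 20 * Real.exp (6912 * C0 * M) := e2
      _ ≤ Real.exp 4 * Real.exp (6912 * C0 * M) := by gcongr
      _ = Real.exp (6912 * C0 * M + 4) := by rw [← Real.exp_add]; ring_nf
      _ ≤ Real.exp ((6912 * C0 + 4) * M) := Real.exp_le_exp.2 (by linarith)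
      _ ≤ Real.exp (Real.exp ((6912 * C0 + 4) * M)) := Real.exp_le_exp.2 (hx _)
  have hBpos : 0 < C0 * (2 / δ) / (ε / 32) := by positivity
  have hB0 : 0 < B := by rw [hB]; positivity
  have F2 : B ^ 2 ≤ Real.exp (Real.exp (2 * C0 * (6 + C0) * M)) := by
    have e1 : Real.log (B ^ 2) = 2 * (C0 * (Real.log C0 + (Real.log 64 + ℓ))) := by
      rw [Real.log_pow, hB, Real.log_pow, mul_div_assoc, Real.log_mul (by positivity)
        (by positivity), hlA]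
      push_cast
      ring
    have e2 : Real.log C0 ≤ C0 := (Real.log_le_sub_one_of_pos (by linarith)).trans (by linarith)
    have e3 : Real.log (B ^ 2) ≤ 2 * C0 * (6 + C0) * M := by
      rw [e1]
      have h1 : Real.log C0 + (Real.log 64 + ℓ) ≤ (6 + C0) * lam := by
        have : (C0 : ℝ) ≤ C0 * lam := le_mul_of_one_le_right (by linarith) hlam1
        linarith
      have h2 : (6 + (C0 : ℝ)) * lam ≤ (6 + C0) * M := by gcongr
      calc 2 * (C0 * (Real.log C0 + (Real.log 64 + ℓ))) ≤ 2 * (C0 * ((6 + C0) * M)) := by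
            gcongr
            exact h1.trans h2
        _ = _ := by ring
    calc B ^ 2 = Real.exp (Real.log (B ^ 2)) := (Real.exp_log (by positivity)).symm
      _ ≤ Real.exp (Real.exp (2 * C0 * (6 + C0) * M)) :=
        Real.exp_le_exp.2 (e3.trans (hx _))
  have hQR1 : (1 : ℝ) ≤ Q := by exact_mod_cast hQ1
  have hQ0 : (0 : ℝ) < Q := by linarith
  have hlQ : Real.log Q ≤ 11 * lam := by
    have e1 : (Q : ℝ) ≤ 8192 * (1 / (ε * δ)) := by
      refine hQ.trans ?_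
      have h1 : 1 / ε ≤ 1 / (ε * δ) := by
        apply one_div_le_one_div_of_le hεδ
        calc ε * δ ≤ ε * 1 := mul_le_mul_of_nonneg_left hδ1 hε.le
          _ = ε := mul_one _
      have h2 : 6401 / ε = 6401 * (1 / ε) := by ring
      have h3 : 0 < 1 / ε := by positivity
      rw [h2]
      linarith
    have e2 := Real.log_le_log hQ0 e1
    rw [Real.log_mul (by norm_num) (by positivity)] at e2
    linarith
  have hlQ0 : 0 ≤ Real.log Q := Real.log_nonneg hQR1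
  have F3 : (Q : ℝ) ^ (2 * ⌈(Q : ℝ) ^ (8 / ε)⌉₊ + 2) ≤ Real.exp (Real.exp (94 * M)) := by
    have e1 : (Q : ℝ) ^ (8 / ε) ≤ Real.exp (88 * M) := by
      rw [Real.rpow_def_of_pos hQ0, Real.exp_le_exp]
      calc Real.log Q * (8 / ε) ≤ (11 * lam) * (8 / ε) := by gcongr
        _ = 88 * (lam / ε) := by ring
        _ ≤ 88 * M := by gcongr
    have e2 : (1 : ℝ) ≤ Real.exp (88 * M) := Real.one_le_exp (by positivity)
    have e3 : ((⌈(Q : ℝ) ^ (8 / ε)⌉₊ : ℕ) : ℝ) ≤ 2 * Real.exp (88 * M) := by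
      have h1 : ((⌈(Q : ℝ) ^ (8 / ε)⌉₊ : ℕ) : ℝ) < (Q : ℝ) ^ (8 / ε) + 1 :=
        Nat.ceil_lt_add_one (by positivity)
      linarith
    have e4 : Real.log ((Q : ℝ) ^ (2 * ⌈(Q : ℝ) ^ (8 / ε)⌉₊ + 2)) ≤ Real.exp (94 * M) := by
      rw [Real.log_pow]
      push_cast
      have h1 : 2 * ((⌈(Q : ℝ) ^ (8 / ε)⌉₊ : ℕ) : ℝ) + 2 ≤ 6 * Real.exp (88 * M) := by linarith
      have h2 : Real.log Q ≤ 11 * Real.exp M := by
        have := hx M
        linarith
      calc (2 * ((⌈(Q : ℝ) ^ (8 / ε)⌉₊ : ℕ) : ℝ) + 2) * Real.log Q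
          ≤ (6 * Real.exp (88 * M)) * (11 * Real.exp M) := by gcongr
        _ = 66 * Real.exp (89 * M) := by
          rw [show 89 * M = 88 * M + M by ring, Real.exp_add]
          ring
        _ ≤ Real.exp 5 * Real.exp (89 * M) := by
          apply mul_le_mul_of_nonneg_right hexp5 (by positivity)
        _ = Real.exp (89 * M + 5) := by rw [← Real.exp_add]; ring_nf
        _ ≤ Real.exp (94 * M) := Real.exp_le_exp.2 (by linarith)
    calc (Q : ℝ) ^ (2 * ⌈(Q : ℝ) ^ (8 / ε)⌉₊ + 2)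
        = Real.exp (Real.log ((Q : ℝ) ^ (2 * ⌈(Q : ℝ) ^ (8 / ε)⌉₊ + 2))) :=
          (Real.exp_log (by positivity)).symm
      _ ≤ Real.exp (Real.exp (94 * M)) := Real.exp_le_exp.2 e4
  have F4 : Real.exp (Real.exp Λ / 4) ≤ Real.exp (Real.exp (6912 * C0 * M)) := by
    rw [Real.exp_le_exp]
    have : 0 < Real.exp Λ := Real.exp_pos _
    linarith
  have hge4 : (4 : ℝ) ≤ Real.exp 2 := by
    have h1 : (2 : ℝ) ≤ Real.exp 1 := by
      have := Real.exp_one_gt_d9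
      linarith
    have h2 : Real.exp 2 = Real.exp 1 ^ 2 := by
      rw [← Real.exp_nat_mul]
      congr 1
      norm_num
    rw [h2]
    calc (4 : ℝ) ≤ 2 ^ 2 := by norm_num
      _ ≤ Real.exp 1 ^ 2 := by gcongr
  set c : ℝ := 6912 * C0 + 2 * C0 * (6 + C0) + 98 with hc
  have hC0sq : 0 ≤ 2 * (C0 : ℝ) * (6 + C0) := by positivity
  have G1 : Real.exp ((6912 * C0 + 4) * M) ≤ Real.exp (c * M) := by
    rw [Real.exp_le_exp]
    apply mul_le_mul_of_nonneg_right _ (by linarith)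
    rw [hc]
    linarith
  have G2 : Real.exp (2 * C0 * (6 + C0) * M) ≤ Real.exp (c * M) := by
    rw [Real.exp_le_exp]
    apply mul_le_mul_of_nonneg_right _ (by linarith)
    rw [hc]
    linarith
  have G3 : Real.exp (94 * M) ≤ Real.exp (c * M) := by
    rw [Real.exp_le_exp]
    apply mul_le_mul_of_nonneg_right _ (by linarith)
    rw [hc]
    linarith
  have G4 : Real.exp (6912 * C0 * M) ≤ Real.exp (c * M) := by
    rw [Real.exp_le_exp]
    apply mul_le_mul_of_nonneg_right _ (by linarith)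
    rw [hc]
    linarith
  have hcexp : (6912 * C0 + 2 * C0 * (6 + C0) + 100) / ε * lam ^ 3 = (c + 2) * M := by
    rw [hM, hc]
    field_simp
    ring
  rw [hcexp]
  calc (16 / ε + 4 * Real.exp Λ) * B ^ 2 * (Q : ℝ) ^ (2 * ⌈(Q : ℝ) ^ (8 / ε)⌉₊ + 2) *
      Real.exp (Real.exp Λ / 4)
      ≤ Real.exp (Real.exp ((6912 * C0 + 4) * M)) * Real.exp (Real.exp (2 * C0 * (6 + C0) * M)) *
        Real.exp (Real.exp (94 * M)) * Real.exp (Real.exp (6912 * C0 * M)) := by gcongr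
    _ = Real.exp (Real.exp ((6912 * C0 + 4) * M) + Real.exp (2 * C0 * (6 + C0) * M) +
        Real.exp (94 * M) + Real.exp (6912 * C0 * M)) := by
        rw [Real.exp_add, Real.exp_add, Real.exp_add]
    _ ≤ Real.exp (4 * Real.exp (c * M)) := Real.exp_le_exp.2 (by linarith)
    _ ≤ Real.exp (Real.exp 2 * Real.exp (c * M)) := by
        apply Real.exp_le_exp.2
        exact mul_le_mul_of_nonneg_right hge4 (Real.exp_pos _).le
    _ = Real.exp (Real.exp (2 + c * M)) := by rw [Real.exp_add]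
    _ ≤ Real.exp (Real.exp ((c + 2) * M)) := by
        apply Real.exp_le_exp.2
        apply Real.exp_le_exp.2
        linarith

/-- **The Ridout form, explicit**, from Theorem S with an arbitrary modulus. -/
theorem ridoutQ_of (C0 : ℕ) (h0 : 1 ≤ C0) (hS : ThmSqD C0) : ∃ C : ℝ, 1 ≤ C ∧ RidoutQ C := by
  have hc0 : (1 : ℝ) ≤ C0 := by exact_mod_cast h0
  refine ⟨6912 * C0 + 2 * C0 * (6 + C0) + 100, ?_, ?_⟩
  · have : 0 ≤ 2 * (C0 : ℝ) * (6 + C0) := by positivity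
    linarith
  intro ε δ hε hε1 hδ hδ1 Z1 Z2 D s hZ1 hZ2 hcop hs hne hD hdvd
  have hrad0 : 0 ≤ ((∏ p ∈ (Z1 * Z2 * D).primeFactors, p : ℕ) : ℝ) ^ ε := by positivity
  rcases le_or_gt (Real.log D) (δ * Real.log (max Z1 Z2 : ℕ)) with h | hlarge
  · have : 0 ≤ Real.exp (Real.exp ((6912 * C0 + 2 * C0 * (6 + C0) + 100) / ε *
        (1 + Real.log (1 / (ε * δ))) ^ 3)) *
        ((∏ p ∈ (Z1 * Z2 * D).primeFactors, p : ℕ) : ℝ) ^ ε := by positivity
    linarith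
  set Λ : ℝ := C0 / (ε / 32) * (1 + Real.log (2 / δ / (ε / 32))) ^ 3 with hΛ
  set B : ℝ := (C0 * (2 / δ) / (ε / 32)) ^ C0 with hB
  have h2δ : 1 ≤ 2 / δ := by rw [le_div_iff₀ hδ]; linarith
  have hratio : 1 ≤ 2 / δ / (ε / 32) := by
    rw [le_div_iff₀ (by positivity)]
    linarith
  have hΛ0 : 0 ≤ Λ := by
    have : 0 ≤ Real.log (2 / δ / (ε / 32)) := Real.log_nonneg hratio
    positivity
  have hB1 : 1 ≤ B := by
    rw [hB]
    apply one_le_pow₀
    rw [mul_div_assoc]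
    exact one_le_mul_of_one_le_of_one_le hc0 hratio
  set Q : ℕ := ⌈6400 / ε⌉₊ with hQ
  have hQl : 6400 / ε ≤ Q := Nat.le_ceil _
  have hQu : (Q : ℝ) ≤ 6401 / ε := by
    have h1 : (Q : ℝ) < 6400 / ε + 1 := Nat.ceil_lt_add_one (by positivity)
    have h2 : 1 ≤ 1 / ε := by rw [le_div_iff₀ hε]; linarith
    have h3 : 6401 / ε = 6400 / ε + 1 / ε := by ring
    linarith
  have hQ1 : 1 ≤ Q := Nat.one_le_iff_ne_zero.2 (by
    intro h
    have h1 : 0 < 6400 / ε := by positivity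
    rw [h] at hQl
    push_cast at hQl
    linarith)
  have hcore := ridout_core ε δ Λ B hε hε1 hδ hΛ0 hB1
    (sat_of C0 hS (2 / δ) (ε / 32) h2δ (by positivity) (by linarith)) Q hQl Z1 Z2 D s hZ1 hZ2
    hcop hs hne hD hdvd hlarge
  have hconst := ridout_const C0 h0 ε δ hε hε1 hδ hδ1 Q hQ1 hQu Λ B hΛ hB
  have hfin := hcore.trans (mul_le_mul_of_nonneg_right hconst hrad0)
  have hmax0 : 0 ≤ δ * Real.log (max Z1 Z2 : ℕ) :=
    mul_nonneg hδ.le (Real.log_natCast_nonneg _)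
  linarith

end Pool.Agent.Lib.AbcZQ
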