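import Mathlib
import Pool.Agent.Lib.AbcZQ.DefsQ
import Pool.Agent.Lib.AbcZQ.CoreQZ
import Pool.Agent.Lib.AbcZQ.ParamH51
import Pool.Agent.Lib.AbcZQ.ParamH51b

/-!
# Theorem S, explicit form
-/

namespace Pool.Agent.Lib.AbcZQ

open Finset Pool.Agent.Lib.AbcZ

/-- **Theorem S**, explicit form. -/
theorem thmSq : ∃ C0 : ℕ, 1 ≤ C0 ∧ ThmSq C0 := by
  obtain ⟨X0, hX00, hX0⟩ := prime_dense_q
  obtain ⟨C1, hC1⟩ := exists_nat_ge X0
  refine ⟨2000000 + C1, by omega, ?_⟩
  intro A ν T Q p N Z1 Z2 s hA hν0 hν2 hp h1 h2 hcop hs hne hdvd hZ1 hZ2 hT hpT hTQ hP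
  set C0 : ℕ := 2000000 + C1 with hC0
  have hC0R : (C0 : ℝ) = 2000000 + C1 := by rw [hC0]; push_cast; ring
  have hC1R : (0 : ℝ) ≤ C1 := Nat.cast_nonneg _
  by_contra hcon
  have hcon := not_le.1 hcon
  set n : ℕ := (Z1 * Z2).primeFactors.card with hn
  set x : ℝ := A / ν with hx
  have hx2 : 2 ≤ x := by
    rw [hx, le_div_iff₀ hν0]
    linarith
  have hxν : 1 / ν ≤ x := by
    rw [hx]
    exact div_le_div_of_nonneg_right hA hν0.le
  have hν1 : ν < 1 := by linarith
  have hx0 : 0 < x := by linarith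
  have hνx : ν * x = A := by rw [hx]; field_simp
  have hA0 : 0 < A := by linarith
  have hp2R : (2 : ℝ) ≤ p := by exact_mod_cast hp.two_le
  have hp0R : (0 : ℝ) < p := by linarith
  have hlam0 : 0 < Real.log p := Real.log_pos (by linarith)
  have hT1 : 1 < T := by linarith
  have hlogT : 0 < Real.log T := Real.log_pos hT1
  -- `Q`
  have hQ0 : 0 < Q := by
    rcases Nat.eq_zero_or_pos Q with h | h
    · rw [h] at hTQ
      simp at hTQ
      linarith
    · exact h
  have hQR : (1 : ℝ) ≤ Q := by exact_mod_cast hQ0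
  -- the number of scales
  obtain ⟨sc, hsc1, hsc2, hsc3⟩ := par_s x hx2
  have hscR : (1 : ℝ) ≤ sc := by exact_mod_cast hsc1
  have hlx : Real.log x ≤ x - 1 := Real.log_le_sub_one_of_pos hx0
  have hsc4 : (sc : ℝ) ≤ 9 * x := by linarith
  have hscν : 1 ≤ sc / ν := by
    rw [le_div_iff₀ hν0]
    linarith
  set δ : ℝ := ν / (64 * sc) with hδ
  have hδ0 : 0 < δ := by positivity
  have hδν : δ * (64 * sc) = ν := by rw [hδ]; field_simp
  have hδ1 : δ < 1 := by
    rw [hδ, div_lt_one (by positivity)]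
    linarith
  have hδx : 1 / δ ≤ 576 * x ^ 2 := by
    calc 1 / δ = 64 * sc * (1 / ν) := by rw [hδ]; field_simp
      _ ≤ 64 * (9 * x) * x := by gcongr
      _ = 576 * x ^ 2 := by ring
  set D : ℕ := ⌈512 * (sc / ν)⌉₊ with hD
  have hDa : 512 * (sc / ν) ≤ D := Nat.le_ceil _
  have hDb : (D : ℝ) ≤ 513 * (sc / ν) := by
    have := (Nat.ceil_lt_add_one (a := 512 * ((sc : ℝ) / ν)) (by positivity)).le
    rw [← hD] at this
    linarith
  have hD1 : 1 ≤ D := by
    have : (1 : ℝ) ≤ D := by linarith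
    exact_mod_cast this
  have hDR : (1 : ℝ) ≤ D := by exact_mod_cast hD1
  have hDx : (D : ℝ) ≤ 4617 * x ^ 2 := by
    calc (D : ℝ) ≤ 513 * (sc / ν) := hDb
      _ = 513 * (sc * (1 / ν)) := by ring
      _ ≤ 513 * (9 * x * x) := by gcongr
      _ = _ := by ring
  set q : ℕ := ⌈512 * x * D⌉₊ with hq
  have hqa : 512 * x * D ≤ q := Nat.le_ceil _
  have hxD : 2 ≤ x * D := by
    calc (2 : ℝ) = 2 * 1 := by ring
      _ ≤ x * D := by gcongr
  have hqb : (q : ℝ) ≤ 513 * (x * D) := by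
    have := (Nat.ceil_lt_add_one (a := 512 * x * (D : ℝ)) (by positivity)).le
    rw [← hq] at this
    linarith
  have hqx : (q : ℝ) ≤ 2 ^ 22 * x ^ 3 := by
    calc (q : ℝ) ≤ 513 * (x * D) := hqb
      _ ≤ 513 * (x * (4617 * x ^ 2)) := by gcongr
      _ = 2368521 * x ^ 3 := by ring
      _ ≤ 2 ^ 22 * x ^ 3 := by
          apply mul_le_mul_of_nonneg_right _ (by positivity)
          norm_num
  have hq1R : (1 : ℝ) ≤ q := by linarith
  have hq1 : 1 ≤ q := by exact_mod_cast hq1R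
  have hqx64 : 64 * x ≤ q := by
    calc 64 * x ≤ 512 * x * 1 := by linarith
      _ ≤ 512 * x * D := by gcongr
      _ ≤ q := hqa
  -- the size of `N`
  set Y : ℝ := (C0 * A / ν) ^ C0 * (Q : ℝ) ^ (n + 1) * (p : ℝ) ^ ν with hY
  have hCx : (C0 : ℝ) * A / ν = C0 * x := by rw [hx]; ring
  have hbase : 2 ^ 155 * x ^ 20 ≤ (C0 * A / ν) ^ C0 := by
    rw [hCx]
    have e1 : (2 * x) ^ 200 ≤ ((C0 : ℝ) * x) ^ C0 := by
      calc (2 * x) ^ 200 ≤ ((C0 : ℝ) * x) ^ 200 := by
            gcongr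
            linarith
        _ ≤ ((C0 : ℝ) * x) ^ C0 := by
            apply pow_le_pow_right₀
            · nlinarith
            · omega
    refine le_trans ?_ e1
    rw [mul_pow]
    have e2 : (2 : ℝ) ^ 155 ≤ 2 ^ 200 := pow_le_pow_right₀ (by norm_num) (by norm_num)
    have e3 : x ^ 20 ≤ x ^ 200 := pow_le_pow_right₀ (by linarith) (by norm_num)
    gcongr
  have hbase2 : (C0 : ℝ) ≤ (C0 * A / ν) ^ C0 := by
    rw [hCx]
    have e1 : (C0 : ℝ) ≤ C0 * x := by nlinarith
    exact e1.trans (le_self_pow₀ (by nlinarith) (by omega))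
  have hpν : 1 ≤ (p : ℝ) ^ ν := Real.one_le_rpow (by linarith) hν0.le
  have hQn : 1 ≤ (Q : ℝ) ^ (n + 1) := one_le_pow₀ hQR
  have hQn' : (Q : ℝ) ^ n ≤ (Q : ℝ) ^ (n + 1) := pow_le_pow_right₀ hQR (by omega)
  have hQn'' : (Q : ℝ) ≤ (Q : ℝ) ^ (n + 1) := le_self_pow₀ hQR (by omega)
  have hY1 : (C0 * A / ν) ^ C0 ≤ Y := by
    calc (C0 * A / ν) ^ C0 = (C0 * A / ν) ^ C0 * 1 * 1 := by ring
      _ ≤ Y := by rw [hY]; gcongr
  have hYa : 2 ^ 155 * x ^ 20 * (Q : ℝ) ^ n * (p : ℝ) ^ ν ≤ Y := by rw [hY]; gcongr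
  have hYb : 2 ^ 155 * x ^ 20 ≤ Y := hbase.trans hY1
  have hYc : (C0 : ℝ) ≤ Y := hbase2.trans hY1
  have hYQ : (Q : ℝ) ≤ Y := by
    calc (Q : ℝ) = 1 * Q * 1 := by ring
      _ ≤ (C0 * A / ν) ^ C0 * (Q : ℝ) ^ (n + 1) * (p : ℝ) ^ ν := by
          gcongr
          linarith
  have hY10 : 1 ≤ Y := by linarith
  have hYY : Y * Y < N := by
    have : Y * Y = Y ^ 2 := by ring
    rw [this]; exact hcon
  have hYN : Y ≤ N := by nlinarith
  have hx3 : x ^ 3 ≤ x ^ 20 := pow_le_pow_right₀ (by linarith) (by norm_num)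
  have hx23 : x ^ 2 ≤ x ^ 20 := pow_le_pow_right₀ (by linarith) (by norm_num)
  have hx13 : x ≤ x ^ 20 := le_self_pow₀ (by linarith) (by norm_num)
  have hx03 : 1 ≤ x ^ 20 := one_le_pow₀ (by linarith)
  have hqN : (q : ℝ) ≤ N := by
    refine le_trans ?_ hYN
    refine le_trans ?_ hYb
    have e2 : (2 : ℝ) ^ 22 ≤ 2 ^ 155 := pow_le_pow_right₀ (by norm_num) (by norm_num)
    exact hqx.trans (by gcongr)
  have hqN' : q ≤ N := by exact_mod_cast hqN
  have hNx : 1000 * x ≤ N := by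
    refine le_trans ?_ hYN
    refine le_trans ?_ hYb
    have e2 : (1000 : ℝ) ≤ 2 ^ 155 := by norm_num
    gcongr
  have hN1000 : (1000 : ℝ) ≤ N := by nlinarith
  have hN5 : 5 ≤ N := by
    have : (5 : ℝ) ≤ N := by linarith
    exact_mod_cast this
  have hNpos : 0 < N := by omega
  have hNR : (0 : ℝ) < N := by exact_mod_cast hNpos
  have hXN : X0 ≤ δ * N := by
    have e1 : X0 * (576 * x ^ 2) ≤ N := by
      calc X0 * (576 * x ^ 2) ≤ Y * Y := by
            apply mul_le_mul _ _ (by positivity) (by linarith)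
            · linarith
            · refine le_trans ?_ hYb
              have e2 : (576 : ℝ) ≤ 2 ^ 155 := by norm_num
              gcongr
        _ ≤ N := hYY.le
    calc X0 = X0 * (1 / δ) * δ := by field_simp
      _ ≤ X0 * (576 * x ^ 2) * δ := by gcongr
      _ ≤ N * δ := by gcongr
      _ = δ * N := mul_comm _ _
  have hQN : (Q : ℝ) ≤ N := hYQ.trans hYN
  have hνN : 1000 ≤ ν * N := by
    calc (1000 : ℝ) ≤ 1000 * A := by linarith
      _ = ν * (1000 * x) := by rw [← hνx]; ring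
      _ ≤ ν * N := by gcongr
  have hνN1 : ν * N ≤ N := by
    calc ν * N ≤ 1 * N := by gcongr
      _ = N := one_mul _
  -- `R`
  obtain ⟨R, hR3, hRa, hRb⟩ := par_R δ N q hδ0 hδ1.le (by omega) hq1
  -- `H`
  have hPκ1 : 1 ≤ (p : ℝ) ^ (1 - ν) := Real.one_le_rpow (by linarith) (by linarith)
  set H : ℕ := ⌊(p : ℝ) ^ (1 - ν)⌋₊ with hH
  have hH1 : 1 ≤ H := by
    rw [hH, Nat.one_le_floor_iff]
    exact hPκ1
  have hHle : (H : ℝ) ≤ (p : ℝ) ^ (1 - ν) := Nat.floor_le (by positivity)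
  have hH1R : (1 : ℝ) ≤ H := by exact_mod_cast hH1
  have hHlog : Real.log H ≤ (1 - ν) * Real.log p := by
    have h3 := Real.log_le_log (by linarith) hHle
    rwa [Real.log_rpow hp0R] at h3
  have hHp : H < p := by
    have h3 : (p : ℝ) ^ (1 - ν) < (p : ℝ) ^ (1 : ℝ) :=
      Real.rpow_lt_rpow_of_exponent_lt (by linarith) (by linarith)
    rw [Real.rpow_one] at h3
    exact_mod_cast hHle.trans_lt h3
  -- integer parameters
  set N2 : ℕ := ⌈ν / 32 * N⌉₊ with hN2
  have hN2a : ν / 32 * N ≤ N2 := Nat.le_ceil _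
  have hN2b : (N2 : ℝ) < ν / 32 * N + 1 := Nat.ceil_lt_add_one (by positivity)
  have hN2pos : 0 < N2 := by
    have : (0 : ℝ) < N2 := lt_of_lt_of_le (by positivity) hN2a
    exact_mod_cast this
  have hN2R : (0 : ℝ) < N2 := by exact_mod_cast hN2pos
  set W : ℕ := ⌊(N : ℝ) / (16 * x)⌋₊ with hW
  have hWa : (W : ℝ) ≤ N / (16 * x) := Nat.floor_le (by positivity)
  have hWb : (N : ℝ) / (16 * x) < W + 1 := Nat.lt_floor_add_one _
  set om0 : ℕ := ⌊(N : ℝ) / (32 * x)⌋₊ with hom0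
  have hom0a : (om0 : ℝ) ≤ N / (32 * x) := Nat.floor_le (by positivity)
  set Lmax : ℕ := ⌈(1 + 5 * ν / 64) * N⌉₊ + 3 with hLmax
  have hLa : (1 + 5 * ν / 64) * N + 3 ≤ Lmax := by
    rw [hLmax]; push_cast
    have := Nat.le_ceil ((1 + 5 * ν / 64) * (N : ℝ))
    linarith
  have hLb : (Lmax : ℝ) ≤ (1 + 5 * ν / 64) * N + 4 := by
    rw [hLmax]; push_cast
    have := (Nat.ceil_lt_add_one (a := (1 + 5 * ν / 64) * (N : ℝ)) (by positivity)).le
    linarith
  have hLb2 : (Lmax : ℝ) ≤ 2 * N := by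
    have : (1 + 5 * ν / 64) * (N : ℝ) = N + 5 * (ν * N) / 64 := by ring
    linarith
  -- the sum of the logarithms
  have hSp : ∀ r ∈ (Z1 * Z2).primeFactors, r.Prime := fun r hr => Nat.prime_of_mem_primeFactors hr
  have hlogS : ∑ r ∈ (Z1 * Z2).primeFactors, Real.log (r : ℝ) ≤ Real.log T := by
    have h5 : ∑ r ∈ (Z1 * Z2).primeFactors, Real.log (r : ℝ) =
        Real.log (∏ r ∈ (Z1 * Z2).primeFactors, (r : ℝ)) := by
      rw [Real.log_prod]
      intro r hr
      have := (hSp r hr).pos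
      positivity
    rw [h5]
    refine Real.log_le_log ?_ hT
    exact Finset.prod_pos fun r hr => by
      have := (hSp r hr).pos
      positivity
  have hLsP : Real.log T ≤ Q * (ν * Real.log p) / 200 := by linarith
  refine thmSexpZ p N Z1 Z2 s hp h1 h2 hcop hs hne hdvd (1 - ν) A δ (Real.log T) (by linarith)
    (by linarith) hA0.le hN5 (sc * (4 * D + 3)) (D + 1) sc Q H (N / (2 * q ^ 2 + 1)) R N2 W om0
    Lmax hQ0 hHp hHlog hR3 ?_ ?_ ?_ ?_ ?_ hN2pos ?_ hlogS ?_ hZ1 hZ2 ?_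
  · -- the pigeonhole condition
    refine par_count ν x δ Y N p Q n q (2 * q ^ 2 + 1) R hν1 hp.two_le hx0.le (by positivity)
      ?_ hqx hδ0 hδx hRb hYa hcon
    push_cast
    have : (1 : ℝ) ≤ (q : ℝ) ^ 2 := one_le_pow₀ hq1R
    linarith
  · -- letters
    exact par_let X0 hX0 x δ N q D sc R hx2 hδ0 hδ1 hD1 hsc2 hqa hqN' hXN hRa
  · -- `n ≤ m M`
    have e1 : 8 ≤ (D : ℝ) * δ := by
      calc (8 : ℝ) = 512 * (sc / ν) * δ := by rw [← hδν]; field_simp; norm_num
        _ ≤ D * δ := by gcongr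
    have e2 : 8 ≤ ((D + 1 : ℕ) : ℝ) * δ := by
      push_cast
      linarith
    have h4 : ((D + 1 : ℕ) : ℝ) * (δ / 4 * N) = ((D + 1 : ℕ) : ℝ) * δ * N / 4 := by ring
    rw [h4]
    have e3 : 8 * (N : ℝ) ≤ ((D + 1 : ℕ) : ℝ) * δ * N := mul_le_mul_of_nonneg_right e2 hNR.le
    have e4 : ν / 32 * (N : ℝ) = (ν * N) / 32 := by ring
    linarith
  · -- the window
    have e0 : (N : ℝ) / (16 * x) = 4 * (N / (64 * x)) := by field_simp; ring
    have e1 : (N : ℝ) / (32 * x) = 2 * (N / (64 * x)) := by field_simp; ring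
    have e2 : 1 ≤ (N : ℝ) / (64 * x) := by
      rw [le_div_iff₀ (by positivity)]
      linarith
    have e3 : ((N / (2 * q ^ 2 + 1) : ℕ) : ℝ) ≤ N / (64 * x) := by
      refine Nat.cast_div_le.trans ?_
      apply div_le_div_of_nonneg_left hNR.le (by positivity)
      push_cast
      have : (q : ℝ) ≤ (q : ℝ) ^ 2 := le_self_pow₀ hq1R (by norm_num)
      linarith
    have e4 : ((om0 + N / (2 * q ^ 2 + 1) : ℕ) : ℝ) ≤ W := by
      push_cast
      push_cast at e3
      linarith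
    exact_mod_cast e4
  · -- `W ≤ N`
    have : (W : ℝ) ≤ N := by
      refine hWa.trans ?_
      rw [div_le_iff₀ (by positivity)]
      nlinarith
    exact_mod_cast this
  · -- `Lmax`
    have e1 : (sc : ℝ) * (δ * N) = ν * N / 64 := by
      rw [← hδν]; ring
    have h3 : (1 + 5 * ν / 64) * (N : ℝ) = N + 4 * (ν * N / 64) + ν * N / 64 := by ring
    have e4 : ν / 32 * (N : ℝ) = 2 * (ν * N / 64) := by ring
    rw [e1]
    linarith
  · -- box condition for `omega ≠ 1`
    have h3 : (Q : ℝ) * (ν * Real.log p) ≤ Q * (1 * Real.log p) := by gcongr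
    linarith
  · -- the final inequality
    set k : ℕ := sc * (4 * D + 3) with hk
    set y : ℝ := 33 / ν with hy
    have hPP := par_P ν x (Real.log p) sc D hν0 hν1.le hxν hsc1 hsc3 (by
      refine hDb.trans (le_of_eq ?_)
      ring) hlam0 (by
      refine le_trans ?_ hP
      apply mul_le_mul_of_nonneg_right
      · apply div_le_div_of_nonneg_right _ hν0.le
        linarith
      · have : 0 ≤ Real.log x := Real.log_nonneg (by linarith)
        positivity)
    rw [← hk, ← hy] at hPP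
    have hratio : ((N : ℝ) + N2) / N2 ≤ y := by
      rw [div_le_iff₀ hN2R, hy]
      have e1 : (N : ℝ) ≤ 32 / ν * N2 := by
        rw [div_mul_eq_mul_div, le_div_iff₀ hν0]
        linarith
      have e2 : (1 : ℝ) ≤ 1 / ν := by
        rw [le_div_iff₀ hν0]
        linarith
      have e3 : (N2 : ℝ) ≤ 1 / ν * N2 := le_mul_of_one_le_left hN2R.le e2
      have e4 : 33 / ν * (N2 : ℝ) = 32 / ν * N2 + 1 / ν * N2 := by ring
      rw [e4]
      linarith
    have hratio2 : (((N : ℝ) + N2) / N2) ^ (k + 1) ≤ y ^ (k + 1) :=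
      pow_le_pow_left₀ (by positivity) hratio _
    have hN2N : (N2 : ℝ) ≤ N := by
      have e4 : ν / 32 * (N : ℝ) = (ν * N) / 32 := by ring
      linarith
    have hlogN : Real.log ((N : ℝ) + N2) ≤ 2 * N := by
      have h3 := Real.log_le_sub_one_of_pos (show (0 : ℝ) < (N : ℝ) + N2 by positivity)
      linarith
    have hlog2 : Real.log 2 ≤ 1 := by
      have := Real.log_two_lt_d9
      linarith
    have hlog20 : 0 ≤ Real.log 2 := Real.log_nonneg (by norm_num)
    have f1 : Real.log 2 + ((k : ℝ) + 1) * Real.log (N + N2) + Lmax * Real.log 2 ≤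
        (2 * k + 7) * N := by
      have e1 : ((k : ℝ) + 1) * Real.log (N + N2) ≤ (k + 1) * (2 * N) :=
        mul_le_mul_of_nonneg_left hlogN (by positivity)
      have e2 : (Lmax : ℝ) * Real.log 2 ≤ 2 * N * 1 := by gcongr
      have e3 : (2 * (k : ℝ) + 7) * N = (k + 1) * (2 * N) + 2 * N * 1 + 3 * N := by ring
      rw [e3]
      linarith
    have hy0 : 0 < y := by rw [hy]; positivity
    have f2 : ((((N : ℝ) + N2) / N2) ^ (k + 1) + 1) *
        (Real.log 2 + ((k : ℝ) + 1) * Real.log (N + N2) + Lmax * Real.log 2) ≤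
        ν * Real.log p * N / 16 := by
      have e1 : ((((N : ℝ) + N2) / N2) ^ (k + 1) + 1) *
          (Real.log 2 + ((k : ℝ) + 1) * Real.log (N + N2) + Lmax * Real.log 2) ≤
          (y ^ (k + 1) + 1) * ((2 * k + 7) * N) := by
        apply mul_le_mul _ f1 _ (by positivity)
        · linarith
        · have : 0 ≤ Real.log ((N : ℝ) + N2) := Real.log_nonneg (by linarith)
          positivity
      have e2 : 16 * (y ^ (k + 1) + 1) * (2 * (k : ℝ) + 7) * N ≤ ν * Real.log p * N :=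
        mul_le_mul_of_nonneg_right hPP hNR.le
      have e3 : 16 * ((y ^ (k + 1) + 1) * ((2 * (k : ℝ) + 7) * N)) =
        16 * (y ^ (k + 1) + 1) * (2 * (k : ℝ) + 7) * N := by ring
      linarith
    have f3 : (Lmax : ℝ) * ((1 - ν) * Real.log p) ≤
        ((1 - ν + 5 * ν / 64) * N + 4) * Real.log p := by
      have e1 : (Lmax : ℝ) * (1 - ν) ≤ (1 - ν + 5 * ν / 64) * N + 4 := by
        have e0 : 0 ≤ 1 - ν := by linarith
        have e5 : 1 - ν ≤ 1 := by linarith
        calc (Lmax : ℝ) * (1 - ν) ≤ ((1 + 5 * ν / 64) * N + 4) * (1 - ν) :=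
              mul_le_mul_of_nonneg_right hLb e0
          _ = (1 - ν) * N + (1 - ν) * (5 * ν / 64 * N) + (1 - ν) * 4 := by ring
          _ ≤ (1 - ν) * N + 1 * (5 * ν / 64 * N) + 1 * 4 := by gcongr
          _ = _ := by ring
      calc (Lmax : ℝ) * ((1 - ν) * Real.log p) = (Lmax : ℝ) * (1 - ν) * Real.log p := by ring
        _ ≤ _ := mul_le_mul_of_nonneg_right e1 hlam0.le
    have f4 : 2 * (W : ℝ) * A * Real.log p ≤ (ν / 8 * N) * Real.log p := by
      apply mul_le_mul_of_nonneg_right _ hlam0.le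
      calc 2 * (W : ℝ) * A ≤ 2 * (N / (16 * x)) * A := by gcongr
        _ = ν / 8 * N := by rw [← hνx]; field_simp; ring
    have f5 : (2 * (Lmax : ℝ) / Q + 1) * Real.log T ≤ (ν / 32 * N) * Real.log p := by
      have e1 : (2 * (Lmax : ℝ) / Q + 1) * Real.log T ≤
          (2 * (2 * N) / Q + N / Q) * (Q * (ν * Real.log p) / 200) := by
        have e2 : 1 ≤ (N : ℝ) / Q := by
          rw [le_div_iff₀ (by linarith)]
          linarith
        gcongr
      have e3 : (2 * (2 * (N : ℝ)) / Q + N / Q) * (Q * (ν * Real.log p) / 200) =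
          5 / 200 * (ν * N * Real.log p) := by field_simp; ring
      have e4 : 0 ≤ ν * N * Real.log p := by positivity
      have e5 : ν / 32 * (N : ℝ) * Real.log p = 1 / 32 * (ν * N * Real.log p) := by ring
      rw [e5]
      linarith
    have f6 : 4 * Real.log p ≤ ν / 8 * N * Real.log p := by
      apply mul_le_mul_of_nonneg_right _ hlam0.le
      linarith
    have f8 : 0 < ν * N * Real.log p := by positivity
    have g1 : ((1 - ν + 5 * ν / 64) * N + 4) * Real.log p =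
        N * Real.log p - ν * N * Real.log p + 5 / 64 * (ν * N * Real.log p) +
          4 * Real.log p := by ring
    have g2 : (ν / 8 * (N : ℝ)) * Real.log p = 1 / 8 * (ν * N * Real.log p) := by ring
    have g3 : (ν / 32 * (N : ℝ)) * Real.log p = 1 / 32 * (ν * N * Real.log p) := by ring
    have g4 : ν * Real.log p * (N : ℝ) / 16 = 1 / 16 * (ν * N * Real.log p) := by ring
    rw [g1] at f3
    rw [g2] at f4 f6
    rw [g3] at f5
    rw [g4] at f2
    linarith

end Pool.Agent.Lib.AbcZQ
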