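import Mathlib
import Pool.Agent.Lib.AbcZQ.DefsQ
import Pool.Agent.Lib.AbcZQ.ThmSqH51
import Pool.Agent.Lib.AbcZQ.LightQ
import Pool.Agent.Lib.AbcZQ.FinalQ
import Pool.Agent.Lib.AbcZQ.AsyQ

/-!
# Every abc-triple has `log c ≤ exp (C log r (log log log r) ^ 3 / log log r)`, `r = rad (abc)`
-/

namespace Pool.Agent.Lib.AbcZQ

open Finset Pool.Agent.Lib.Pabc2 Pool.Agent.Lib.AbcH Pool.Agent.Lib.AbcO

/-- The bound for all exponents, explicit. -/
theorem allEps : ∃ C : ℝ, 1 ≤ C ∧ AllEps C := by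
  obtain ⟨C0, h0, hS⟩ := thmSq
  obtain ⟨C1, h1, hL⟩ := lightQ
  exact allEps_of C0 C1 h0 h1 hS hL

/-- **Every abc-triple**, quantitative form. -/
theorem subexpQ : ∃ C r0 : ℝ, 0 < C ∧ ∀ a b c : ℕ, AbcTriple a b c →
    r0 ≤ (rad (a * b * c) : ℝ) →
    Real.log c ≤ Real.exp (C * Real.log (rad (a * b * c)) *
      Real.log (Real.log (Real.log (rad (a * b * c)))) ^ 3 /
      Real.log (Real.log (rad (a * b * c)))) := by
  obtain ⟨C, hC, hE⟩ := allEps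
  obtain ⟨C', r0, hC', h⟩ := asy C hC
  exact ⟨C', r0, hC', fun a b c habc hr => h _ _ hr fun ε h1 h2 => hE ε h1 h2 a b c habc⟩

/-- **Every abc-triple**, with the exponent `1 - e` of `log log r`. -/
theorem subexpQ' (e : ℝ) (he : 0 < e) : ∃ r0 : ℝ, ∀ a b c : ℕ, AbcTriple a b c →
    r0 ≤ (rad (a * b * c) : ℝ) →
    Real.log c ≤ Real.exp (Real.log (rad (a * b * c)) /
      Real.log (Real.log (rad (a * b * c))) ^ (1 - e)) := by
  obtain ⟨C, r0, hC, h⟩ := subexpQ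
  obtain ⟨r1, h1⟩ := asy2 C e hC he
  refine ⟨max r0 r1, fun a b c habc hr => ?_⟩
  refine (h a b c habc ((le_max_left _ _).trans hr)).trans ?_
  exact Real.exp_le_exp.2 (h1 _ ((le_max_right _ _).trans hr))

end Pool.Agent.Lib.AbcZQ
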